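import Mathlib

namespace Pool.Agent.H2.BL

/-- subsets of the natural numbers with a zero element adjoined -/
inductive M where
  | z : M
  | s : Set ℕ → M

open Classical in
noncomputable def M.mul : M → M → M
  | .z, _ => .z
  | .s _, .z => .z
  | .s S, .s T => if Disjoint S T then .s (S ∪ T) else .z

noncomputable instance : Mul M := ⟨M.mul⟩
instance : One M := ⟨.s ∅⟩

theorem z_mul (a : M) : M.z * a = M.z := rfl
theorem mul_z (a : M) : a * M.z = M.z := by cases a <;> rfl
theorem one_def : (1 : M) = .s ∅ := rfl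
theorem s_mul_s {S T : Set ℕ} (h : Disjoint S T) : M.s S * M.s T = M.s (S ∪ T) := by
  change M.mul _ _ = _
  simp only [M.mul, if_pos h]
theorem s_mul_s' {S T : Set ℕ} (h : ¬ Disjoint S T) : M.s S * M.s T = M.z := by
  change M.mul _ _ = _
  simp only [M.mul, if_neg h]

theorem m_comm (a b : M) : a * b = b * a := by
  cases a with
  | z => rw [z_mul, mul_z]
  | s S =>
    cases b with
    | z => rw [z_mul, mul_z]
    | s T =>
      by_cases h : Disjoint S T
      · rw [s_mul_s h, s_mul_s h.symm, Set.union_comm]
      · rw [s_mul_s' h, s_mul_s' (fun h' => h h'.symm)]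

theorem m_assoc (a b c : M) : a * b * c = a * (b * c) := by
  cases a with
  | z => rw [z_mul, z_mul, z_mul]
  | s S =>
    cases b with
    | z => rw [z_mul, mul_z, z_mul]
    | s T =>
      cases c with
      | z => rw [mul_z, mul_z, mul_z]
      | s U =>
        by_cases h1 : Disjoint S T
        · rw [s_mul_s h1]
          by_cases h2 : Disjoint T U
          · rw [s_mul_s h2]
            by_cases h3 : Disjoint S U
            · rw [s_mul_s (Set.disjoint_union_left.2 ⟨h3, h2⟩),
                s_mul_s (Set.disjoint_union_right.2 ⟨h1, h3⟩), Set.union_assoc]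
            · rw [s_mul_s' (fun h => h3 (Set.disjoint_union_left.1 h).1),
                s_mul_s' (fun h => h3 (Set.disjoint_union_right.1 h).2)]
          · rw [s_mul_s' h2, mul_z, s_mul_s' (fun h => h2 (Set.disjoint_union_left.1 h).2)]
        · rw [s_mul_s' h1, z_mul]
          by_cases h2 : Disjoint T U
          · rw [s_mul_s h2, s_mul_s' (fun h => h1 (Set.disjoint_union_right.1 h).1)]
          · rw [s_mul_s' h2, mul_z]

noncomputable instance : CommMonoid M where
  mul_assoc := m_assoc
  one_mul a := by
    cases a with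
    | z => rfl
    | s S => rw [one_def, s_mul_s (Set.empty_disjoint S), Set.empty_union]
  mul_one a := by
    cases a with
    | z => rfl
    | s S => rw [one_def, s_mul_s (Set.disjoint_empty S), Set.union_empty]
  mul_comm := m_comm

variable (F : Type) [Field F]

/-- the commutative ring -/
abbrev P := MonoidAlgebra F M

/-- the generators -/
noncomputable def c (S : Set ℕ) : P F := MonoidAlgebra.single (M.s S) 1 -
  MonoidAlgebra.single M.z 1

theorem c_mul {S T : Set ℕ} (h : Disjoint S T) : c F S * c F T = c F (S ∪ T) := by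
  unfold c
  rw [mul_sub, sub_mul, sub_mul, MonoidAlgebra.single_mul_single, MonoidAlgebra.single_mul_single,
    MonoidAlgebra.single_mul_single, MonoidAlgebra.single_mul_single, z_mul, mul_z, z_mul,
    s_mul_s h, mul_one, sub_self, sub_zero]

theorem c_mul' {S T : Set ℕ} (h : ¬ Disjoint S T) : c F S * c F T = 0 := by
  unfold c
  rw [mul_sub, sub_mul, sub_mul, MonoidAlgebra.single_mul_single, MonoidAlgebra.single_mul_single,
    MonoidAlgebra.single_mul_single, MonoidAlgebra.single_mul_single, z_mul, mul_z, z_mul,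
    s_mul_s' h, mul_one, sub_self]

theorem c_ne (S : Set ℕ) : c F S ≠ 0 := by
  intro h
  have h2 : MonoidAlgebra.of F M (M.s S) = MonoidAlgebra.of F M M.z := sub_eq_zero.1 h
  have h3 := MonoidAlgebra.of_injective h2
  cases h3

/-- the ideal generated by the `c S`, `S` infinite -/
noncomputable def I : Ideal (P F) := Ideal.span {x | ∃ S : Set ℕ, S.Infinite ∧ x = c F S}

variable [CharP F 2]

theorem two0 : (2 : P F) = 0 := by
  have h : (2 : F) = 0 := CharTwo.two_eq_zero
  have : (2 : P F) = algebraMap F (P F) 2 := (map_ofNat (algebraMap F (P F)) 2).symm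
  rw [this, h, map_zero]

theorem sq0 {x : P F} (hx : x ∈ I F) : x * x = 0 := by
  unfold I at hx
  refine Submodule.span_induction (p := fun x _ => x * x = 0) ?_ ?_ ?_ ?_ hx
  · rintro _ ⟨S, hS, rfl⟩
    apply c_mul'
    intro h
    rw [disjoint_self] at h
    exact hS (by rw [h]; exact Set.finite_empty)
  · exact mul_zero 0
  · intro x y _ _ hx hy
    linear_combination hx + hy + x * y * two0 F
  · intro a x _ hx
    rw [smul_eq_mul]
    linear_combination a * a * hx


/-- the algebra -/
def A := I F × I F

noncomputable instance : AddCommGroup (A F) := inferInstanceAs (AddCommGroup (I F × I F))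
noncomputable instance : Module F (A F) := inferInstanceAs (Module F (I F × I F))

variable {F}

def fs (x : A F) : P F := x.1.1
def sn (x : A F) : P F := x.2.1

theorem fs_mem (x : A F) : fs x ∈ I F := x.1.2
theorem sn_mem (x : A F) : sn x ∈ I F := x.2.2

omit [CharP F 2] in
theorem A_ext {x y : A F} (h1 : fs x = fs y) (h2 : sn x = sn y) : x = y :=
  Prod.ext (Subtype.ext h1) (Subtype.ext h2)

def mk (p q : P F) (hp : p ∈ I F) (hq : q ∈ I F) : A F := (⟨p, hp⟩, ⟨q, hq⟩)

noncomputable instance : Mul (A F) := ⟨fun x y =>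
  mk (fs x * fs y + fs x * sn y + sn x * fs y) (fs x * sn y + sn x * fs y + sn x * sn y)
    (add_mem (add_mem ((I F).mul_mem_left _ (fs_mem y)) ((I F).mul_mem_left _ (sn_mem y)))
      ((I F).mul_mem_left _ (fs_mem y)))
    (add_mem (add_mem ((I F).mul_mem_left _ (sn_mem y)) ((I F).mul_mem_left _ (fs_mem y)))
      ((I F).mul_mem_left _ (sn_mem y)))⟩

theorem fs_mul (x y : A F) : fs (x * y) = fs x * fs y + fs x * sn y + sn x * fs y := rfl
theorem sn_mul (x y : A F) : sn (x * y) = fs x * sn y + sn x * fs y + sn x * sn y := rfl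
theorem fs_add (x y : A F) : fs (x + y) = fs x + fs y := rfl
theorem sn_add (x y : A F) : sn (x + y) = sn x + sn y := rfl
theorem fs_zero : fs (0 : A F) = 0 := rfl
theorem sn_zero : sn (0 : A F) = 0 := rfl
theorem fs_smul (r : F) (x : A F) : fs (r • x) = r • fs x := rfl
theorem sn_smul (r : F) (x : A F) : sn (r • x) = r • sn x := rfl

noncomputable instance : NonUnitalNonAssocRing (A F) where
  left_distrib x y w := by
    apply A_ext
    · simp only [fs_mul, fs_add, sn_add]; ring
    · simp only [sn_mul, fs_add, sn_add]; ring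
  right_distrib x y w := by
    apply A_ext
    · simp only [fs_mul, fs_add, sn_add]; ring
    · simp only [sn_mul, fs_add, sn_add]; ring
  zero_mul x := by
    apply A_ext
    · simp only [fs_mul, fs_zero, sn_zero]; ring
    · simp only [sn_mul, fs_zero, sn_zero]; ring
  mul_zero x := by
    apply A_ext
    · simp only [fs_mul, fs_zero, sn_zero]; ring
    · simp only [sn_mul, fs_zero, sn_zero]; ring

instance : IsScalarTower F (A F) (A F) where
  smul_assoc r x y := by
    simp only [smul_eq_mul]
    apply A_ext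
    · simp only [fs_mul, fs_smul, sn_smul, smul_add, Algebra.smul_mul_assoc]
    · simp only [sn_mul, fs_smul, sn_smul, smul_add, Algebra.smul_mul_assoc]

instance : SMulCommClass F (A F) (A F) where
  smul_comm r x y := by
    simp only [smul_eq_mul]
    apply A_ext
    · simp only [fs_mul, fs_smul, sn_smul, smul_add, Algebra.mul_smul_comm]
    · simp only [sn_mul, fs_smul, sn_smul, smul_add, Algebra.mul_smul_comm]

theorem mul_comm' (x y : A F) : x * y = y * x := by
  apply A_ext
  · simp only [fs_mul]; ring
  · simp only [sn_mul]; ring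

theorem add_self (x : A F) : x + x = 0 := by
  apply A_ext
  · rw [fs_add, fs_zero]; linear_combination fs x * two0 F
  · rw [sn_add, sn_zero]; linear_combination sn x * two0 F

theorem mul_self' (x : A F) : x * x = 0 := by
  have h1 := sq0 F (fs_mem x)
  have h2 := sq0 F (sn_mem x)
  apply A_ext
  · rw [fs_mul, fs_zero]
    linear_combination h1 + fs x * sn x * two0 F
  · rw [sn_mul, sn_zero]
    linear_combination h2 + fs x * sn x * two0 F

theorem fs_xyx (x y : A F) : fs (x * y * x) = fs x * sn x * fs y := by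
  have h1 := sq0 F (fs_mem x)
  have h2 := sq0 F (sn_mem x)
  simp only [fs_mul, sn_mul]
  linear_combination fs y * h1 + fs y * h2 +
    (fs x * fs x * sn y + fs x * sn x * fs y + fs x * sn x * sn y) * two0 F

theorem sn_xyx (x y : A F) : sn (x * y * x) = fs x * sn x * sn y := by
  have h1 := sq0 F (fs_mem x)
  have h2 := sq0 F (sn_mem x)
  simp only [fs_mul, sn_mul]
  linear_combination sn y * h1 + sn y * h2 +
    (fs x * sn x * fs y + fs x * sn x * sn y + sn x * sn x * fs y) * two0 F

theorem px (x y : A F) : x * y * x * x = 0 := by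
  have h1 := sq0 F (fs_mem x)
  have h2 := sq0 F (sn_mem x)
  apply A_ext
  · rw [fs_mul, fs_xyx, sn_xyx, fs_zero]
    linear_combination (sn x * fs y + sn x * sn y) * h1 + (fs x * fs y) * h2
  · rw [sn_mul, fs_xyx, sn_xyx, sn_zero]
    linear_combination (fs x * fs y + fs x * sn y) * h2 + (sn x * sn y) * h1

theorem py (x y : A F) : x * y * x * y = 0 := by
  have h1 := sq0 F (fs_mem y)
  have h2 := sq0 F (sn_mem y)
  apply A_ext
  · rw [fs_mul, fs_xyx, sn_xyx, fs_zero]
    linear_combination (fs x * sn x) * h1 + (fs x * sn x * fs y * sn y) * two0 F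
  · rw [sn_mul, fs_xyx, sn_xyx, sn_zero]
    linear_combination (fs x * sn x) * h2 + (fs x * sn x * fs y * sn y) * two0 F

theorem pw (x y : A F) : x * y * x * (x * y) = 0 := by
  have h1 := sq0 F (fs_mem x)
  have h2 := sq0 F (sn_mem x)
  apply A_ext
  · rw [fs_mul, fs_xyx, sn_xyx, fs_zero, fs_mul, sn_mul]
    linear_combination (sn x * fs y * fs y + 3 * sn x * fs y * sn y + sn x * sn y * sn y) * h1 +
      (2 * fs x * fs y * fs y + 2 * fs x * fs y * sn y) * h2
  · rw [sn_mul, fs_xyx, sn_xyx, sn_zero, fs_mul, sn_mul]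
    linear_combination (2 * sn x * fs y * sn y + 2 * sn x * sn y * sn y) * h1 +
      (fs x * fs y * fs y + 3 * fs x * fs y * sn y + fs x * sn y * sn y) * h2

theorem pq (x y : A F) : x * y * x * (y * x * y) = 0 := by
  have h1 := sq0 F (fs_mem x)
  have h2 := sq0 F (sn_mem x)
  apply A_ext
  · rw [fs_mul, fs_xyx, sn_xyx, fs_zero, fs_xyx, sn_xyx]
    linear_combination (sn x * fs y * fs y * sn y + sn x * fs y * sn y * sn y) * h1 +
      (fs x * fs y * fs y * sn y) * h2
  · rw [sn_mul, fs_xyx, sn_xyx, sn_zero, fs_xyx, sn_xyx]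
    linear_combination (sn x * fs y * sn y * sn y) * h1 +
      (fs x * fs y * fs y * sn y + fs x * fs y * sn y * sn y) * h2

/-- general element of the subalgebra generated by two elements -/
noncomputable def gen (x y : A F) (a b g d e : F) : A F :=
  a • x + b • y + g • (x * y) + d • (x * y * x) + e • (y * x * y)

theorem gen_mul (x y : A F) (a b g d e a' b' g' d' e' : F) :
    gen x y a b g d e * gen x y a' b' g' d' e' =
      gen x y 0 0 (a * b' + b * a') (a * g' + g * a') (b * g' + g * b') := by
  have c1 : y * x = x * y := mul_comm' y x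
  have e1 : x * (x * y) = x * y * x := mul_comm' _ _
  have e2 : y * (x * y) = y * x * y := by rw [c1]; exact mul_comm' _ _
  have e3 : x * y * y = y * x * y := by rw [c1]
  have e4 : x * (x * y * x) = 0 := by rw [mul_comm']; exact px x y
  have e5 : y * (x * y * x) = 0 := by rw [mul_comm']; exact py x y
  have e6 : x * y * (x * y * x) = 0 := by rw [mul_comm']; exact pw x y
  have e7 : y * x * y * x = 0 := py y x
  have e8 : y * x * y * y = 0 := px y x
  have e9 : y * x * y * (x * y) = 0 := by rw [mul_comm' x y]; exact pw y x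
  have e10 : x * (y * x * y) = 0 := by rw [mul_comm']; exact e7
  have e11 : y * (y * x * y) = 0 := by rw [mul_comm']; exact e8
  have e12 : x * y * (y * x * y) = 0 := by rw [mul_comm']; exact e9
  have e13 : y * x * y * (x * y * x) = 0 := by rw [mul_comm']; exact pq x y
  unfold gen
  simp only [mul_add, add_mul, smul_mul_assoc, mul_smul_comm, mul_self', e1, e2, e3, e4, e5, e6,
    e7, e8, e9, e10, e11, e12, e13, px, py, pw, pq, smul_zero, add_zero, zero_add, zero_smul,
    add_smul]
  rw [c1]
  module

/-- the subalgebra of all general elements -/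
noncomputable def G (x y : A F) : NonUnitalSubalgebra F (A F) where
  carrier := {z | ∃ a b g d e, z = gen x y a b g d e}
  zero_mem' := ⟨0, 0, 0, 0, 0, by unfold gen; simp⟩
  add_mem' := by
    rintro _ _ ⟨a, b, g, d, e, rfl⟩ ⟨a', b', g', d', e', rfl⟩
    exact ⟨a + a', b + b', g + g', d + d', e + e', by unfold gen; module⟩
  mul_mem' := by
    rintro _ _ ⟨a, b, g, d, e, rfl⟩ ⟨a', b', g', d', e', rfl⟩
    exact ⟨_, _, _, _, _, gen_mul x y a b g d e a' b' g' d' e'⟩
  smul_mem' := by
    rintro r _ ⟨a, b, g, d, e, rfl⟩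
    exact ⟨r * a, r * b, r * g, r * d, r * e, by unfold gen; module⟩

theorem mem_gen {x y z : A F} (hz : z ∈ NonUnitalAlgebra.adjoin F ({x, y} : Set (A F))) :
    ∃ a b g d e, z = gen x y a b g d e := by
  have h : NonUnitalAlgebra.adjoin F ({x, y} : Set (A F)) ≤ G x y := by
    apply NonUnitalAlgebra.adjoin_le
    intro w hw
    rcases hw with rfl | hw
    · exact ⟨1, 0, 0, 0, 0, by unfold gen; simp⟩
    · rw [Set.mem_singleton_iff] at hw
      subst hw
      exact ⟨0, 1, 0, 0, 0, by unfold gen; simp⟩
  exact h hz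

theorem jac (x y : A F) (a b g d e a' b' g' d' e' a'' b'' g'' d'' e'' : F) :
    (gen x y a b g d e * gen x y a' b' g' d' e') * gen x y a'' b'' g'' d'' e'' +
    (gen x y a' b' g' d' e' * gen x y a'' b'' g'' d'' e'') * gen x y a b g d e +
    (gen x y a'' b'' g'' d'' e'' * gen x y a b g d e) * gen x y a' b' g' d' e' = 0 := by
  have h2 : (2 : F) = 0 := CharTwo.two_eq_zero
  rw [gen_mul, gen_mul, gen_mul, gen_mul, gen_mul, gen_mul]
  have e1 : ((a * b' + b * a') * a'' + (a' * b'' + b' * a'') * a + (a'' * b + b'' * a) * a') = 0 := by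
    linear_combination (a * b' * a'' + b * a' * a'' + a * a' * b'') * h2
  have e2 : ((a * b' + b * a') * b'' + (a' * b'' + b' * a'') * b + (a'' * b + b'' * a) * b') = 0 := by
    linear_combination (a * b' * b'' + b * a' * b'' + b * b' * a'') * h2
  have key : ∀ s1 s2 s3 t1 t2 t3 : F, s1 + s2 + s3 = 0 → t1 + t2 + t3 = 0 →
      gen x y 0 0 0 s1 t1 + gen x y 0 0 0 s2 t2 + gen x y 0 0 0 s3 t3 = 0 := by
    intro s1 s2 s3 t1 t2 t3 hs ht
    have : gen x y 0 0 0 s1 t1 + gen x y 0 0 0 s2 t2 + gen x y 0 0 0 s3 t3 =
      (s1 + s2 + s3) • (x * y * x) + (t1 + t2 + t3) • (y * x * y) := by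
      unfold gen
      module
    rw [this, hs, ht]
    simp
  simp only [zero_mul, add_zero, zero_add]
  exact key _ _ _ _ _ _ e1 e2

theorem split {S : Set ℕ} (hS : S.Infinite) : ∃ S1 S2 : Set ℕ, S1.Infinite ∧ S2.Infinite ∧
    Disjoint S1 S2 ∧ S1 ∪ S2 = S := by
  let f := hS.natEmbedding
  have hf : Function.Injective (fun n => (f n : ℕ)) := fun m n h => f.injective (Subtype.ext h)
  refine ⟨Set.range (fun n => (f (2 * n) : ℕ)), S \ Set.range (fun n => (f (2 * n) : ℕ)), ?_, ?_,
    Set.disjoint_sdiff_right, ?_⟩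
  · apply Set.infinite_range_of_injective
    intro m n h
    have := hf h
    omega
  · refine Set.Infinite.mono (s := Set.range (fun n => (f (2 * n + 1) : ℕ))) ?_ ?_
    · rintro _ ⟨n, rfl⟩
      refine ⟨(f (2 * n + 1)).2, ?_⟩
      rintro ⟨m, hm⟩
      have := hf hm
      omega
    · apply Set.infinite_range_of_injective
      intro m n h
      have := hf h
      omega
  · apply Set.union_sdiff_cancel
    rintro _ ⟨n, rfl⟩
    exact (f (2 * n)).2

theorem c_mem {S : Set ℕ} (hS : S.Infinite) : c F S ∈ I F := Ideal.subset_span ⟨S, hS, rfl⟩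

theorem perf1 (D : Submodule F (A F)) (hD : ∀ x y : A F, x * y ∈ D) (u : P F) (hu : u ∈ I F) :
    ∀ (t : P F), mk (t * u) 0 ((I F).mul_mem_left t hu) (zero_mem _) ∈ D := by
  have h0 := hu
  unfold I at h0
  induction h0 using Submodule.span_induction with
  | mem u h =>
    obtain ⟨S, hS, rfl⟩ := h
    intro t
    obtain ⟨S1, S2, h1, h2, h12, rfl⟩ := split hS
    have := hD (mk (t * c F S1) 0 ((I F).mul_mem_left t (c_mem h1)) (zero_mem _))
      (mk (c F S2) 0 (c_mem h2) (zero_mem _))
    convert this using 1
    apply A_ext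
    · rw [fs_mul]
      change t * c F (S1 ∪ S2) = t * c F S1 * c F S2 + t * c F S1 * 0 + 0 * c F S2
      rw [← c_mul F h12]; ring
    · rw [sn_mul]
      change 0 = t * c F S1 * 0 + 0 * c F S2 + 0 * 0
      ring
  | zero =>
    intro t
    have : mk (t * 0) 0 ((I F).mul_mem_left t hu) (zero_mem _) = 0 := by
      apply A_ext
      · exact mul_zero t
      · rfl
    rw [this]
    exact zero_mem _
  | add u v hu' hv' ihu ihv =>
    intro t
    have := add_mem (ihu hu' t) (ihv hv' t)
    convert this using 1
    apply A_ext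
    · exact mul_add t u v
    · exact (add_zero (0 : P F)).symm
  | smul a u hu' ih =>
    intro t
    have := ih hu' (t * a)
    convert this using 1
    apply A_ext
    · change t * (a • u) = t * a * u
      rw [smul_eq_mul]; ring
    · rfl

theorem perf2 (D : Submodule F (A F)) (hD : ∀ x y : A F, x * y ∈ D) (u : P F) (hu : u ∈ I F) :
    ∀ (t : P F), mk 0 (t * u) (zero_mem _) ((I F).mul_mem_left t hu) ∈ D := by
  have h0 := hu
  unfold I at h0
  induction h0 using Submodule.span_induction with
  | mem u h =>
    obtain ⟨S, hS, rfl⟩ := h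
    intro t
    obtain ⟨S1, S2, h1, h2, h12, rfl⟩ := split hS
    have := hD (mk 0 (t * c F S1) (zero_mem _) ((I F).mul_mem_left t (c_mem h1)))
      (mk 0 (c F S2) (zero_mem _) (c_mem h2))
    convert this using 1
    apply A_ext
    · rw [fs_mul]
      change 0 = 0 * 0 + 0 * c F S2 + t * c F S1 * 0
      ring
    · rw [sn_mul]
      change t * c F (S1 ∪ S2) = 0 * c F S2 + t * c F S1 * 0 + t * c F S1 * c F S2
      rw [← c_mul F h12]; ring
  | zero =>
    intro t
    have : mk 0 (t * 0) (zero_mem _) ((I F).mul_mem_left t hu) = 0 := by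
      apply A_ext
      · rfl
      · exact mul_zero t
    rw [this]
    exact zero_mem _
  | add u v hu' hv' ihu ihv =>
    intro t
    have := add_mem (ihu hu' t) (ihv hv' t)
    convert this using 1
    apply A_ext
    · exact (add_zero (0 : P F)).symm
    · exact mul_add t u v
  | smul a u hu' ih =>
    intro t
    have := ih hu' (t * a)
    convert this using 1
    apply A_ext
    · rfl
    · change t * (a • u) = t * a * u
      rw [smul_eq_mul]; ring

theorem perf (D : Submodule F (A F)) (hD : ∀ x y : A F, x * y ∈ D) : D = ⊤ := by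
  rw [eq_top_iff]
  intro x _
  have h1 := perf1 D hD (fs x) (fs_mem x) 1
  have h2 := perf2 D hD (sn x) (sn_mem x) 1
  have := add_mem h1 h2
  convert this using 1
  apply A_ext
  · rw [fs_add]
    change fs x = 1 * fs x + 0
    ring
  · rw [sn_add]
    change sn x = 0 + 1 * sn x
    ring

theorem nontriv : ∃ x : A F, x ≠ 0 := by
  refine ⟨mk (c F Set.univ) 0 (c_mem Set.infinite_univ) (zero_mem _), ?_⟩
  intro h
  exact c_ne F Set.univ (congrArg fs h)

/-- the automorphism -/
noncomputable def phi : A F ≃ₗ[F] A F where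
  toFun x := mk (sn x) (fs x + sn x) (sn_mem x) (add_mem (fs_mem x) (sn_mem x))
  invFun x := mk (fs x + sn x) (fs x) (add_mem (fs_mem x) (sn_mem x)) (fs_mem x)
  map_add' x y := by
    apply A_ext
    · rfl
    · change fs (x + y) + sn (x + y) = fs x + sn x + (fs y + sn y)
      rw [fs_add, sn_add]; ring
  map_smul' r x := by
    apply A_ext
    · rfl
    · change fs (r • x) + sn (r • x) = r • (fs x + sn x)
      rw [fs_smul, sn_smul, smul_add]
  left_inv x := by
    apply A_ext
    · change sn x + (fs x + sn x) = fs x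
      linear_combination sn x * two0 F
    · rfl
  right_inv x := by
    apply A_ext
    · rfl
    · change fs x + sn x + fs x = sn x
      linear_combination fs x * two0 F

theorem fs_phi (x : A F) : fs (phi x) = sn x := rfl
theorem sn_phi (x : A F) : sn (phi x) = fs x + sn x := rfl

theorem phi_mul (x y : A F) : phi (x * y) = phi x * phi y := by
  apply A_ext
  · rw [fs_phi, fs_mul, sn_mul, fs_phi, fs_phi, sn_phi, sn_phi]
    linear_combination (-(sn x * sn y)) * two0 F
  · rw [sn_phi, sn_mul, fs_mul, sn_mul, fs_phi, fs_phi, sn_phi, sn_phi]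
    linear_combination (-(sn x * sn y)) * two0 F

theorem phi3 (x : A F) : phi (phi (phi x)) = x := by
  apply A_ext
  · simp only [fs_phi, sn_phi]
    linear_combination (sn x) * two0 F
  · simp only [fs_phi, sn_phi]
    linear_combination (fs x + sn x) * two0 F

theorem phi_reg (x : A F) (h : phi x = x) : x = 0 := by
  have h1 : sn x = fs x := congrArg fs h
  have h2 : fs x + sn x = sn x := congrArg sn h
  have h3 : fs x = 0 := by linear_combination h2
  apply A_ext
  · exact h3
  · rw [h1, h3]; rfl

end Pool.Agent.H2.BL
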