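import Mathlib

namespace Pool.Agent.H2.CA

/-- seven real coordinates: a scalar and two three-dimensional vectors -/
def A7 := ℝ × (ℝ × ℝ × ℝ) × (ℝ × ℝ × ℝ)

noncomputable instance : AddCommGroup A7 :=
  inferInstanceAs (AddCommGroup (ℝ × (ℝ × ℝ × ℝ) × (ℝ × ℝ × ℝ)))
noncomputable instance : Module ℚ A7 :=
  inferInstanceAs (Module ℚ (ℝ × (ℝ × ℝ × ℝ) × (ℝ × ℝ × ℝ)))

namespace A7

def mk (t a b c p q r : ℝ) : A7 := (t, (a, b, c), (p, q, r))
def t (x : A7) : ℝ := x.1
def a (x : A7) : ℝ := x.2.1.1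
def b (x : A7) : ℝ := x.2.1.2.1
def c (x : A7) : ℝ := x.2.1.2.2
def p (x : A7) : ℝ := x.2.2.1
def q (x : A7) : ℝ := x.2.2.2.1
def r (x : A7) : ℝ := x.2.2.2.2

theorem ext' {x y : A7} (h1 : x.t = y.t) (h2 : x.a = y.a) (h3 : x.b = y.b) (h4 : x.c = y.c)
    (h5 : x.p = y.p) (h6 : x.q = y.q) (h7 : x.r = y.r) : x = y :=
  Prod.ext h1 (Prod.ext (Prod.ext h2 (Prod.ext h3 h4)) (Prod.ext h5 (Prod.ext h6 h7)))

noncomputable instance : Mul A7 := ⟨fun x y => mk
  (x.t * y.t + (x.a * y.p + x.b * y.q + x.c * y.r) + (x.p * y.a + x.q * y.b + x.r * y.c))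
  (x.t * y.a + y.t * x.a + (x.q * y.r - x.r * y.q))
  (x.t * y.b + y.t * x.b + (x.r * y.p - x.p * y.r))
  (x.t * y.c + y.t * x.c + (x.p * y.q - x.q * y.p))
  (x.t * y.p + y.t * x.p - 2 * (x.b * y.c - x.c * y.b))
  (x.t * y.q + y.t * x.q - 2 * (x.c * y.a - x.a * y.c))
  (x.t * y.r + y.t * x.r - 2 * (x.a * y.b - x.b * y.a))⟩

theorem mul_t (x y : A7) : (x * y).t = x.t * y.t + (x.a * y.p + x.b * y.q + x.c * y.r) +
  (x.p * y.a + x.q * y.b + x.r * y.c) := rfl
theorem mul_a (x y : A7) : (x * y).a = x.t * y.a + y.t * x.a + (x.q * y.r - x.r * y.q) := rfl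
theorem mul_b (x y : A7) : (x * y).b = x.t * y.b + y.t * x.b + (x.r * y.p - x.p * y.r) := rfl
theorem mul_c (x y : A7) : (x * y).c = x.t * y.c + y.t * x.c + (x.p * y.q - x.q * y.p) := rfl
theorem mul_p (x y : A7) : (x * y).p = x.t * y.p + y.t * x.p - 2 * (x.b * y.c - x.c * y.b) := rfl
theorem mul_q (x y : A7) : (x * y).q = x.t * y.q + y.t * x.q - 2 * (x.c * y.a - x.a * y.c) := rfl
theorem mul_r (x y : A7) : (x * y).r = x.t * y.r + y.t * x.r - 2 * (x.a * y.b - x.b * y.a) := rfl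
theorem add_t (x y : A7) : (x + y).t = x.t + y.t := rfl
theorem add_a (x y : A7) : (x + y).a = x.a + y.a := rfl
theorem add_b (x y : A7) : (x + y).b = x.b + y.b := rfl
theorem add_c (x y : A7) : (x + y).c = x.c + y.c := rfl
theorem add_p (x y : A7) : (x + y).p = x.p + y.p := rfl
theorem add_q (x y : A7) : (x + y).q = x.q + y.q := rfl
theorem add_r (x y : A7) : (x + y).r = x.r + y.r := rfl
theorem zero_t : (0 : A7).t = 0 := rfl
theorem zero_a : (0 : A7).a = 0 := rfl
theorem zero_b : (0 : A7).b = 0 := rfl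
theorem zero_c : (0 : A7).c = 0 := rfl
theorem zero_p : (0 : A7).p = 0 := rfl
theorem zero_q : (0 : A7).q = 0 := rfl
theorem zero_r : (0 : A7).r = 0 := rfl
theorem sub_t (x y : A7) : (x - y).t = x.t - y.t := rfl
theorem sub_a (x y : A7) : (x - y).a = x.a - y.a := rfl
theorem sub_b (x y : A7) : (x - y).b = x.b - y.b := rfl
theorem sub_c (x y : A7) : (x - y).c = x.c - y.c := rfl
theorem sub_p (x y : A7) : (x - y).p = x.p - y.p := rfl
theorem sub_q (x y : A7) : (x - y).q = x.q - y.q := rfl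
theorem sub_r (x y : A7) : (x - y).r = x.r - y.r := rfl
theorem smul_t (s : ℚ) (x : A7) : (s • x).t = s • x.t := rfl
theorem smul_a (s : ℚ) (x : A7) : (s • x).a = s • x.a := rfl
theorem smul_b (s : ℚ) (x : A7) : (s • x).b = s • x.b := rfl
theorem smul_c (s : ℚ) (x : A7) : (s • x).c = s • x.c := rfl
theorem smul_p (s : ℚ) (x : A7) : (s • x).p = s • x.p := rfl
theorem smul_q (s : ℚ) (x : A7) : (s • x).q = s • x.q := rfl
theorem smul_r (s : ℚ) (x : A7) : (s • x).r = s • x.r := rfl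

noncomputable instance : NonUnitalNonAssocRing A7 where
  left_distrib x y w := by
    apply ext' <;> simp only [mul_t, mul_a, mul_b, mul_c, mul_p, mul_q, mul_r, add_t, add_a,
      add_b, add_c, add_p, add_q, add_r] <;> ring
  right_distrib x y w := by
    apply ext' <;> simp only [mul_t, mul_a, mul_b, mul_c, mul_p, mul_q, mul_r, add_t, add_a,
      add_b, add_c, add_p, add_q, add_r] <;> ring
  zero_mul x := by
    apply ext' <;> simp only [mul_t, mul_a, mul_b, mul_c, mul_p, mul_q, mul_r, zero_t, zero_a,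
      zero_b, zero_c, zero_p, zero_q, zero_r] <;> ring
  mul_zero x := by
    apply ext' <;> simp only [mul_t, mul_a, mul_b, mul_c, mul_p, mul_q, mul_r, zero_t, zero_a,
      zero_b, zero_c, zero_p, zero_q, zero_r] <;> ring

instance : IsScalarTower ℚ A7 A7 where
  smul_assoc s x y := by
    simp only [smul_eq_mul]
    apply ext' <;> simp only [mul_t, mul_a, mul_b, mul_c, mul_p, mul_q, mul_r, smul_t, smul_a,
      smul_b, smul_c, smul_p, smul_q, smul_r, Rat.smul_def] <;> ring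

instance : SMulCommClass ℚ A7 A7 where
  smul_comm s x y := by
    simp only [smul_eq_mul]
    apply ext' <;> simp only [mul_t, mul_a, mul_b, mul_c, mul_p, mul_q, mul_r, smul_t, smul_a,
      smul_b, smul_c, smul_p, smul_q, smul_r, Rat.smul_def] <;> ring

theorem flexible (x y : A7) : (x * y) * x = x * (y * x) := by
  apply ext' <;> simp only [mul_t, mul_a, mul_b, mul_c, mul_p, mul_q, mul_r] <;> ring

theorem jordan (x y : A7) : ((x * x) * y) * x = (x * x) * (y * x) := by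
  apply ext' <;> simp only [mul_t, mul_a, mul_b, mul_c, mul_p, mul_q, mul_r] <;> ring

theorem ident (x y : A7) : ((x * y - y * x) * y) * y = (x * y - y * x) * (y * y) := by
  apply ext' <;> simp only [mul_t, mul_a, mul_b, mul_c, mul_p, mul_q, mul_r, sub_t, sub_a,
      sub_b, sub_c, sub_p, sub_q, sub_r] <;> ring

end A7

end Pool.Agent.H2.CA
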