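import Mathlib
import Pool.Agent.H2.CF1

namespace Pool.Agent.H2.CF

section

variable {G T : Type} [Group G] [Group T] (g : T →* G) (N : Subgroup G) [N.Normal]

/-- the action of `T` on `N` -/
def act : T →* MulAut N := MulAut.conjNormal.comp g

theorem act_apply (t : T) (n : N) : ((act g N t n : N) : G) = g t * n * (g t)⁻¹ := by
  simp [act]

abbrev PP : Type := N ⋊[(act g N).range.subtype] (act g N).range

theorem sdp_mem {F : Cls} (hF : IsForm F) [Finite T] {Q Q' : Type} [Group Q] [Group Q']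
    (_hg : Function.Surjective g)
    (c : T →* Q) (hc : Function.Surjective c) (hQ : F Q) (d : T →* Q')
    (hcd : ∀ t, c t = 1 → d t = 1 → t = 1) (hN : ∀ n ∈ N, ∃ t, d t = 1 ∧ g t = n)
    (hα : ∀ s, c s = 1 → act g N s = 1) : F (PP g N) := by
  let Nd : Subgroup T := d.ker ⊓ N.comap g
  let W : Subgroup (T × T) :=
    { carrier := {p | p.2 * p.1⁻¹ ∈ Nd}
      one_mem' := by simp [Nd]
      mul_mem' := by
        intro p q hp hq
        have : (p * q).2 * (p * q).1⁻¹ = p.2 * p.1⁻¹ * (p.1 * (q.2 * q.1⁻¹) * p.1⁻¹) := by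
          simp only [Prod.fst_mul, Prod.snd_mul]; group
        rw [Set.mem_ofPred_eq, this]
        exact Nd.mul_mem hp (Subgroup.Normal.conj_mem inferInstance _ hq _)
      inv_mem' := by
        intro p hp
        have : p⁻¹.2 * p⁻¹.1⁻¹ = p.1⁻¹ * (p.2 * p.1⁻¹)⁻¹ * (p.1⁻¹)⁻¹ := by
          simp only [Prod.fst_inv, Prod.snd_inv]; group
        rw [Set.mem_ofPred_eq, this]
        exact Subgroup.Normal.conj_mem inferInstance _ (Nd.inv_mem hp) _ }
  have hW : ∀ p : W, d (p.1.2 * p.1.1⁻¹) = 1 ∧ g (p.1.2 * p.1.1⁻¹) ∈ N := fun p => p.2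
  let Ψ : W →* PP g N :=
    { toFun := fun p => ⟨⟨g (p.1.2 * p.1.1⁻¹), (hW p).2⟩, ⟨act g N p.1.1, ⟨_, rfl⟩⟩⟩
      map_one' := by
        ext <;> simp
      map_mul' := by
        intro p q
        apply SemidirectProduct.ext
        · apply Subtype.ext
          rw [SemidirectProduct.mul_left]
          change g ((p.1.2 * q.1.2) * (p.1.1 * q.1.1)⁻¹) =
            g (p.1.2 * p.1.1⁻¹) * ((act g N p.1.1 ⟨g (q.1.2 * q.1.1⁻¹), (hW q).2⟩ : N) : G)
          rw [act_apply, ← map_inv, ← map_mul, ← map_mul, ← map_mul]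
          congr 1
          group
        · apply Subtype.ext
          change act g N (p.1.1 * q.1.1) = act g N p.1.1 * act g N q.1.1
          rw [map_mul] }
  let f1 : W →* T := (MonoidHom.fst T T).comp W.subtype
  let f2 : W →* T := (MonoidHom.snd T T).comp W.subtype
  have hf1 : Function.Surjective f1 := fun t => ⟨⟨(t, t), by
    change t * t⁻¹ ∈ Nd
    rw [mul_inv_cancel]; exact one_mem _⟩, rfl⟩
  have hf2 : Function.Surjective f2 := fun t => ⟨⟨(t, t), by
    change t * t⁻¹ ∈ Nd
    rw [mul_inv_cancel]; exact one_mem _⟩, rfl⟩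
  refine hF.star (c.comp f1) (c.comp f2) Ψ (hc.comp hf1) (hc.comp hf2) ?_ ?_ hQ hQ
  · rintro ⟨⟨m, hm⟩, ⟨_, ⟨s, rfl⟩⟩⟩
    obtain ⟨t, ht1, ht2⟩ := hN m hm
    have hmem : (s, t * s) ∈ W := by
      change t * s * s⁻¹ ∈ Nd
      rw [mul_inv_cancel_right]
      exact ⟨ht1, by change g t ∈ N; rw [ht2]; exact hm⟩
    refine ⟨⟨(s, t * s), hmem⟩, ?_⟩
    apply SemidirectProduct.ext
    · apply Subtype.ext
      change g (t * s * s⁻¹) = m
      rw [mul_inv_cancel_right, ht2]
    · rfl
  · rintro ⟨⟨s, t⟩, hst⟩ hs ht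
    have hs' : c s = 1 := hs
    have ht' : c t = 1 := ht
    have h1 : t * s⁻¹ = 1 := by
      apply hcd
      · rw [map_mul, map_inv, hs', ht']; simp
      · exact hst.1
    apply SemidirectProduct.ext
    · apply Subtype.ext
      change g (t * s⁻¹) = 1
      rw [h1, map_one]
    · apply Subtype.ext
      exact hα s hs'

end

theorem sat_left {H M F1 F2 : Cls} (hH : IsForm H) (hHs : IsSat H) (hMs : IsSat M)
    (h1 : IsForm F1) (h2 : IsForm F2) (hH1 : ∀ (G : Type) [Group G], H G → F1 G)
    (hint : ∀ (G : Type) [Group G], F1 G → F2 G → H G)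
    (hM1 : ∀ (G : Type) [Group G], F1 G → M G)
    (hMJ : ∀ (G : Type) [Group G], M G → Join F1 F2 G) : IsSat F1 := by
  suffices ∀ n, ∀ (G : Type) [Group G] [Finite G], Nat.card G = n →
      F1 (G ⧸ frattini G) → F1 G by
    intro G _ _ hG
    exact this _ G rfl hG
  intro n
  induction n using Nat.strong_induction_on with
  | _ n ih =>
  intro G _ _ hn hG
  by_contra hcon
  have hq : ∀ (N : Subgroup G) [N.Normal], N ≠ ⊥ → F1 (G ⧸ N) := by
    intro N _ hN
    have hlt : Nat.card (G ⧸ N) < n := by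
      have h3 := Subgroup.card_eq_card_quotient_mul_card_subgroup N
      have h4 : 1 < Nat.card N := by
        rw [Subgroup.one_lt_card_iff_ne_bot]; exact hN
      have h5 : 0 < Nat.card (G ⧸ N) := Nat.card_pos
      rw [← hn, h3]
      nlinarith
    apply ih _ hlt (G ⧸ N) rfl
    have hle : frattini G ≤ (frattini (G ⧸ N)).comap (QuotientGroup.mk' N) :=
      frattini_le_comap_frattini_of_surjective (QuotientGroup.mk'_surjective N)
    refine h1.star (W := G) (QuotientGroup.mk' (frattini G)) (QuotientGroup.mk' (frattini G))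
      ((QuotientGroup.mk' (frattini (G ⧸ N))).comp (QuotientGroup.mk' N))
      (QuotientGroup.mk'_surjective _) (QuotientGroup.mk'_surjective _)
      ((QuotientGroup.mk'_surjective _).comp (QuotientGroup.mk'_surjective _)) ?_ hG hG
    intro w hw _
    have hw' : w ∈ frattini G := (QuotientGroup.eq_one_iff w).1 hw
    exact (QuotientGroup.eq_one_iff _).2 (hle hw')
  have mono : ∀ (N L : Subgroup G) [N.Normal] [L.Normal], N ≠ ⊥ → L ≠ ⊥ → N ⊓ L ≠ ⊥ := by
    intro N L _ _ hN hL hNL
    exact hcon (h1.sub G N L hNL (hq N hN) (hq L hL))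
  have hM : M G := hMs G (hM1 _ hG)
  obtain ⟨-, T, Q1, Q2, _, _, _, a, b, g, hT, hQ1, hQ2, ha, hb, hg, hab⟩ := hMJ G hM
  have comm : ∀ s t, a s = 1 → b t = 1 → s * t = t * s := by
    intro s t hs ht
    have h3 : s * t * s⁻¹ * t⁻¹ = 1 := by
      apply hab <;> simp [hs, ht]
    rw [mul_inv_eq_one, mul_inv_eq_iff_eq_mul] at h3
    exact h3
  have nB : (a.ker.map g).Normal := Subgroup.Normal.map inferInstance g hg
  have nA : (b.ker.map g).Normal := Subgroup.Normal.map inferInstance g hg
  have hB : a.ker.map g ≠ ⊥ := by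
    intro h
    apply hcon
    refine h1.star a a g ha ha hg ?_ hQ1 hQ1
    intro w hw _
    have : g w ∈ a.ker.map g := ⟨w, hw, rfl⟩
    rw [h] at this
    exact this
  have hA : b.ker.map g ≠ ⊥ := by
    intro h
    apply hcon
    have hF2 : F2 G := by
      refine h2.star b b g hb hb hg ?_ hQ2 hQ2
      intro w hw _
      have : g w ∈ b.ker.map g := ⟨w, hw, rfl⟩
      rw [h] at this
      exact this
    exact hH1 _ (hHs G (hint _ hG (h2.quo G _ hF2)))
  -- minimal normal subgroup
  obtain ⟨N, hNmin⟩ := (Set.toFinite {N : Subgroup G | N.Normal ∧ N ≠ ⊥}).exists_minimal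
    ⟨_, nB, hB⟩
  obtain ⟨⟨nN, hN⟩, hmin⟩ := hNmin
  have min' : ∀ (J : Subgroup G), J.Normal → J ≠ ⊥ → J ≤ N → N ≤ J :=
    fun J hJ hJ' hJN => hmin ⟨hJ, hJ'⟩ hJN
  have hNB : N ≤ a.ker.map g :=
    (min' (N ⊓ a.ker.map g) inferInstance (mono _ _ hN hB) inf_le_left).trans inf_le_right
  have hNA : N ≤ b.ker.map g :=
    (min' (N ⊓ b.ker.map g) inferInstance (mono _ _ hN hA) inf_le_left).trans inf_le_right
  have actB : ∀ s, a s = 1 → act g N s = 1 := by
    intro s hs
    apply MulEquiv.ext
    rintro ⟨m, hm⟩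
    apply Subtype.ext
    rw [act_apply]
    obtain ⟨t, ht, rfl⟩ := hNA hm
    change g s * g t * (g s)⁻¹ = g t
    rw [← map_mul, comm s t hs ht, map_mul, mul_inv_cancel_right]
  have actA : ∀ s, b s = 1 → act g N s = 1 := by
    intro s hs
    apply MulEquiv.ext
    rintro ⟨m, hm⟩
    apply Subtype.ext
    rw [act_apply]
    obtain ⟨t, ht, rfl⟩ := hNB hm
    change g s * g t * (g s)⁻¹ = g t
    rw [← map_mul, ← comm t s ht hs, map_mul, mul_inv_cancel_right]
  have hP1 : F1 (PP g N) := sdp_mem g N h1 hg a ha hQ1 b hab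
    (fun n hn => by obtain ⟨t, ht, rfl⟩ := hNA hn; exact ⟨t, ht, rfl⟩) actB
  have hP2 : F2 (PP g N) := sdp_mem g N h2 hg b hb hQ2 a (fun t h h' => hab t h' h)
    (fun n hn => by obtain ⟨t, ht, rfl⟩ := hNB hn; exact ⟨t, ht, rfl⟩) actA
  have hPH : H (PP g N) := hint _ hP1 hP2
  -- N abelian
  have Nab : ∀ m ∈ N, ∀ m' ∈ N, m * m' = m' * m := by
    intro m hm m' hm'
    obtain ⟨s, hs, rfl⟩ := hNB hm
    obtain ⟨t, ht, rfl⟩ := hNA hm'
    rw [← map_mul, comm s t hs ht, map_mul]
  let NB : Subgroup T := a.ker ⊓ N.comap g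
  let L2 : Subgroup T := b.ker ⊔ (g.ker ⊓ a.ker)
  let M2 : Subgroup T := b.ker ⊔ NB
  have memM2 : ∀ w, w ∈ M2 → ∃ n ∈ NB, ∃ x, b x = 1 ∧ w = n * x := by
    intro w hw
    obtain ⟨x, hx, n, hn, rfl⟩ := Subgroup.mem_sup_of_normal_left.1 hw
    exact ⟨n, hn, x, hx, (comm n x hn.1 hx).symm⟩
  have hNBM2 : NB ≤ M2 := le_sup_right
  have hL2M2 : L2 ≤ M2 := by
    apply sup_le_sup_left
    rintro w ⟨h3, h4⟩
    have h3' : g w = 1 := h3
    exact ⟨h4, by change g w ∈ N; rw [h3']; exact one_mem _⟩
  have hTM1 : F1 (T ⧸ M2) := by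
    refine h1.star a ((QuotientGroup.mk' N).comp g) (QuotientGroup.mk' M2) ha
      ((QuotientGroup.mk'_surjective _).comp hg) (QuotientGroup.mk'_surjective _) ?_ hQ1
      (hq N hN)
    intro w hw hw'
    have h3 : g w ∈ N := (QuotientGroup.eq_one_iff _).1 hw'
    exact (QuotientGroup.eq_one_iff _).2 (hNBM2 ⟨hw, h3⟩)
  have hTM2 : F2 (T ⧸ M2) := by
    refine h2.star b b (QuotientGroup.mk' M2) hb hb (QuotientGroup.mk'_surjective _) ?_ hQ2 hQ2
    intro w hw _
    exact (QuotientGroup.eq_one_iff _).2 ((le_sup_left : b.ker ≤ M2) hw)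
  have hTM : H (T ⧸ M2) := hint _ hTM1 hTM2
  have hX : H (T ⧸ L2) := by
    by_cases hi : M2.map (QuotientGroup.mk' L2) ≤ frattini (T ⧸ L2)
    · apply hHs
      refine hH.star (W := T) (QuotientGroup.mk' M2) (QuotientGroup.mk' M2)
        ((QuotientGroup.mk' (frattini (T ⧸ L2))).comp (QuotientGroup.mk' L2))
        (QuotientGroup.mk'_surjective _) (QuotientGroup.mk'_surjective _)
        ((QuotientGroup.mk'_surjective _).comp (QuotientGroup.mk'_surjective _)) ?_ hTM hTM
      intro w hw _
      have h3 : w ∈ M2 := (QuotientGroup.eq_one_iff _).1 hw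
      exact (QuotientGroup.eq_one_iff _).2 (hi ⟨w, h3, rfl⟩)
    · have : ∃ Y' : Subgroup (T ⧸ L2), IsCoatom Y' ∧
          ¬ M2.map (QuotientGroup.mk' L2) ≤ Y' := by
        by_contra hc
        push Not at hc
        apply hi
        unfold frattini Order.radical
        exact le_iInf₂ (fun Y hY => hc Y hY)
      obtain ⟨Y', hY', hMY⟩ := this
      let Y : Subgroup T := Y'.comap (QuotientGroup.mk' L2)
      have hL2Y : L2 ≤ Y := by
        intro w hw
        have h3 : QuotientGroup.mk' L2 w = 1 := (QuotientGroup.eq_one_iff _).2 hw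
        change QuotientGroup.mk' L2 w ∈ Y'
        rw [h3]; exact one_mem _
      have hbY : ∀ x, b x = 1 → x ∈ Y := fun x hx => hL2Y ((le_sup_left : b.ker ≤ L2) hx)
      have nM2 : (M2.map (QuotientGroup.mk' L2)).Normal :=
        Subgroup.Normal.map inferInstance _ (QuotientGroup.mk'_surjective _)
      have htop : M2.map (QuotientGroup.mk' L2) ⊔ Y' = ⊤ := by
        rcases hY'.le_iff.1 (le_sup_right : Y' ≤ M2.map (QuotientGroup.mk' L2) ⊔ Y') with h | h
        · exact h
        · exact absurd (h ▸ le_sup_left) hMY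
      have hdec : ∀ t : T, ∃ n ∈ NB, n⁻¹ * t ∈ Y := by
        intro t
        have h3 : QuotientGroup.mk' L2 t ∈ M2.map (QuotientGroup.mk' L2) ⊔ Y' := by
          rw [htop]; trivial
        obtain ⟨_, ⟨m, hm, rfl⟩, y, hy, h4⟩ := Subgroup.mem_sup_of_normal_left.1 h3
        obtain ⟨n, hn, x, hx, rfl⟩ := memM2 m hm
        refine ⟨n, hn, ?_⟩
        have h5 : (n * x)⁻¹ * t ∈ Y := by
          change QuotientGroup.mk' L2 ((n * x)⁻¹ * t) ∈ Y'
          rw [map_mul, map_inv, ← h4, inv_mul_cancel_left]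
          exact hy
        have h6 : n⁻¹ * t = x * ((n * x)⁻¹ * t) := by group
        rw [h6]
        exact Y.mul_mem (hbY x hx) h5
      -- NB ⊓ Y maps to 1
      have hJ : ∀ x ∈ NB, x ∈ Y → g x = 1 := by
        have hJN : (NB ⊓ Y).map g ≤ N := by
          rintro _ ⟨x, hx, rfl⟩
          exact hx.1.2
        have nJ : ((NB ⊓ Y).map g).Normal := by
          refine ⟨?_⟩
          rintro _ ⟨x, hx, rfl⟩ z
          obtain ⟨t, rfl⟩ := hg z
          obtain ⟨n, hn, hy⟩ := hdec t
          have h3 : n⁻¹ * t * x * (n⁻¹ * t)⁻¹ ∈ NB ⊓ Y :=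
            ⟨Subgroup.Normal.conj_mem inferInstance _ hx.1 _,
              Y.mul_mem (Y.mul_mem hy hx.2) (Y.inv_mem hy)⟩
          refine ⟨_, h3, ?_⟩
          have h4 : g t * g x * (g t)⁻¹ = g n * g (n⁻¹ * t * x * (n⁻¹ * t)⁻¹) * (g n)⁻¹ := by
            rw [← map_inv, ← map_inv, ← map_mul, ← map_mul, ← map_mul, ← map_mul]
            congr 1; group
          rw [h4, Nab (g n) hn.2 _ h3.1.2, mul_inv_cancel_right]
        by_contra hc
        push Not at hc
        obtain ⟨x, hx1, hx2, hx3⟩ := hc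
        have hJne : (NB ⊓ Y).map g ≠ ⊥ := by
          intro h
          apply hx3
          have : g x ∈ (NB ⊓ Y).map g := ⟨x, ⟨hx1, hx2⟩, rfl⟩
          rw [h] at this
          exact this
        have hNJ := min' _ nJ hJne hJN
        apply hMY
        rintro _ ⟨m, hm, rfl⟩
        obtain ⟨n, hn, x, hx, rfl⟩ := memM2 m hm
        obtain ⟨z, hz, hz'⟩ := hNJ hn.2
        have h5 : z⁻¹ * n ∈ L2 := by
          refine (le_sup_right : g.ker ⊓ a.ker ≤ L2) ⟨?_, ?_⟩
          · change g (z⁻¹ * n) = 1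
            rw [map_mul, map_inv, hz', inv_mul_cancel]
          · exact a.ker.mul_mem (a.ker.inv_mem hz.1.1) hn.1
        have h6 : n * x ∈ Y := by
          have : n = z * (z⁻¹ * n) := by group
          rw [this]
          exact Y.mul_mem (Y.mul_mem hz.2 (hL2Y h5)) (hbY x hx)
        exact h6
      have huniq : ∀ t n n', n ∈ NB → n' ∈ NB → n⁻¹ * t ∈ Y → n'⁻¹ * t ∈ Y → g n = g n' := by
        intro t n n' hn hn' hy hy'
        have h3 : g (n⁻¹ * n') = 1 := by
          apply hJ _ (NB.mul_mem (NB.inv_mem hn) hn')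
          have : n⁻¹ * n' = (n⁻¹ * t) * (n'⁻¹ * t)⁻¹ := by group
          rw [this]
          exact Y.mul_mem hy (Y.inv_mem hy')
        rw [map_mul, map_inv, inv_mul_eq_one] at h3
        exact h3
      choose nt hnt hnty using hdec
      have actNB : ∀ n ∈ NB, act g N n = 1 := fun n hn => actB n hn.1
      let G2 : T →* PP g N :=
        { toFun := fun t => ⟨⟨g (nt t), (hnt t).2⟩, ⟨act g N t, ⟨_, rfl⟩⟩⟩
          map_one' := by
            have h3 : g (nt 1) = 1 := by
              rw [← map_one g]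
              exact huniq 1 (nt 1) 1 (hnt 1) (one_mem _) (hnty 1) (by simp [one_mem])
            apply SemidirectProduct.ext
            · exact Subtype.ext h3
            · exact Subtype.ext (map_one _)
          map_mul' := by
            intro t t'
            apply SemidirectProduct.ext
            · apply Subtype.ext
              rw [SemidirectProduct.mul_left]
              change g (nt (t * t')) =
                g (nt t) * ((act g N t ⟨g (nt t'), (hnt t').2⟩ : N) : G)
              rw [act_apply]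
              set y := (nt t)⁻¹ * t with hy
              have h3 : g (nt (t * t')) = g (nt t * (y * nt t' * y⁻¹)) := by
                apply huniq (t * t')
                · exact hnt _
                · exact NB.mul_mem (hnt t) (Subgroup.Normal.conj_mem inferInstance _ (hnt t') _)
                · exact hnty _
                · have : (nt t * (y * nt t' * y⁻¹))⁻¹ * (t * t') = y * ((nt t')⁻¹ * t') := by
                    rw [hy]; group
                  rw [this]
                  exact Y.mul_mem (hnty t) (hnty t')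
              rw [h3]
              have h4 : g t = g (nt t) * g y := by rw [← map_mul, hy]; congr 1; group
              rw [h4, map_mul]
              congr 1
              have h5 : g (y * nt t' * y⁻¹) ∈ N :=
                (Subgroup.Normal.conj_mem (inferInstance : NB.Normal) _ (hnt t') y).2
              have h6 : g (nt t) * g y * g (nt t') * (g (nt t) * g y)⁻¹ =
                  g (nt t) * g (y * nt t' * y⁻¹) * (g (nt t))⁻¹ := by
                simp only [map_mul, map_inv]; group
              rw [h6, Nab _ (hnt t).2 _ h5, mul_inv_cancel_right]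
            · apply Subtype.ext
              change act g N (t * t') = act g N t * act g N t'
              rw [map_mul] }
      refine hH.star (QuotientGroup.mk' M2) G2 (QuotientGroup.mk' L2)
        (QuotientGroup.mk'_surjective _) ?_ (QuotientGroup.mk'_surjective _) ?_ hTM hPH
      · rintro ⟨⟨m, hm⟩, ⟨_, ⟨s, rfl⟩⟩⟩
        obtain ⟨n, hn, rfl⟩ := hNB hm
        have hnNB : n ∈ NB := ⟨hn, hm⟩
        refine ⟨n * ((nt s)⁻¹ * s), ?_⟩
        apply SemidirectProduct.ext
        · apply Subtype.ext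
          change g (nt (n * ((nt s)⁻¹ * s))) = g n
          apply huniq (n * ((nt s)⁻¹ * s)) _ _ (hnt _) hnNB (hnty _)
          rw [inv_mul_cancel_left]
          exact hnty s
        · apply Subtype.ext
          change act g N (n * ((nt s)⁻¹ * s)) = act g N s
          rw [map_mul, map_mul, map_inv, actNB n hnNB, actNB _ (hnt s)]
          simp
      · intro w hw hw'
        have hwM : w ∈ M2 := (QuotientGroup.eq_one_iff _).1 hw
        obtain ⟨n, hn, x, hx, rfl⟩ := memM2 w hwM
        have h3 : g (nt (n * x)) = 1 :=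
          congrArg (fun p : PP g N => ((p.left : N) : G)) hw'
        have h4 : g (nt (n * x)) = g n := by
          apply huniq (n * x) _ _ (hnt _) hn (hnty _)
          rw [inv_mul_cancel_left]
          exact hbY x hx
        apply (QuotientGroup.eq_one_iff _).2
        refine L2.mul_mem ((le_sup_right : g.ker ⊓ a.ker ≤ L2) ⟨?_, hn.1⟩)
          ((le_sup_left : b.ker ≤ L2) hx)
        change g n = 1
        rw [← h4, h3]
  -- conclusion
  apply hcon
  have hTNB : F1 (T ⧸ NB) := by
    refine h1.star a ((QuotientGroup.mk' N).comp g) (QuotientGroup.mk' NB) ha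
      ((QuotientGroup.mk'_surjective _).comp hg) (QuotientGroup.mk'_surjective _) ?_ hQ1
      (hq N hN)
    intro w hw hw'
    have h3 : g w ∈ N := (QuotientGroup.eq_one_iff _).1 hw'
    exact (QuotientGroup.eq_one_iff _).2 ⟨hw, h3⟩
  refine h1.star (QuotientGroup.mk' NB) (QuotientGroup.mk' L2) g
    (QuotientGroup.mk'_surjective _) (QuotientGroup.mk'_surjective _) hg ?_ hTNB (hH1 _ hX)
  intro w hw hw'
  have h3 : w ∈ NB := (QuotientGroup.eq_one_iff _).1 hw
  have h4 : w ∈ L2 := (QuotientGroup.eq_one_iff _).1 hw'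
  obtain ⟨x, hx, y, hy, rfl⟩ := Subgroup.mem_sup_of_normal_left.1 h4
  have hx' : x = 1 := by
    apply hab x _ hx
    have h5 : a (x * y) = 1 := h3.1
    have h6 : a y = 1 := hy.2
    rw [map_mul, h6, mul_one] at h5
    exact h5
  rw [hx', one_mul]
  exact hy.1

end Pool.Agent.H2.CF
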