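import Mathlib

set_option autoImplicit false
set_option linter.unusedSectionVars false

namespace Pool.Agent.H2.GS

open MonoidAlgebra

variable {K : Type} [Field K]

/-- the free associative algebra on 3 generators -/
abbrev R (K : Type) [Field K] := MonoidAlgebra K (FreeMonoid (Fin 3))

/-- monomials -/
noncomputable def mon (w : FreeMonoid (Fin 3)) : R K := single w 1

/-- generators -/
noncomputable def X (i : Fin 3) : R K := mon (FreeMonoid.of i)

theorem mon_mul (w w' : FreeMonoid (Fin 3)) : (mon w * mon w' : R K) = mon (w * w') := by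
  simp [mon]

theorem mon_one : (mon 1 : R K) = 1 := rfl

/-- homogeneous components -/
noncomputable def hc (n : ℕ) : R K →ₗ[K] R K where
  toFun a := ofCoeff (a.coeff.filter (fun w => w.length = n))
  map_add' a b := by simp
  map_smul' c a := by simp

theorem hc_mon (n : ℕ) (w : FreeMonoid (Fin 3)) :
    hc n (mon w : R K) = if w.length = n then mon w else 0 := by
  classical
  ext v
  simp only [hc, mon, LinearMap.coe_mk, AddHom.coe_mk, coeff_single]
  rw [Finsupp.filter_apply]
  split_ifs with h1 h2 h2
  · rfl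
  · rw [Finsupp.single_apply, if_neg]
    · rfl
    · rintro rfl; exact h2 h1
  · rw [coeff_single, Finsupp.single_apply, if_neg]
    rintro rfl; exact h1 h2
  · rfl

theorem lin_induction {P : R K → Prop} (a : R K) (h0 : P 0) (hadd : ∀ x y, P x → P y → P (x + y))
    (hm : ∀ (c : K) w, P (c • mon w)) : P a := by
  induction a using MonoidAlgebra.induction_linear with
  | zero => exact h0
  | add x y hx hy => exact hadd x y hx hy
  | single w c =>
    have := hm c w
    simpa [mon] using this

theorem lin_ext {W : Type} [AddCommGroup W] [Module K W] {f g : R K →ₗ[K] W}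
    (h : ∀ w, f (mon w) = g (mon w)) : f = g := by
  ext a
  have := h a
  simpa [mon] using this

/-- homogeneous subspaces -/
noncomputable def Rn (K : Type) [Field K] (n : ℕ) : Submodule K (R K) :=
  Submodule.span K (Set.range fun v : List.Vector (Fin 3) n => (mon (FreeMonoid.ofList v.1) : R K))

theorem mon_mem {n : ℕ} {w : FreeMonoid (Fin 3)} (h : w.length = n) : (mon w : R K) ∈ Rn K n :=
  Submodule.subset_span ⟨⟨FreeMonoid.toList w, h⟩, rfl⟩

theorem mem_Rn_induction {n : ℕ} {P : R K → Prop} {a : R K} (ha : a ∈ Rn K n) (h0 : P 0)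
    (hadd : ∀ x y, P x → P y → P (x + y)) (hs : ∀ (c : K) x, P x → P (c • x))
    (hm : ∀ w : FreeMonoid (Fin 3), w.length = n → P (mon w)) : P a := by
  refine Submodule.span_induction ?_ h0 (fun x y _ _ => hadd x y) (fun c x _ => hs c x) ha
  rintro _ ⟨v, rfl⟩
  exact hm _ v.2

theorem hc_mem (n : ℕ) (a : R K) : hc n a ∈ Rn K n := by
  induction a using lin_induction with
  | h0 => simp
  | hadd x y hx hy => rw [map_add]; exact add_mem hx hy
  | hm c w =>
    rw [map_smul, hc_mon]
    split_ifs with h
    · exact Submodule.smul_mem _ _ (mon_mem h)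
    · simp

theorem mul_mem_Rn {n m : ℕ} {a b : R K} (ha : a ∈ Rn K n) (hb : b ∈ Rn K m) :
    a * b ∈ Rn K (n + m) := by
  refine mem_Rn_induction (P := fun a => a * b ∈ Rn K (n + m)) ha (by simp) ?_ ?_ ?_
  · intro x y hx hy; rw [add_mul]; exact add_mem hx hy
  · intro c x hx; rw [smul_mul_assoc]; exact Submodule.smul_mem _ _ hx
  · intro w hw
    refine mem_Rn_induction (P := fun b => mon w * b ∈ Rn K (n + m)) hb (by simp) ?_ ?_ ?_
    · intro x y hx hy; rw [mul_add]; exact add_mem hx hy
    · intro c x hx; rw [mul_smul_comm]; exact Submodule.smul_mem _ _ hx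
    · intro w' hw'; rw [mon_mul]; exact mon_mem (by simp [hw, hw'])

theorem hc_of_mem {n : ℕ} {a : R K} (ha : a ∈ Rn K n) (m : ℕ) : hc m a = if m = n then a else 0 := by
  refine mem_Rn_induction (P := fun a => hc m a = if m = n then a else 0) ha (by simp) ?_ ?_ ?_
  · intro x y hx hy; rw [map_add, hx, hy]; split_ifs <;> simp
  · intro c x hx; rw [map_smul, hx]; split_ifs <;> simp
  · intro w hw; rw [hc_mon, hw]; simp only [eq_comm]

theorem linind (n : ℕ) : LinearIndependent K
    (fun v : List.Vector (Fin 3) n => (mon (FreeMonoid.ofList v.1) : R K)) := by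
  have h1 := (MonoidAlgebra.basis (FreeMonoid (Fin 3)) K).linearIndependent
  have h2 : Function.Injective fun v : List.Vector (Fin 3) n => FreeMonoid.ofList v.1 :=
    fun v w h => Subtype.ext h
  have := h1.comp _ h2
  convert this using 1
  funext v
  simp [mon, MonoidAlgebra.basis]

theorem finrank_Rn (n : ℕ) : Module.finrank K (Rn K n) = 3 ^ n := by
  rw [Rn, finrank_span_eq_card (linind n)]
  simp

instance (n : ℕ) : FiniteDimensional K (Rn K n) := by
  unfold Rn
  exact FiniteDimensional.span_of_finite K (Set.finite_range _)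

theorem decomp_right {n : ℕ} {a : R K} (ha : a ∈ Rn K (n + 1)) :
    ∃ b : Fin 3 → R K, (∀ i, b i ∈ Rn K n) ∧ a = ∑ i, b i * X i := by
  refine mem_Rn_induction (P := fun a => ∃ b : Fin 3 → R K, (∀ i, b i ∈ Rn K n) ∧
    a = ∑ i, b i * X i) ha ⟨0, fun i => by simp, by simp⟩ ?_ ?_ ?_
  · rintro x y ⟨b, hb, rfl⟩ ⟨c, hc, rfl⟩
    exact ⟨b + c, fun i => add_mem (hb i) (hc i), by simp [add_mul, Finset.sum_add_distrib]⟩
  · rintro c x ⟨b, hb, rfl⟩
    exact ⟨c • b, fun i => Submodule.smul_mem _ _ (hb i), by simp [Finset.smul_sum]⟩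
  · intro w hw
    obtain ⟨l, rfl⟩ : ∃ l : List (Fin 3), FreeMonoid.ofList l = w := ⟨FreeMonoid.toList w, rfl⟩
    have hlen : l.length = n + 1 := hw
    have hne : l ≠ [] := by rintro rfl; simp at hlen
    classical
    refine ⟨fun i => if i = l.getLast hne then mon (FreeMonoid.ofList l.dropLast) else 0, ?_, ?_⟩
    · intro i
      dsimp only
      split_ifs
      · apply mon_mem
        change l.dropLast.length = n
        simp [hlen]
      · simp
    · simp only [ite_mul, zero_mul, Finset.sum_ite_eq', Finset.mem_univ, if_true]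
      rw [X, mon_mul]
      congr 1
      change l = l.dropLast ++ [l.getLast hne]
      exact (List.dropLast_append_getLast hne).symm

end Pool.Agent.H2.GS
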