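import Pool.Agent.H2.GS1

set_option autoImplicit false
set_option linter.unusedSectionVars false

namespace Pool.Agent.H2.GS

open MonoidAlgebra

variable {K : Type} [Field K]

/-- elements supported in words of length `≥ m`. -/
noncomputable def Ord (K : Type) [Field K] (m : ℕ) : Submodule K (R K) :=
  Submodule.span K {a | ∃ w : FreeMonoid (Fin 3), m ≤ w.length ∧ a = mon w}

theorem Ord_mul {m n : ℕ} {a b : R K} (ha : a ∈ Ord K m) (hb : b ∈ Ord K n) :
    a * b ∈ Ord K (m + n) := by
  refine Submodule.span_induction ?_ (by simp) ?_ ?_ ha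
  · rintro _ ⟨w, hw, rfl⟩
    refine Submodule.span_induction ?_ (by simp) ?_ ?_ hb
    · rintro _ ⟨w', hw', rfl⟩
      exact Submodule.subset_span ⟨w * w', by rw [FreeMonoid.length_mul]; omega, mon_mul _ _⟩
    · intro x y _ _ hx hy; rw [mul_add]; exact add_mem hx hy
    · intro c x _ hx; rw [mul_smul_comm]; exact Submodule.smul_mem _ _ hx
  · intro x y _ _ hx hy; rw [add_mul]; exact add_mem hx hy
  · intro c x _ hx; rw [smul_mul_assoc]; exact Submodule.smul_mem _ _ hx

theorem one_mem_Ord : (1 : R K) ∈ Ord K 0 := Submodule.subset_span ⟨1, by simp, rfl⟩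

theorem Ord_pow {a : R K} (ha : a ∈ Ord K 1) (m : ℕ) : a ^ m ∈ Ord K m := by
  induction m with
  | zero => rw [pow_zero]; exact one_mem_Ord
  | succ m ih => rw [pow_succ]; exact Ord_mul ih ha

theorem hc_Ord {m n : ℕ} (h : n < m) {a : R K} (ha : a ∈ Ord K m) : hc n a = 0 := by
  refine Submodule.span_induction ?_ (by simp) ?_ ?_ ha
  · rintro _ ⟨w, hw, rfl⟩
    rw [hc_mon, if_neg (by omega)]
  · intro x y _ _ hx hy; rw [map_add, hx, hy, add_zero]
  · intro c x _ hx; rw [map_smul, hx, smul_zero]

theorem X_mem_Ord (i : Fin 3) : (X i : R K) ∈ Ord K 1 :=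
  Submodule.subset_span ⟨FreeMonoid.of i, by simp, rfl⟩

variable (u : ℕ → R K)

noncomputable def rel (k j : ℕ) : R K := hc j (u k ^ (k + 3))

def F (N : ℕ) : Finset (ℕ × ℕ) :=
  ((Finset.range (N + 1)) ×ˢ (Finset.range (N + 1))).filter (fun p => p.2 + 3 ≤ p.1)

theorem mem_F {N : ℕ} {p : ℕ × ℕ} : p ∈ F N ↔ p.1 ≤ N ∧ p.2 + 3 ≤ p.1 := by
  simp only [F, Finset.mem_filter, Finset.mem_product, Finset.mem_range]
  omega

noncomputable def In : ℕ → Submodule K (R K)
  | 0 => ⊥
  | n + 1 => (⨆ i : Fin 3, (In n).map (LinearMap.mulRight K (X i))) ⊔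
      (F (n + 1)).sup fun p => (Rn K (n + 1 - p.1)).map (LinearMap.mulRight K (rel u p.2 p.1))

theorem In_succ_le {n : ℕ} {S : Submodule K (R K)} (h1 : ∀ a ∈ In u n, ∀ i, a * X i ∈ S)
    (h2 : ∀ p ∈ F (n + 1), ∀ b ∈ Rn K (n + 1 - p.1), b * rel u p.2 p.1 ∈ S) : In u (n + 1) ≤ S := by
  rw [In]
  apply sup_le
  · apply iSup_le
    intro i
    rw [Submodule.map_le_iff_le_comap]
    intro a ha
    exact h1 a ha i
  · apply Finset.sup_le
    intro p hp
    rw [Submodule.map_le_iff_le_comap]
    intro a ha
    exact h2 p hp a ha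

theorem mul_X_mem {n : ℕ} {a : R K} (ha : a ∈ In u n) (i : Fin 3) : a * X i ∈ In u (n + 1) := by
  rw [In]
  apply Submodule.mem_sup_left
  apply Submodule.mem_iSup_of_mem i
  exact ⟨a, ha, rfl⟩

theorem mul_rel_mem {n j k : ℕ} (hk : k + 3 ≤ j) {b : R K} (hb : b ∈ Rn K n) :
    b * rel u k j ∈ In u (n + j) := by
  obtain ⟨m, hm⟩ : ∃ m, n + j = m + 1 := ⟨n + j - 1, by omega⟩
  rw [hm, In]
  apply Submodule.mem_sup_right
  have h1 : ((j, k) : ℕ × ℕ) ∈ F (m + 1) := by rw [mem_F]; simp only; omega
  apply Finset.le_sup (f := fun p : ℕ × ℕ =>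
    (Rn K (m + 1 - p.1)).map (LinearMap.mulRight K (rel u p.2 p.1))) h1
  refine ⟨b, ?_, rfl⟩
  have : m + 1 - (j, k).1 = n := by simp only; omega
  rw [this]; exact hb

theorem rel_mem_Rn (k j : ℕ) : rel u k j ∈ Rn K j := hc_mem _ _

theorem one_mem_Rn : (1 : R K) ∈ Rn K 0 := mon_mem (w := 1) (by simp)

theorem In_le_Rn (n : ℕ) : In u n ≤ Rn K n := by
  induction n with
  | zero => rw [In]; exact bot_le
  | succ n ih =>
    apply In_succ_le
    · intro a ha i
      exact mul_mem_Rn (ih ha) (mon_mem (by simp))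
    · intro p hp b hb
      rw [mem_F] at hp
      have := mul_mem_Rn hb (rel_mem_Rn u p.2 p.1)
      rwa [Nat.sub_add_cancel hp.1] at this

theorem X_mul_mem {n : ℕ} {a : R K} (ha : a ∈ In u n) (i : Fin 3) : X i * a ∈ In u (n + 1) := by
  induction n generalizing a with
  | zero =>
    rw [In, Submodule.mem_bot] at ha
    subst ha; simp
  | succ n ih =>
    have : In u (n + 1) ≤ (In u (n + 2)).comap (LinearMap.mulLeft K (X i)) := by
      apply In_succ_le
      · intro b hb l
        change X i * (b * X l) ∈ In u (n + 2)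
        rw [← mul_assoc]
        exact mul_X_mem u (ih hb) l
      · intro p hp b hb
        change X i * (b * rel u p.2 p.1) ∈ In u (n + 2)
        rw [← mul_assoc]
        rw [mem_F] at hp
        have hb' : X i * b ∈ Rn K (1 + (n + 1 - p.1)) := mul_mem_Rn (mon_mem (by simp)) hb
        have := mul_rel_mem u hp.2 hb'
        have e : 1 + (n + 1 - p.1) + p.1 = n + 2 := by omega
        rwa [e] at this
    exact this ha

theorem mul_mon_mem {n : ℕ} {a : R K} (ha : a ∈ In u n) (w : FreeMonoid (Fin 3)) :
    a * mon w ∈ In u (n + w.length) := by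
  induction w using FreeMonoid.recOn generalizing n a with
  | one => simpa [mon_one] using ha
  | of_mul i w ih =>
    rw [← mon_mul, ← mul_assoc]
    have := ih (mul_X_mem u ha i)
    rw [FreeMonoid.length_mul, FreeMonoid.length_of, ← add_assoc]
    exact this

theorem mul_Rn_mem {n m : ℕ} {a b : R K} (ha : a ∈ In u n) (hb : b ∈ Rn K m) :
    a * b ∈ In u (n + m) := by
  refine mem_Rn_induction (P := fun b => a * b ∈ In u (n + m)) hb (by simp) ?_ ?_ ?_
  · intro x y hx hy; rw [mul_add]; exact add_mem hx hy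
  · intro c x hx; rw [mul_smul_comm]; exact Submodule.smul_mem _ _ hx
  · intro w hw; rw [← hw]; exact mul_mon_mem u ha w

/-- the two-sided ideal, as a subspace -/
noncomputable def II : Submodule K (R K) where
  carrier := {a | ∀ n, hc n a ∈ In u n}
  add_mem' := by intro a b ha hb n; rw [map_add]; exact add_mem (ha n) (hb n)
  zero_mem' := by intro n; simp
  smul_mem' := by intro c a ha n; rw [map_smul]; exact Submodule.smul_mem _ _ (ha n)

theorem hc_mul_X (n : ℕ) (a : R K) (i : Fin 3) : hc (n + 1) (a * X i) = hc n a * X i := by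
  induction a using lin_induction with
  | h0 => simp
  | hadd x y hx hy => rw [add_mul, map_add, hx, hy, map_add, add_mul]
  | hm c w =>
    rw [smul_mul_assoc, map_smul, map_smul, smul_mul_assoc, X, mon_mul, hc_mon, hc_mon]
    by_cases h : w.length = n
    · rw [if_pos (by simp [h]), if_pos h, mon_mul]
    · rw [if_neg (by simp [h]), if_neg h, zero_mul]

theorem hc_zero_mul_X (a : R K) (i : Fin 3) : hc 0 (a * X i) = 0 := by
  induction a using lin_induction with
  | h0 => simp
  | hadd x y hx hy => rw [add_mul, map_add, hx, hy, add_zero]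
  | hm c w => rw [smul_mul_assoc, map_smul, X, mon_mul, hc_mon, if_neg (by simp), smul_zero]

theorem hc_X_mul (n : ℕ) (a : R K) (i : Fin 3) : hc (n + 1) (X i * a) = X i * hc n a := by
  induction a using lin_induction with
  | h0 => simp
  | hadd x y hx hy => rw [mul_add, map_add, hx, hy, map_add, mul_add]
  | hm c w =>
    rw [mul_smul_comm, map_smul, map_smul, mul_smul_comm, X, mon_mul, hc_mon, hc_mon]
    by_cases h : w.length = n
    · rw [if_pos (by simp [h, add_comm]), if_pos h, mon_mul]
    · rw [if_neg (by simp; omega), if_neg h, mul_zero]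

theorem hc_zero_X_mul (a : R K) (i : Fin 3) : hc 0 (X i * a) = 0 := by
  induction a using lin_induction with
  | h0 => simp
  | hadd x y hx hy => rw [mul_add, map_add, hx, hy, add_zero]
  | hm c w => rw [mul_smul_comm, map_smul, X, mon_mul, hc_mon, if_neg (by simp), smul_zero]

theorem II_mul_X {a : R K} (ha : a ∈ II u) (i : Fin 3) : a * X i ∈ II u := by
  rintro (_ | n)
  · rw [hc_zero_mul_X]; simp
  · rw [hc_mul_X]; exact mul_X_mem u (ha n) i

theorem II_X_mul {a : R K} (ha : a ∈ II u) (i : Fin 3) : X i * a ∈ II u := by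
  rintro (_ | n)
  · rw [hc_zero_X_mul]; simp
  · rw [hc_X_mul]; exact X_mul_mem u (ha n) i

theorem II_mul {a : R K} (ha : a ∈ II u) (b : R K) : a * b ∈ II u := by
  induction b using lin_induction with
  | h0 => simp
  | hadd x y hx hy => rw [mul_add]; exact add_mem hx hy
  | hm c w =>
    rw [mul_smul_comm]
    apply Submodule.smul_mem
    induction w using FreeMonoid.recOn generalizing a with
    | one => simpa [mon_one] using ha
    | of_mul i w ih =>
      rw [← mon_mul, ← mul_assoc]
      exact ih (II_mul_X u ha i)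

theorem mul_II {a : R K} (ha : a ∈ II u) (b : R K) : b * a ∈ II u := by
  induction b using lin_induction with
  | h0 => simp
  | hadd x y hx hy => rw [add_mul]; exact add_mem hx hy
  | hm c w =>
    rw [smul_mul_assoc]
    apply Submodule.smul_mem
    induction w using FreeMonoid.recOn with
    | one => simpa [mon_one] using ha
    | of_mul i w ih =>
      rw [← mon_mul, mul_assoc]
      exact II_X_mul u ih i

theorem pow_mem_II (hu : ∀ k, u k ∈ Ord K 1) (k : ℕ) : u k ^ (k + 3) ∈ II u := by
  intro n
  by_cases h : k + 3 ≤ n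
  · have := mul_rel_mem u h one_mem_Rn
    rw [one_mul, zero_add] at this
    exact this
  · rw [hc_Ord (by omega) (Ord_pow (hu k) (k + 3))]
    simp

theorem mon_mem_In {w : FreeMonoid (Fin 3)} (h : mon w ∈ II u) : mon w ∈ In u w.length := by
  have := h w.length
  rwa [hc_mon, if_pos rfl] at this

/-! ### the dimension inequality -/

instance (n : ℕ) : FiniteDimensional K (In u n) :=
  Submodule.finiteDimensional_of_le (In_le_Rn u n)

theorem finrank_In_le (n : ℕ) : Module.finrank K (In u n) ≤ 3 ^ n := by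
  rw [← finrank_Rn (K := K) n]
  exact Submodule.finrank_mono (In_le_Rn u n)

theorem finrank_finset_sup_le {ι : Type} (s : Finset ι) (f : ι → Submodule K (R K))
    (hf : ∀ i ∈ s, FiniteDimensional K (f i)) (g : ι → ℕ) (hg : ∀ i ∈ s, Module.finrank K (f i) ≤ g i) :
    FiniteDimensional K (s.sup f : Submodule K (R K)) ∧
    Module.finrank K (s.sup f : Submodule K (R K)) ≤ ∑ i ∈ s, g i := by
  classical
  induction s using Finset.induction_on with
  | empty =>
    rw [Finset.sup_empty, Finset.sum_empty, finrank_bot]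
    exact ⟨inferInstance, le_rfl⟩
  | insert i s hi ih =>
    rw [Finset.sup_insert, Finset.sum_insert hi]
    obtain ⟨h1, h2⟩ := ih (fun j hj => hf j (by simp [hj])) (fun j hj => hg j (by simp [hj]))
    have h3 := hf i (by simp)
    have h4 := hg i (by simp)
    refine ⟨Submodule.finiteDimensional_sup _ _, ?_⟩
    have := Submodule.finrank_add_le_finrank_add_finrank (f i) (s.sup f)
    omega

theorem finrank_ineq (n : ℕ) : Module.finrank K (In u (n + 1)) ≤ 3 * Module.finrank K (In u n) +
    ∑ p ∈ F (n + 1), (3 ^ (n + 1 - p.1) - Module.finrank K (In u (n + 1 - p.1))) := by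
  classical
  -- complements
  have hS : ∀ m, ∃ S : Submodule K (R K), In u m ⊔ S = Rn K m ∧ FiniteDimensional K S ∧
      Module.finrank K S ≤ 3 ^ m - Module.finrank K (In u m) := by
    intro m
    obtain ⟨T, hT⟩ := Submodule.exists_isCompl ((In u m).comap (Rn K m).subtype)
    refine ⟨T.map (Rn K m).subtype, ?_, inferInstance, ?_⟩
    · have h1 : ((In u m).comap (Rn K m).subtype).map (Rn K m).subtype = In u m := by
        rw [Submodule.map_comap_subtype]
        exact inf_eq_right.2 (In_le_Rn u m)
      rw [← h1, ← Submodule.map_sup, hT.sup_eq_top, Submodule.map_subtype_top]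
    · have h2 := Submodule.finrank_add_eq_of_isCompl hT
      rw [finrank_Rn] at h2
      have h3 : Module.finrank K ((In u m).comap (Rn K m).subtype) = Module.finrank K (In u m) :=
        (Submodule.comapSubtypeEquivOfLe (In_le_Rn u m)).finrank_eq
      have h4 : Module.finrank K (T.map (Rn K m).subtype) ≤ Module.finrank K T :=
        Submodule.finrank_map_le _ _
      omega
  choose S hS1 hS2 hS3 using hS
  let J : Submodule K (R K) := (Finset.univ : Finset (Fin 3)).sup fun i =>
    (In u n).map (LinearMap.mulRight K (X i))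
  let T : Submodule K (R K) := (F (n + 1)).sup fun p =>
    (S (n + 1 - p.1)).map (LinearMap.mulRight K (rel u p.2 p.1))
  have hJ : ∀ a ∈ In u n, ∀ i, a * X i ∈ J := by
    intro a ha i
    exact Finset.le_sup (f := fun i => (In u n).map (LinearMap.mulRight K (X i)))
      (Finset.mem_univ i) ⟨a, ha, rfl⟩
  have hle : In u (n + 1) ≤ J ⊔ T := by
    apply In_succ_le
    · intro a ha i
      exact Submodule.mem_sup_left (hJ a ha i)
    · intro p hp b hb
      rw [← hS1] at hb
      obtain ⟨c, hc, d, hd, rfl⟩ := Submodule.mem_sup.1 hb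
      rw [add_mul]
      apply add_mem
      · apply Submodule.mem_sup_left
        rw [mem_F] at hp
        obtain ⟨j, hj⟩ : ∃ j, p.1 = j + 1 := ⟨p.1 - 1, by omega⟩
        have h5 := rel_mem_Rn u p.2 p.1
        rw [hj] at h5
        obtain ⟨g, hg, hg2⟩ := decomp_right h5
        rw [hj, hg2, Finset.mul_sum]
        apply sum_mem
        intro i _
        rw [← mul_assoc]
        apply hJ
        have := mul_Rn_mem u hc (hg i)
        have e : n + 1 - p.1 + j = n := by omega
        rwa [e] at this
      · apply Submodule.mem_sup_right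
        exact Finset.le_sup (f := fun p : ℕ × ℕ =>
          (S (n + 1 - p.1)).map (LinearMap.mulRight K (rel u p.2 p.1))) hp ⟨d, hd, rfl⟩
  have h6 := finrank_finset_sup_le (Finset.univ : Finset (Fin 3))
    (fun i => (In u n).map (LinearMap.mulRight K (X i)))
    (fun i _ => inferInstance) (fun _ => Module.finrank K (In u n))
    (fun i _ => Submodule.finrank_map_le _ _)
  have h7 := finrank_finset_sup_le (F (n + 1))
    (fun p => (S (n + 1 - p.1)).map (LinearMap.mulRight K (rel u p.2 p.1)))
    (fun p _ => by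
      have := hS2 (n + 1 - p.1)
      infer_instance)
    (fun p => 3 ^ (n + 1 - p.1) - Module.finrank K (In u (n + 1 - p.1)))
    (fun p _ => by
      have := hS2 (n + 1 - p.1)
      exact (Submodule.finrank_map_le _ _).trans (hS3 _))
  have i1 : FiniteDimensional K J := h6.1
  have i2 : FiniteDimensional K T := h7.1
  have i3 : FiniteDimensional K (J ⊔ T : Submodule K (R K)) := Submodule.finiteDimensional_sup _ _
  have h8 := Submodule.finrank_mono hle
  have h9 := Submodule.finrank_add_le_finrank_add_finrank J T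
  have h10 : Module.finrank K J ≤ 3 * Module.finrank K (In u n) := by
    have := h6.2
    simpa using this
  have h11 : Module.finrank K T ≤ ∑ p ∈ F (n + 1), (3 ^ (n + 1 - p.1) -
    Module.finrank K (In u (n + 1 - p.1))) := h7.2
  omega

/-- codimensions -/
noncomputable def sn (n : ℕ) : ℕ := 3 ^ n - Module.finrank K (In u n)

theorem sn_zero : sn u 0 = 1 := by
  rw [sn, In, finrank_bot]; rfl

theorem sn_ineq (n : ℕ) : 3 * sn u n ≤ sn u (n + 1) + ∑ p ∈ F (n + 1), sn u (n + 1 - p.1) := by
  have h1 := finrank_ineq u n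
  have h2 := finrank_In_le u n
  have h3 := finrank_In_le u (n + 1)
  unfold sn
  rw [pow_succ] at *
  omega

theorem sum_F (N : ℕ) (g : ℕ → ℝ) : ∑ p ∈ F N, g p.1 = ∑ j ∈ Finset.range (N + 1), ((j - 2 : ℕ) : ℝ) * g j := by
  rw [F, Finset.sum_filter, Finset.sum_product]
  refine Finset.sum_congr rfl fun j hj => ?_
  rw [Finset.mem_range] at hj
  simp only
  rw [← Finset.sum_filter, Finset.sum_const, nsmul_eq_mul]
  congr 2
  have : (Finset.range (N + 1)).filter (fun k => k + 3 ≤ j) = Finset.range (j - 2) := by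
    ext k; simp only [Finset.mem_filter, Finset.mem_range]; omega
  rw [this, Finset.card_range]

theorem sum_aux (N : ℕ) : ∑ j ∈ Finset.range (N + 1), ((j - 2 : ℕ) : ℝ) * (2 / 2 ^ j) ≤ 1 := by
  have h : ∀ N : ℕ, ∑ j ∈ Finset.range (N + 2 + 1), ((j - 2 : ℕ) : ℝ) * (2 / 2 ^ j) =
      1 - (N + 2) / 2 ^ (N + 1) := by
    intro N
    induction N with
    | zero => norm_num [Finset.sum_range_succ]
    | succ N ih =>
      rw [Finset.sum_range_succ, show N + 1 + 2 = N + 2 + 1 from rfl, ih]
      have : ((N + 2 + 1 - 2 : ℕ) : ℝ) = N + 1 := by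
        rw [show N + 2 + 1 - 2 = N + 1 from rfl]; push_cast; ring
      rw [this]
      push_cast
      field_simp
      ring
  rcases Nat.lt_or_ge N 2 with h1 | h1
  · interval_cases N <;> norm_num [Finset.sum_range_succ]
  · obtain ⟨m, rfl⟩ : ∃ m, N = m + 2 := ⟨N - 2, by omega⟩
    rw [h]
    have : (0:ℝ) ≤ (m + 2) / 2 ^ (m + 1) := by positivity
    linarith

theorem sn_grow (n : ℕ) : 0 < sn u n ∧ (2 : ℝ) * sn u n ≤ sn u (n + 1) := by
  induction n using Nat.strong_induction_on with
  | _ n ih =>
    -- s_m ≤ s_n / 2^(n-m) for m ≤ n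
    have h1 : ∀ d m, m + d = n → (sn u m : ℝ) * 2 ^ d ≤ sn u n := by
      intro d
      induction d with
      | zero => intro m hm; simp at hm; subst hm; simp
      | succ d ih2 =>
        intro m hm
        have h3 := (ih m (by omega)).2
        have h4 := ih2 (m + 1) (by omega)
        rw [pow_succ]
        have : (0:ℝ) < 2 ^ d := by positivity
        nlinarith
    have hpos : 0 < sn u n := by
      rcases Nat.eq_zero_or_pos n with h | h
      · subst h; rw [sn_zero]; norm_num
      · have h5 := ih (n - 1) (by omega)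
        have h6 : n - 1 + 1 = n := by omega
        rw [h6] at h5
        have h7 : (0:ℝ) < sn u (n - 1) := by exact_mod_cast h5.1
        have : (0:ℝ) < sn u n := by linarith [h5.2]
        exact_mod_cast this
    refine ⟨hpos, ?_⟩
    have h8 : (3:ℝ) * sn u n ≤ sn u (n + 1) + ∑ p ∈ F (n + 1), (sn u (n + 1 - p.1) : ℝ) := by
      exact_mod_cast sn_ineq u n
    have h9 : ∑ p ∈ F (n + 1), (sn u (n + 1 - p.1) : ℝ) ≤ sn u n := by
      calc ∑ p ∈ F (n + 1), (sn u (n + 1 - p.1) : ℝ)
          ≤ ∑ p ∈ F (n + 1), (sn u n : ℝ) * (2 / 2 ^ p.1) := by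
            refine Finset.sum_le_sum fun p hp => ?_
            rw [mem_F] at hp
            have h10 := h1 (p.1 - 1) (n + 1 - p.1) (by omega)
            have h11 : (2:ℝ) ^ p.1 = 2 ^ (p.1 - 1) * 2 := by
              rw [← pow_succ]; congr 1; omega
            rw [h11]
            have h12 : (0:ℝ) < 2 ^ (p.1 - 1) := by positivity
            rw [show (sn u n : ℝ) * (2 / (2 ^ (p.1 - 1) * 2)) = sn u n / 2 ^ (p.1 - 1) by field_simp]
            rw [le_div_iff₀ h12]
            exact h10
        _ = ∑ j ∈ Finset.range (n + 1 + 1), ((j - 2 : ℕ) : ℝ) * ((sn u n : ℝ) * (2 / 2 ^ j)) :=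
            sum_F (n + 1) (fun j => (sn u n : ℝ) * (2 / 2 ^ j))
        _ = sn u n * ∑ j ∈ Finset.range (n + 1 + 1), ((j - 2 : ℕ) : ℝ) * (2 / 2 ^ j) := by
            rw [Finset.mul_sum]; exact Finset.sum_congr rfl fun j _ => by ring
        _ ≤ sn u n * 1 := by
            apply mul_le_mul_of_nonneg_left (sum_aux (n + 1)) (Nat.cast_nonneg _)
        _ = sn u n := mul_one _
    linarith

theorem exists_mon (n : ℕ) : ∃ w : FreeMonoid (Fin 3), w.length = n ∧ mon w ∉ II u := by
  by_contra hcon
  push Not at hcon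
  have h1 : Rn K n ≤ In u n := by
    rw [Rn, Submodule.span_le]
    rintro _ ⟨v, rfl⟩
    have h2 : (FreeMonoid.ofList v.1).length = n := v.2
    have h3 := mon_mem_In u (hcon _ h2)
    rwa [h2] at h3
  have h2 := Submodule.finrank_mono h1
  rw [finrank_Rn] at h2
  have h3 := (sn_grow u n).1
  unfold sn at h3
  omega

/-- Golod–Shafarevich: a two-sided ideal `I` such that the augmentation ideal is nil modulo `I`,
and there are words `w n` linearly independent modulo `I`. -/
theorem golod [Countable K] : ∃ I : Submodule K (R K), (∀ a ∈ I, ∀ b, a * b ∈ I ∧ b * a ∈ I) ∧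
    (∀ a ∈ Ord K 1, ∃ k, a ^ k ∈ I) ∧
    ∃ w : ℕ → FreeMonoid (Fin 3), LinearIndependent K (fun n => I.mkQ (mon (w n))) := by
  have hc1 : Countable (R K) := (MonoidAlgebra.coeffEquiv).injective.countable
  obtain ⟨u, hu⟩ : ∃ u : ℕ → Ord K 1, Function.Surjective u := exists_surjective_nat _
  refine ⟨II (fun k => (u k : R K)), fun a ha b => ⟨II_mul _ ha b, mul_II _ ha b⟩, ?_, ?_⟩
  · intro a ha
    obtain ⟨k, hk⟩ := hu ⟨a, ha⟩
    refine ⟨k + 3, ?_⟩
    have := pow_mem_II (fun k => (u k : R K)) (fun k => (u k).2) k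
    simp only [hk] at this
    exact this
  · choose w hw1 hw2 using exists_mon (fun k => (u k : R K))
    refine ⟨w, ?_⟩
    rw [linearIndependent_iff']
    intro s g hg n hn
    by_contra hne
    apply hw2 n
    have h1 : (∑ i ∈ s, g i • (mon (w i) : R K)) ∈ II (fun k => (u k : R K)) := by
      rw [← Submodule.ker_mkQ (II (fun k => (u k : R K))), LinearMap.mem_ker, map_sum, ← hg]
      exact Finset.sum_congr rfl fun i _ => map_smul _ _ _
    have h2 := h1 n
    rw [map_sum, Finset.sum_eq_single n] at h2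
    · rw [map_smul, hc_mon, if_pos (hw1 n)] at h2
      have h3 : mon (w n) ∈ In (fun k => (u k : R K)) n := by
        have := Submodule.smul_mem _ (g n)⁻¹ h2
        rwa [smul_smul, inv_mul_cancel₀ hne, one_smul] at this
      intro m
      rw [hc_mon, hw1]
      split_ifs with h4
      · rw [← h4]; exact h3
      · simp
    · intro i _ hi
      rw [map_smul, hc_mon, hw1, if_neg hi, smul_zero]
    · intro hn'; exact absurd hn hn'

end Pool.Agent.H2.GS
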