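import Pool.Agent.H2.GS2

set_option autoImplicit false
set_option linter.unusedSectionVars false

namespace Pool.Agent.H2.GS

open scoped TensorProduct

section FR

variable {C : Type} [CommRing C] {M : Type} [AddCommGroup M] [Module C M]

/-- finite rank operators with nilpotent coefficients -/
def FR (T : Module.End C M) : Prop := ∃ l : List (Module.Dual C M × M),
  (∀ p ∈ l, ∀ v, IsNilpotent (p.1 v)) ∧ T = (l.map fun p => p.1.smulRight p.2).sum

theorem FR_zero : FR (0 : Module.End C M) := ⟨[], by simp, by simp⟩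

theorem FR_add {S T : Module.End C M} (hS : FR S) (hT : FR T) : FR (S + T) := by
  obtain ⟨l, hl, rfl⟩ := hS
  obtain ⟨l', hl', rfl⟩ := hT
  refine ⟨l ++ l', ?_, by simp⟩
  intro p hp
  rcases List.mem_append.1 hp with h | h
  · exact hl p h
  · exact hl' p h

theorem FR_mul_left (S : Module.End C M) {T : Module.End C M} (hT : FR T) : FR (S * T) := by
  obtain ⟨l, hl, rfl⟩ := hT
  refine ⟨l.map fun p => (p.1, S p.2), ?_, ?_⟩
  · intro p hp
    obtain ⟨q, hq, rfl⟩ := List.mem_map.1 hp
    exact hl q hq
  · rw [List.map_map]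
    clear hl
    induction l with
    | nil => simp
    | cons p l ih =>
      rw [List.map_cons, List.map_cons, List.sum_cons, List.sum_cons, mul_add, ih]
      congr 1
      ext v
      simp

theorem FR_mul_right (S : Module.End C M) {T : Module.End C M} (hT : FR T) : FR (T * S) := by
  obtain ⟨l, hl, rfl⟩ := hT
  refine ⟨l.map fun p => (p.1.comp S, p.2), ?_, ?_⟩
  · intro p hp
    obtain ⟨q, hq, rfl⟩ := List.mem_map.1 hp
    intro v
    exact hl q hq _
  · rw [List.map_map]
    clear hl
    induction l with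
    | nil => simp
    | cons p l ih =>
      rw [List.map_cons, List.map_cons, List.sum_cons, List.sum_cons, add_mul, ih]
      congr 1

theorem FR_nilpotent {T : Module.End C M} (hT : FR T) : IsNilpotent T := by
  classical
  obtain ⟨l, hl, hT⟩ := hT
  let sc : Finset C := ((l.product l).map fun q => q.1.1 q.2.2).toFinset
  let a : Ideal C := Ideal.span (sc : Set C)
  have ha : a ≤ nilradical C := by
    rw [Ideal.span_le]
    intro x hx
    simp only [sc, List.coe_toFinset, List.mem_map, Set.mem_ofPred_eq] at hx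
    obtain ⟨⟨p, q⟩, hpq, rfl⟩ := hx
    exact hl p (List.mem_product.1 hpq).1 _
  obtain ⟨s, hs⟩ := (Ideal.FG.isNilpotent_iff_le_nilradical (I := a) ⟨sc, rfl⟩).2 ha
  let E : Submodule C M := Submodule.span C {x | ∃ p ∈ l, x = p.2}
  have hTapp : ∀ v, T v = (l.map fun p => p.1 v • p.2).sum := by
    intro v
    rw [hT]
    clear hT hl sc a ha hs E
    induction l with
    | nil => simp
    | cons p l ih =>
      rw [List.map_cons, List.map_cons, List.sum_cons, List.sum_cons, LinearMap.add_apply]
      congr 1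
  have hE : ∀ v, T v ∈ E := by
    intro v
    rw [hTapp]
    apply list_sum_mem
    intro x hx
    obtain ⟨p, hp, rfl⟩ := List.mem_map.1 hx
    exact E.smul_mem _ (Submodule.subset_span ⟨p, hp, rfl⟩)
  have hE2 : ∀ v ∈ E, T v ∈ a • E := by
    intro v hv
    refine Submodule.span_induction ?_ (by simp) ?_ ?_ hv
    · rintro _ ⟨q, hq, rfl⟩
      rw [hTapp]
      apply list_sum_mem
      intro x hx
      obtain ⟨p, hp, rfl⟩ := List.mem_map.1 hx
      apply Submodule.smul_mem_smul
      · apply Ideal.subset_span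
        simp only [sc, List.coe_toFinset, List.mem_map, Set.mem_ofPred_eq]
        exact ⟨(p, q), List.mem_product.2 ⟨hp, hq⟩, rfl⟩
      · exact Submodule.subset_span ⟨p, hp, rfl⟩
    · intro x y _ _ hx hy; rw [map_add]; exact add_mem hx hy
    · intro c x _ hx; rw [map_smul]; exact Submodule.smul_mem _ _ hx
  have hk : ∀ k v, (T ^ (k + 1)) v ∈ a ^ k • E := by
    intro k
    induction k with
    | zero => intro v; simpa using hE v
    | succ k ih =>
      intro v
      rw [pow_succ' T (k + 1), Module.End.mul_apply]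
      have h1 := ih v
      refine Submodule.smul_induction_on h1 ?_ ?_
      · intro r hr x hx
        rw [map_smul, pow_succ, Submodule.mul_smul]
        exact Submodule.smul_mem_smul hr (hE2 x hx)
      · intro x y hx hy; rw [map_add]; exact add_mem hx hy
  refine ⟨s + 1, ?_⟩
  ext v
  have := hk s v
  rw [hs] at this
  simpa using this

end FR

/-- evaluation of `c * w` -/
def ev {A : Type} [Mul A] (g : Fin 3 → A) (c : A) (w : FreeMonoid (Fin 3)) : A :=
  (FreeMonoid.toList w).foldl (fun acc i => acc * g i) c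

theorem ev_map {A B : Type} [Mul A] [Mul B] (f : A → B) (hf : ∀ x y, f (x * y) = f x * f y)
    (g : Fin 3 → A) (c : A) (w : FreeMonoid (Fin 3)) : f (ev g c w) = ev (fun i => f (g i)) (f c) w := by
  unfold ev
  generalize FreeMonoid.toList w = l
  induction l generalizing c with
  | nil => rfl
  | cons i l ih => rw [List.foldl_cons, List.foldl_cons, ih, hf]

theorem iter_map {A B : Type} [Mul A] [Mul B] (f : A → B) (hf : ∀ x y, f (x * y) = f x * f y)
    (a : A) (n : ℕ) : f ((fun y => a * y)^[n] a) = (fun y => f a * y)^[n] (f a) := by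
  induction n with
  | zero => rfl
  | succ n ih => rw [Function.iterate_succ_apply', Function.iterate_succ_apply', hf, ih]

theorem iter_eq_pow {A : Type} [Monoid A] (a : A) (n : ℕ) : (fun y => a * y)^[n] a = a ^ (n + 1) := by
  induction n with
  | zero => simp
  | succ n ih => rw [Function.iterate_succ_apply', ih, pow_succ' a (n + 1)]

section Scal

variable {K : Type} [Field K] (m : ℕ → ℕ)

/-- scalars -/
abbrev CC (K : Type) [Field K] (m : ℕ → ℕ) : Type :=
  (j : ℕ) → (Polynomial K ⧸ Ideal.span {(Polynomial.X : Polynomial K) ^ (m j)})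

noncomputable def aa (j : ℕ) : CC K m := Pi.single j (Ideal.Quotient.mk _ Polynomial.X)

theorem aa_nil (j : ℕ) : IsNilpotent (aa (K := K) m j) := by
  refine ⟨m j + 1, ?_⟩
  funext i
  rw [Pi.pow_apply, Pi.zero_apply]
  by_cases h : i = j
  · subst h
    rw [aa, Pi.single_eq_same, ← map_pow, Ideal.Quotient.eq_zero_iff_mem, pow_succ]
    exact Ideal.mul_mem_right _ _ (Ideal.subset_span rfl)
  · rw [aa, Pi.single_eq_of_ne h, zero_pow (by omega)]

theorem aa_ne (j p : ℕ) (hp : p < m j) : (aa (K := K) m j) ^ p ≠ 0 := by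
  intro h
  have h1 := congrFun h j
  rw [Pi.pow_apply, Pi.zero_apply, aa, Pi.single_eq_same, ← map_pow,
    Ideal.Quotient.eq_zero_iff_mem, Ideal.mem_span_singleton] at h1
  have := (pow_dvd_pow_iff (Polynomial.X_ne_zero) Polynomial.not_isUnit_X).1 h1
  omega

end Scal

section Main

variable {K : Type} [Field K] {C : Type} [CommRing C] [Algebra K C]
  {M : Type} [AddCommGroup M] [Module K M] [Module C M] [IsScalarTower K C M]
  (L : R K →ₐ[K] Module.End C M)

/-- the big nil algebra -/
def KK : NonUnitalSubalgebra K (Module.End C M) where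
  carrier := {n | ∃ u ∈ Ord K 1, FR (n - L u)}
  add_mem' := by
    rintro a b ⟨u, hu, hu'⟩ ⟨v, hv, hv'⟩
    refine ⟨u + v, add_mem hu hv, ?_⟩
    rw [map_add]
    have := FR_add hu' hv'
    convert this using 1
    abel
  zero_mem' := ⟨0, by simp, by simpa using FR_zero⟩
  mul_mem' := by
    rintro a b ⟨u, hu, hu'⟩ ⟨v, hv, hv'⟩
    refine ⟨u * v, ?_, ?_⟩
    · have := Ord_mul hu hv
      refine (Submodule.span_mono ?_ : Ord K (1 + 1) ≤ Ord K 1) this
      rintro _ ⟨w, hw, rfl⟩
      exact ⟨w, by omega, rfl⟩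
    · have h1 := FR_mul_left a hv'
      have h2 := FR_mul_right (L v) hu'
      have := FR_add h1 h2
      convert this using 1
      rw [map_mul]
      noncomm_ring
  smul_mem' := by
    rintro c a ⟨u, hu, hu'⟩
    refine ⟨c • u, Submodule.smul_mem _ _ hu, ?_⟩
    have := FR_mul_left (algebraMap K (Module.End C M) c) hu'
    convert this using 1
    rw [map_smul, Algebra.smul_def, Algebra.smul_def, mul_sub]

theorem KK_nil (hnil : ∀ a ∈ Ord K 1, ∃ k, L (a ^ k) = 0)
    {n : Module.End C M} (hn : n ∈ KK L) : IsNilpotent n := by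
  obtain ⟨u, hu, hu'⟩ := hn
  obtain ⟨k, hk⟩ := hnil u hu
  have h1 : ∀ p : ℕ, FR (n ^ p - (L u) ^ p) := by
    intro p
    induction p with
    | zero => simpa using FR_zero
    | succ p ih =>
      have h2 := FR_mul_left (n ^ p) hu'
      have h3 := FR_mul_right (L u) ih
      have := FR_add h2 h3
      convert this using 1
      rw [pow_succ, pow_succ]
      noncomm_ring
  have h2 := h1 k
  rw [← map_pow, hk, sub_zero] at h2
  obtain ⟨q, hq⟩ := FR_nilpotent h2
  exact ⟨k * q, by rw [pow_mul, hq]⟩

theorem cc_mem (Γ : Module.Dual C M) (e : M) (hΓ : ∀ v, IsNilpotent (Γ v)) :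
    (Γ.smulRight e : Module.End C M) ∈ KK L := by
  refine ⟨0, by simp, ?_⟩
  rw [map_zero, sub_zero]
  refine ⟨[(Γ, e)], ?_, by simp⟩
  intro p hp v
  rw [List.mem_singleton] at hp
  subst hp
  exact hΓ v

theorem LX_mem (i : Fin 3) : L (X i) ∈ KK L :=
  ⟨X i, X_mem_Ord i, by simpa using FR_zero⟩

theorem ev_eq (w : FreeMonoid (Fin 3)) (n : Module.End C M) :
    ev (fun i => L (X i)) n w = n * L (mon w) := by
  induction w using FreeMonoid.recOn generalizing n with
  | one => simp [ev, mon_one]
  | of_mul i w ih =>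
    rw [← mon_mul, map_mul, ← mul_assoc]
    have := ih (n * L (X i))
    rw [X] at this
    rw [← this]
    simp [ev, X]

theorem ev_pow (Γ : Module.Dual C M) (e : M) (w : FreeMonoid (Fin 3)) (p : ℕ) :
    ((ev (fun i => L (X i)) (Γ.smulRight e : Module.End C M) w) ^ p) e = (Γ (L (mon w) e)) ^ p • e := by
  rw [ev_eq]
  induction p with
  | zero => simp
  | succ p ih =>
    rw [pow_succ', Module.End.mul_apply, ih, map_smul, Module.End.mul_apply, LinearMap.smulRight_apply,
      smul_smul, pow_succ]

/-- the countable nil algebra -/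
def NN (Γ : Module.Dual C M) (e : M) : NonUnitalSubalgebra K (Module.End C M) :=
  KK L ⊓ (Algebra.adjoin K (Set.range fun i : Option (Fin 3) =>
    i.elim (Γ.smulRight e : Module.End C M) fun i => L (X i))).toNonUnitalSubalgebra

theorem NN_countable [Countable K] (Γ : Module.Dual C M) (e : M) : Countable (NN L Γ e) := by
  have h1 : Countable (FreeAlgebra K (Option (Fin 3))) := by
    have : Countable (MonoidAlgebra K (FreeMonoid (Option (Fin 3)))) :=
      (MonoidAlgebra.coeffEquiv).injective.countable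
    exact (FreeAlgebra.equivMonoidAlgebraFreeMonoid
      (R := K) (X := Option (Fin 3))).injective.countable
  have h2 : Countable (Algebra.adjoin K (Set.range fun i : Option (Fin 3) =>
      i.elim (Γ.smulRight e : Module.End C M) fun i => L (X i))) := by
    rw [Algebra.adjoin_range_eq_range_freeAlgebra_lift]
    exact (AlgHom.rangeRestrict_surjective _).countable
  exact (Set.inclusion_injective (s := (NN L Γ e : Set (Module.End C M)))
    (t := (Algebra.adjoin K (Set.range fun i : Option (Fin 3) =>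
      i.elim (Γ.smulRight e : Module.End C M) fun i => L (X i)) : Set (Module.End C M)))
    (fun x hx => hx.2)).countable

end Main

/-- the general theorem on `NN`. -/
theorem NN_main {K : Type} [Field K] [Countable K] {C : Type} [CommRing C] [Algebra K C]
    {M : Type} [AddCommGroup M] [Module K M] [Module C M] [IsScalarTower K C M]
    (L : R K →ₐ[K] Module.End C M) (hnil : ∀ a ∈ Ord K 1, ∃ k, L (a ^ k) = 0)
    (Γ : Module.Dual C M) (e : M) (hΓ : ∀ v, IsNilpotent (Γ v)) (w : ℕ → FreeMonoid (Fin 3))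
    (m : ℕ → ℕ) (hw : ∀ j p, p < m j → (Γ (L (mon (w j)) e)) ^ p • e ≠ 0) :
    ∃ (N : Type) (_ : NonUnitalRing N) (_ : Module K N) (_ : IsScalarTower K N N)
      (_ : SMulCommClass K N N), Countable N ∧ (∀ x : N, ∃ n, (fun y => x * y)^[n] x = 0) ∧
      ∃ (g : Fin 3 → N) (c : N), ∀ j p, p + 1 < m j →
        (fun y => (ev g c (w j)) * y)^[p] (ev g c (w j)) ≠ 0 := by
  refine ⟨NN L Γ e, inferInstance, inferInstance, inferInstance, inferInstance,
    NN_countable L Γ e, ?_, ?_⟩
  · intro x
    obtain ⟨n, hn⟩ := KK_nil L hnil x.2.1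
    refine ⟨n, ?_⟩
    apply Subtype.ext
    have := iter_map (fun x : NN L Γ e => (x : Module.End C M)) (fun x y => rfl) x n
    refine this.trans ?_
    rw [iter_eq_pow, pow_succ, hn, zero_mul]
    rfl
  · refine ⟨fun i => ⟨L (X i), LX_mem L i, Algebra.subset_adjoin ⟨some i, rfl⟩⟩,
      ⟨Γ.smulRight e, cc_mem L Γ e hΓ, Algebra.subset_adjoin ⟨none, rfl⟩⟩, ?_⟩
    intro j p hp h0
    have h1 := congrArg (fun x : NN L Γ e => (x : Module.End C M)) h0
    have h2 := iter_map (fun x : NN L Γ e => (x : Module.End C M)) (fun x y => rfl)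
      (ev (fun i => (⟨L (X i), LX_mem L i, Algebra.subset_adjoin ⟨some i, rfl⟩⟩ : NN L Γ e))
        ⟨Γ.smulRight e, cc_mem L Γ e hΓ, Algebra.subset_adjoin ⟨none, rfl⟩⟩ (w j)) p
    have h3 := h2.symm.trans h1
    rw [iter_eq_pow] at h3
    have h4 := ev_map (fun x : NN L Γ e => (x : Module.End C M)) (fun x y => rfl)
      (fun i => (⟨L (X i), LX_mem L i, Algebra.subset_adjoin ⟨some i, rfl⟩⟩ : NN L Γ e))
        ⟨Γ.smulRight e, cc_mem L Γ e hΓ, Algebra.subset_adjoin ⟨none, rfl⟩⟩ (w j)
    rw [h4] at h3
    have h5 := ev_pow L Γ e (w j) (p + 1)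
    have h6 := congrArg (fun f : Module.End C M => f e) h3
    refine hw j (p + 1) hp (h5.symm.trans ?_)
    exact h6

end Pool.Agent.H2.GS
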