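import Pool.Agent.H2.GS3

set_option autoImplicit false
set_option linter.unusedSectionVars false

namespace Pool.Agent.H2.GS

open scoped TensorProduct

/-- left multiplications on `R / I` -/
noncomputable def L0 {K : Type} [Field K] (I : Submodule K (R K))
    (hI : ∀ a ∈ I, ∀ b, a * b ∈ I ∧ b * a ∈ I) : R K →ₐ[K] Module.End K (R K ⧸ I) where
  toFun r := I.mapQ I (LinearMap.mulLeft K r) (fun a ha => (hI a ha r).2)
  map_one' := by
    refine LinearMap.ext fun x => ?_
    obtain ⟨x, rfl⟩ := I.mkQ_surjective x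
    simp
  map_mul' r s := by
    refine LinearMap.ext fun x => ?_
    obtain ⟨x, rfl⟩ := I.mkQ_surjective x
    simp
  map_zero' := by
    refine LinearMap.ext fun x => ?_
    obtain ⟨x, rfl⟩ := I.mkQ_surjective x
    simp
  map_add' r s := by
    refine LinearMap.ext fun x => ?_
    obtain ⟨x, rfl⟩ := I.mkQ_surjective x
    simp [add_mul]
  commutes' c := by
    refine LinearMap.ext fun x => ?_
    obtain ⟨x, rfl⟩ := I.mkQ_surjective x
    change I.mkQ (algebraMap K (R K) c * x) = c • I.mkQ x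
    rw [← Algebra.smul_def, map_smul]

theorem L0_mk {K : Type} [Field K] (I : Submodule K (R K))
    (hI : ∀ a ∈ I, ∀ b, a * b ∈ I ∧ b * a ∈ I) (r x : R K) :
    L0 I hI r (I.mkQ x) = I.mkQ (r * x) := rfl

/-- a linear map with prescribed nilpotent values on a linearly independent family -/
theorem exists_gamma {K : Type} [Field K] {V : Type} [AddCommGroup V] [Module K V]
    {C : Type} [CommRing C] [Algebra K C] (v : ℕ → V) (hv : LinearIndependent K v) (a : ℕ → C)
    (ha : ∀ j, IsNilpotent (a j)) : ∃ γ : V →ₗ[K] C, (∀ x, IsNilpotent (γ x)) ∧ ∀ j, γ (v j) = a j := by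
  let P : Submodule K C := (nilradical C).restrictScalars K
  let f : (Submodule.span K (Set.range v)) →ₗ[K] P :=
    (Finsupp.linearCombination K (fun j => (⟨a j, ha j⟩ : P))).comp hv.repr
  obtain ⟨g, hg⟩ := LinearMap.exists_extend f
  refine ⟨P.subtype.comp g, fun x => (g x).2, fun j => ?_⟩
  have h1 : g (v j) = f ⟨v j, Submodule.subset_span ⟨j, rfl⟩⟩ := by
    rw [← hg]; rfl
  have h2 : f ⟨v j, Submodule.subset_span ⟨j, rfl⟩⟩ = ⟨a j, ha j⟩ := by
    simp only [f, LinearMap.comp_apply]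
    rw [hv.repr_eq_single j _ rfl]
    simp
  rw [LinearMap.comp_apply, h1, h2]
  rfl

theorem smul_tmul_ne {K : Type} [Field K] {V : Type} [AddCommGroup V] [Module K V]
    {C : Type} [CommRing C] [Algebra K C] (v : V) (hv : v ≠ 0) (c : C) (hc : c ≠ 0) :
    c • ((1 : C) ⊗ₜ[K] v) ≠ 0 := by
  obtain ⟨f, hf⟩ := Module.Projective.exists_dual_eq_one K hv
  intro h
  have h1 := congrArg (((Algebra.linearMap K C).comp f).liftBaseChange C) h
  rw [map_smul, LinearMap.liftBaseChange_tmul, LinearMap.comp_apply, hf, map_zero] at h1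
  simp at h1
  exact hc h1

/-- nil algebras with four distinguished elements and prescribed large nil indices -/
theorem exists_nil (K : Type) [Field K] [Countable K] :
    ∃ w : ℕ → FreeMonoid (Fin 3), ∀ m : ℕ → ℕ,
    ∃ (N : Type) (_ : NonUnitalRing N) (_ : Module K N) (_ : IsScalarTower K N N)
      (_ : SMulCommClass K N N), Countable N ∧ (∀ x : N, ∃ n, (fun y => x * y)^[n] x = 0) ∧
      ∃ (g : Fin 3 → N) (c : N), ∀ j p, p + 1 < m j →
        (fun y => (ev g c (w j)) * y)^[p] (ev g c (w j)) ≠ 0 := by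
  obtain ⟨I, hI, hnil, w, hw⟩ := golod (K := K)
  refine ⟨w, fun m => ?_⟩
  obtain ⟨γ, hγ1, hγ2⟩ := exists_gamma (C := CC K m) _ hw (aa m) (aa_nil m)
  have h1 : I.mkQ (1 : R K) ≠ 0 := by
    intro h
    have h1 : (1 : R K) ∈ I := by rwa [← LinearMap.mem_ker, Submodule.ker_mkQ] at h
    have h2 : mon (w 0) ∈ I := by simpa using (hI 1 h1 (mon (w 0))).1
    apply hw.ne_zero 0
    rwa [← LinearMap.mem_ker, Submodule.ker_mkQ]
  refine NN_main (C := CC K m) (M := CC K m ⊗[K] (R K ⧸ I))
    ((Module.End.baseChangeHom K (CC K m) (R K ⧸ I)).comp (L0 I hI)) ?_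
    (γ.liftBaseChange (CC K m)) ((1 : CC K m) ⊗ₜ[K] I.mkQ (1 : R K)) ?_ w m ?_
  · intro a ha
    obtain ⟨k, hk⟩ := hnil a ha
    refine ⟨k, ?_⟩
    have : L0 I hI (a ^ k) = 0 := by
      refine LinearMap.ext fun x => ?_
      obtain ⟨x, rfl⟩ := I.mkQ_surjective x
      rw [L0_mk]
      rw [LinearMap.zero_apply, ← LinearMap.mem_ker, Submodule.ker_mkQ]
      exact (hI _ hk x).1
    rw [AlgHom.comp_apply, this, map_zero]
  · intro v
    have : γ.liftBaseChange (CC K m) v ∈ nilradical (CC K m) := by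
      induction v using TensorProduct.induction_on with
      | zero => simp
      | tmul s v =>
        rw [LinearMap.liftBaseChange_tmul, smul_eq_mul]
        exact Ideal.mul_mem_left _ _ (hγ1 v)
      | add x y hx hy => rw [map_add]; exact add_mem hx hy
    exact this
  · intro j p hp
    have h2 : (((Module.End.baseChangeHom K (CC K m) (R K ⧸ I)).comp (L0 I hI)) (mon (w j)))
        ((1 : CC K m) ⊗ₜ[K] I.mkQ (1 : R K)) = (1 : CC K m) ⊗ₜ[K] I.mkQ (mon (w j)) := by
      change (1 : CC K m) ⊗ₜ[K] (L0 I hI (mon (w j)) (I.mkQ (1 : R K))) = _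
      rw [L0_mk, mul_one]
    rw [h2, LinearMap.liftBaseChange_tmul, one_smul, hγ2]
    exact smul_tmul_ne _ h1 _ (aa_ne m j p hp)

end Pool.Agent.H2.GS
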