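import Pool.Agent.H2.GS4

set_option autoImplicit false
set_option linter.unusedSectionVars false

namespace Pool.Agent.H2.GS

theorem countable_of_rank {K A : Type} [Field K] [Countable K] [AddCommGroup A] [Module K A]
    (h : Module.rank K A ≤ Cardinal.aleph0) : Countable A := by
  let b := Module.Basis.ofVectorSpace K A
  have h1 : Countable (Module.Basis.ofVectorSpaceIndex K A) := by
    rw [← Cardinal.mk_le_aleph0_iff, b.mk_eq_rank'']
    exact h
  exact b.repr.injective.countable

/-- diagonal function -/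
theorem diag {T : Type} [Countable T] [Nonempty T] (h : T → ℕ → ℕ) :
    ∃ m : ℕ → ℕ, ∀ t, ∃ j, h t j + 1 < m j := by
  obtain ⟨s, hs⟩ := exists_surjective_nat T
  refine ⟨fun j => (∑ i ∈ Finset.range (j + 1), h (s i) j) + 2, fun t => ?_⟩
  obtain ⟨j, rfl⟩ := hs t
  refine ⟨j, ?_⟩
  have : h (s j) j ≤ ∑ i ∈ Finset.range (j + 1), h (s i) j :=
    Finset.single_le_sum (f := fun i => h (s i) j) (fun _ _ => Nat.zero_le _)
      (Finset.mem_range.2 (Nat.lt_succ_self j))
  dsimp only
  omega

/-- no universal nil algebra over a countable field -/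
theorem no_nil (F : Type) [Field F] [Countable F] :
    ¬ ∃ (A : Type) (_instR : NonUnitalRing A) (_instM : Module F A)
        (_instT : IsScalarTower F A A) (_instC : SMulCommClass F A A),
        (∀ a : A, ∃ n : ℕ, (fun x : A => a * x)^[n] a = 0) ∧
        Module.rank F A ≤ Cardinal.aleph0 ∧
        ∀ (B : Type) [NonUnitalRing B] [Module F B] [IsScalarTower F B B]
          [SMulCommClass F B B],
          (∀ b : B, ∃ n : ℕ, (fun x : B => b * x)^[n] b = 0) →
          Module.rank F B ≤ Cardinal.aleph0 →
            ∃ f : A →ₙₐ[F] B, Function.Surjective f := by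
  rintro ⟨A, _, _, _, _, hnil, hrank, huniv⟩
  have hA : Countable A := countable_of_rank hrank
  obtain ⟨w, hw⟩ := exists_nil F
  choose ν hν using hnil
  obtain ⟨m, hm⟩ := diag (T := (Fin 3 → A) × A) (fun t j => ν (ev t.1 t.2 (w j)))
  obtain ⟨N, _, _, _, _, hNc, hNnil, g, c, hN⟩ := hw m
  obtain ⟨f, hf⟩ := huniv N hNnil ((rank_le_card F N).trans Cardinal.mk_le_aleph0)
  choose g' hg' using fun i => hf (g i)
  obtain ⟨c', hc'⟩ := hf c
  obtain ⟨j, hj⟩ := hm (g', c')
  apply hN j _ hj
  have h1 : f (ev g' c' (w j)) = ev g c (w j) := by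
    rw [ev_map f (map_mul f), hc']
    simp only [hg']
  have h2 := iter_map f (map_mul f) (ev g' c' (w j)) (ν (ev g' c' (w j)))
  rw [hν, map_zero, h1] at h2
  exact h2.symm

/-! ### algebraic algebras -/

theorem pw_mul {A : Type} [Semigroup A] (a : A) (i j : ℕ) :
    ((fun y => a * y)^[i] a) * ((fun y => a * y)^[j] a) = (fun y => a * y)^[i + j + 1] a := by
  induction i with
  | zero => rw [Function.iterate_zero, id, zero_add, Function.iterate_succ_apply']
  | succ i ih =>
    rw [Function.iterate_succ_apply', mul_assoc, ih, ← Function.iterate_succ_apply' (fun y => a * y)]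
    congr 2; omega

theorem pw_zero {A : Type} [NonUnitalRing A] (a : A) {n : ℕ} (h : (fun y => a * y)^[n] a = 0)
    {k : ℕ} (hk : n ≤ k) : (fun y => a * y)^[k] a = 0 := by
  induction k, hk using Nat.le_induction with
  | base => exact h
  | succ k _ ih => rw [Function.iterate_succ_apply', ih, mul_zero]

/-- nilpotent elements are algebraic -/
theorem alg_of_nil {F A : Type} [Field F] [NonUnitalRing A] [Module F A] [IsScalarTower F A A]
    [SMulCommClass F A A] (a : A) {n : ℕ} (h : (fun y => a * y)^[n] a = 0) :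
    FiniteDimensional F (NonUnitalAlgebra.adjoin F {a}) := by
  let P : Submodule F A := Submodule.span F (Set.range fun i : Fin (n + 1) => (fun y => a * y)^[i] a)
  have hP : ∀ k, (fun y => a * y)^[k] a ∈ P := by
    intro k
    by_cases hk : k < n + 1
    · exact Submodule.subset_span ⟨⟨k, hk⟩, rfl⟩
    · rw [pw_zero a h (by omega)]; exact zero_mem _
  have hmul : ∀ x y, x ∈ P → y ∈ P → x * y ∈ P := by
    intro x y hx hy
    refine Submodule.span_induction ?_ (by simp) ?_ ?_ hx
    · rintro _ ⟨i, rfl⟩
      refine Submodule.span_induction ?_ (by simp) ?_ ?_ hy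
      · rintro _ ⟨j, rfl⟩
        simp only
        rw [pw_mul]
        exact hP _
      · intro u v _ _ hu hv; rw [mul_add]; exact add_mem hu hv
      · intro c u _ hu; rw [mul_smul_comm]; exact Submodule.smul_mem _ _ hu
    · intro u v _ _ hu hv; rw [add_mul]; exact add_mem hu hv
    · intro c u _ hu; rw [smul_mul_assoc]; exact Submodule.smul_mem _ _ hu
  have hle : NonUnitalAlgebra.adjoin F {a} ≤ P.toNonUnitalSubalgebra hmul := by
    rw [NonUnitalAlgebra.adjoin_le_iff]
    intro x hx
    rw [Set.mem_singleton_iff.1 hx]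
    exact hP 0
  have hfd : FiniteDimensional F P := FiniteDimensional.span_of_finite F (Set.finite_range _)
  have hle2 : (NonUnitalAlgebra.adjoin F {a}).toSubmodule ≤ P := hle
  exact Submodule.finiteDimensional_of_le hle2

/-- an algebraic element satisfies a nontrivial relation without constant term -/
theorem rel_of_alg {F A : Type} [Field F] [NonUnitalRing A] [Module F A] [IsScalarTower F A A]
    [SMulCommClass F A A] (a : A) (h : FiniteDimensional F (NonUnitalAlgebra.adjoin F {a})) :
    ∃ d : ℕ, ∃ c : Fin d → F, (∃ i, c i ≠ 0) ∧ ∑ i : Fin d, c i • (fun y => a * y)^[i] a = 0 := by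
  let d := Module.finrank F (NonUnitalAlgebra.adjoin F {a}) + 1
  have hmem : ∀ k, (fun y => a * y)^[k] a ∈ NonUnitalAlgebra.adjoin F {a} := by
    intro k
    induction k with
    | zero => exact NonUnitalAlgebra.subset_adjoin F rfl
    | succ k ih =>
      rw [Function.iterate_succ_apply']
      exact mul_mem (NonUnitalAlgebra.subset_adjoin F rfl) ih
  let v : Fin d → NonUnitalAlgebra.adjoin F {a} := fun i => ⟨_, hmem i⟩
  have hnot : ¬ LinearIndependent F v := by
    intro hli
    have := hli.fintype_card_le_finrank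
    simp [d] at this
  rw [Fintype.not_linearIndependent_iff] at hnot
  obtain ⟨c, hc, i, hi⟩ := hnot
  refine ⟨d, c, ⟨i, hi⟩, ?_⟩
  have := congrArg (fun x : NonUnitalAlgebra.adjoin F {a} => (x : A)) hc
  simpa [v] using this

/-- key: a nilpotent element with a nontrivial relation of length `d` has small nil index -/
theorem nil_of_rel {F A : Type} [Field F] [NonUnitalRing A] [Module F A] [IsScalarTower F A A]
    [SMulCommClass F A A] (a : A) {n : ℕ} (h : (fun y => a * y)^[n] a = 0) {d : ℕ} (c : Fin d → F)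
    (hc : ∃ i, c i ≠ 0) (hrel : ∑ i : Fin d, c i • (fun y => a * y)^[i] a = 0) :
    (fun y => a * y)^[d] a = 0 := by
  classical
  -- minimal index
  by_contra hne
  have hex : ∃ n, (fun y => a * y)^[n] a = 0 := ⟨n, h⟩
  let q := Nat.find hex
  have hq : (fun y => a * y)^[q] a = 0 := Nat.find_spec hex
  have hqmin : ∀ k < q, (fun y => a * y)^[k] a ≠ 0 := fun k hk => Nat.find_min hex hk
  have hdq : d < q := by
    by_contra hcon
    exact hne (pw_zero a hq (by omega))
  -- minimal i with c i ≠ 0
  have hex2 : ∃ k, ∃ hk : k < d, c ⟨k, hk⟩ ≠ 0 := by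
    obtain ⟨i, hi⟩ := hc
    exact ⟨i, i.2, hi⟩
  let k := Nat.find hex2
  obtain ⟨hkd, hk⟩ := Nat.find_spec hex2
  have hkmin : ∀ l < k, ∀ hl : l < d, c ⟨l, hl⟩ = 0 := by
    intro l hl hld
    by_contra hcon
    exact Nat.find_min hex2 hl ⟨hld, hcon⟩
  -- multiply by a^(q-1-k)
  have h1 : ∑ i : Fin d, c i • (fun y => a * y)^[(i : ℕ) + (q - 2 - k) + 1] a = 0 := by
    have h2 := congrArg (fun x => x * (fun y => a * y)^[q - 2 - k] a) hrel
    simp only [zero_mul, Finset.sum_mul, smul_mul_assoc, pw_mul] at h2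
    exact h2
  rw [Finset.sum_eq_single ⟨k, hkd⟩] at h1
  · have h3 : k + (q - 2 - k) + 1 = q - 1 := by
      have : k < d := hkd
      omega
    simp only [h3] at h1
    rcases smul_eq_zero.1 h1 with h4 | h4
    · exact hk h4
    · exact hqmin (q - 1) (by omega) h4
  · intro i _ hi
    rcases lt_trichotomy (i : ℕ) k with h4 | h4 | h4
    · rw [hkmin i h4 i.2, zero_smul]
    · exact absurd (Fin.ext h4) hi
    · rw [pw_zero a hq, smul_zero]
      have : k < d := hkd
      omega
  · intro h4; exact absurd (Finset.mem_univ _) h4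

/-- no universal algebraic algebra over a countable field -/
theorem no_alg (F : Type) [Field F] [Countable F] :
    ¬ ∃ (A : Type) (_ : NonUnitalRing A) (_ : Module F A)
        (_ : IsScalarTower F A A) (_ : SMulCommClass F A A),
        (∀ a : A, FiniteDimensional F (NonUnitalAlgebra.adjoin F {a})) ∧
        Module.rank F A ≤ Cardinal.aleph0 ∧
        ∀ (B : Type) [NonUnitalRing B] [Module F B] [IsScalarTower F B B]
          [SMulCommClass F B B],
          (∀ b : B, FiniteDimensional F (NonUnitalAlgebra.adjoin F {b})) →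
          Module.rank F B ≤ Cardinal.aleph0 →
            ∃ f : A →ₙₐ[F] B, Function.Surjective f := by
  rintro ⟨A, _, _, _, _, halg, hrank, huniv⟩
  have hA : Countable A := countable_of_rank hrank
  obtain ⟨w, hw⟩ := exists_nil F
  choose ν coe hcoe hrel using fun a : A => rel_of_alg a (halg a)
  obtain ⟨m, hm⟩ := diag (T := (Fin 3 → A) × A) (fun t j => ν (ev t.1 t.2 (w j)))
  obtain ⟨N, _, _, _, _, hNc, hNnil, g, c, hN⟩ := hw m
  obtain ⟨f, hf⟩ := huniv N (fun b => alg_of_nil b (hNnil b).choose_spec)
    ((rank_le_card F N).trans Cardinal.mk_le_aleph0)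
  choose g' hg' using fun i => hf (g i)
  obtain ⟨c', hc'⟩ := hf c
  obtain ⟨j, hj⟩ := hm (g', c')
  apply hN j _ hj
  have h1 : f (ev g' c' (w j)) = ev g c (w j) := by
    rw [ev_map f (map_mul f), hc']
    simp only [hg']
  have h2 := congrArg f (hrel (ev g' c' (w j)))
  rw [map_sum, map_zero] at h2
  simp only [map_smul, iter_map f (map_mul f), h1] at h2
  exact nil_of_rel _ (hNnil (ev g c (w j))).choose_spec _ (hcoe _) h2

end Pool.Agent.H2.GS
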