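import Mathlib

namespace Pool.Agent.H2.JR

/-- an eight-dimensional algebra over the field with two elements:
`F 1 + S[t]/(t^2) + F (d/dt)`, `S` the three-dimensional cross product algebra -/
@[ext] structure J8 where
  e : ZMod 2
  a : ZMod 2
  b : ZMod 2
  c : ZMod 2
  p : ZMod 2
  q : ZMod 2
  r : ZMod 2
  z : ZMod 2
deriving DecidableEq

namespace J8

instance : Zero J8 := ⟨⟨0, 0, 0, 0, 0, 0, 0, 0⟩⟩
instance : One J8 := ⟨⟨1, 0, 0, 0, 0, 0, 0, 0⟩⟩
instance : Add J8 := ⟨fun x y => ⟨x.e + y.e, x.a + y.a, x.b + y.b, x.c + y.c, x.p + y.p,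
  x.q + y.q, x.r + y.r, x.z + y.z⟩⟩
instance : Neg J8 := ⟨fun x => ⟨-x.e, -x.a, -x.b, -x.c, -x.p, -x.q, -x.r, -x.z⟩⟩
instance : Mul J8 := ⟨fun x y =>
  ⟨x.e * y.e,
   x.e * y.a + x.a * y.e + (x.b * y.c + x.c * y.b) + (x.z * y.p + x.p * y.z),
   x.e * y.b + x.b * y.e + (x.c * y.a + x.a * y.c) + (x.z * y.q + x.q * y.z),
   x.e * y.c + x.c * y.e + (x.a * y.b + x.b * y.a) + (x.z * y.r + x.r * y.z),
   x.e * y.p + x.p * y.e + (x.b * y.r + x.c * y.q) + (x.q * y.c + x.r * y.b),
   x.e * y.q + x.q * y.e + (x.c * y.p + x.a * y.r) + (x.r * y.a + x.p * y.c),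
   x.e * y.r + x.r * y.e + (x.a * y.q + x.b * y.p) + (x.p * y.b + x.q * y.a),
   x.e * y.z + x.z * y.e⟩⟩

theorem zero_def : (0 : J8) = ⟨0, 0, 0, 0, 0, 0, 0, 0⟩ := rfl
theorem one_def : (1 : J8) = ⟨1, 0, 0, 0, 0, 0, 0, 0⟩ := rfl
theorem add_def (x y : J8) : x + y = ⟨x.e + y.e, x.a + y.a, x.b + y.b, x.c + y.c, x.p + y.p,
  x.q + y.q, x.r + y.r, x.z + y.z⟩ := rfl
theorem neg_def (x : J8) : -x = ⟨-x.e, -x.a, -x.b, -x.c, -x.p, -x.q, -x.r, -x.z⟩ := rfl
theorem mul_def (x y : J8) : x * y =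
  ⟨x.e * y.e,
   x.e * y.a + x.a * y.e + (x.b * y.c + x.c * y.b) + (x.z * y.p + x.p * y.z),
   x.e * y.b + x.b * y.e + (x.c * y.a + x.a * y.c) + (x.z * y.q + x.q * y.z),
   x.e * y.c + x.c * y.e + (x.a * y.b + x.b * y.a) + (x.z * y.r + x.r * y.z),
   x.e * y.p + x.p * y.e + (x.b * y.r + x.c * y.q) + (x.q * y.c + x.r * y.b),
   x.e * y.q + x.q * y.e + (x.c * y.p + x.a * y.r) + (x.r * y.a + x.p * y.c),
   x.e * y.r + x.r * y.e + (x.a * y.q + x.b * y.p) + (x.p * y.b + x.q * y.a),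
   x.e * y.z + x.z * y.e⟩ := rfl

instance : NonAssocRing J8 where
  add_assoc x y w := by simp only [add_def, add_assoc]
  zero_add x := by simp only [add_def, zero_def, zero_add]
  add_zero x := by simp only [add_def, zero_def, add_zero]
  add_comm x y := by ext <;> simp only [add_def] <;> ring
  neg_add_cancel x := by simp only [add_def, neg_def, zero_def, neg_add_cancel]
  nsmul := nsmulRec
  zsmul := zsmulRec
  left_distrib x y w := by ext <;> simp only [add_def, mul_def] <;> ring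
  right_distrib x y w := by ext <;> simp only [add_def, mul_def] <;> ring
  zero_mul x := by ext <;> simp [mul_def, zero_def]
  mul_zero x := by ext <;> simp [mul_def, zero_def]
  one_mul x := by ext <;> simp [mul_def, one_def]
  mul_one x := by ext <;> simp [mul_def, one_def]

theorem two0 : (2 : ZMod 2) = 0 := rfl

theorem comm (x y : J8) : x * y = y * x := by
  ext <;> simp only [mul_def] <;> ring

theorem sq (x : J8) : x * x = ⟨x.e, 0, 0, 0, 0, 0, 0, 0⟩ := by
  have h : ∀ t : ZMod 2, t * t = t := by decide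
  ext
  · simp only [mul_def, h]
  all_goals
    simp only [mul_def]
    ring_nf
    simp only [two0, mul_zero, add_zero]

theorem char2 (x : J8) : x + x = 0 := by
  ext <;> simp only [add_def, zero_def] <;> ring_nf <;> simp only [two0, mul_zero]

theorem sc_mul (s : ZMod 2) (y : J8) : (⟨s, 0, 0, 0, 0, 0, 0, 0⟩ : J8) * y =
    ⟨s * y.e, s * y.a, s * y.b, s * y.c, s * y.p, s * y.q, s * y.r, s * y.z⟩ := by
  ext <;> simp [mul_def]

theorem jordan (x y : J8) : ((x * x) * y) * x = (x * x) * (y * x) := by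
  rw [sq, sc_mul, sc_mul]
  ext <;> simp only [mul_def] <;> ring

/-- the divided full linearization of the Jordan identity -/
def JLs (x y w s : J8) : Prop :=
  ((x * y) * s) * w + ((y * w) * s) * x + ((w * x) * s) * y =
    (x * y) * (s * w) + (y * w) * (s * x) + (w * x) * (s * y)

instance (x y w s : J8) : Decidable (JLs x y w s) := inferInstanceAs (Decidable (_ = _))

def bas : List J8 := [⟨1, 0, 0, 0, 0, 0, 0, 0⟩, ⟨0, 1, 0, 0, 0, 0, 0, 0⟩, ⟨0, 0, 1, 0, 0, 0, 0, 0⟩,
  ⟨0, 0, 0, 1, 0, 0, 0, 0⟩, ⟨0, 0, 0, 0, 1, 0, 0, 0⟩, ⟨0, 0, 0, 0, 0, 1, 0, 0⟩,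
  ⟨0, 0, 0, 0, 0, 0, 1, 0⟩, ⟨0, 0, 0, 0, 0, 0, 0, 1⟩]

theorem bas_ind (P : J8 → Prop) (h0 : P 0) (hadd : ∀ x y, P x → P y → P (x + y))
    (hb : ∀ x ∈ bas, P x) (x : J8) : P x := by
  have hs : ∀ (s : ZMod 2) (y : J8), P y → P ((⟨s, 0, 0, 0, 0, 0, 0, 0⟩ : J8) * y) := by
    intro s y hy
    have : s = 0 ∨ s = 1 := by revert s; decide
    rcases this with rfl | rfl
    · rw [show (⟨0, 0, 0, 0, 0, 0, 0, 0⟩ : J8) = 0 from rfl, zero_mul]; exact h0
    · rw [show (⟨1, 0, 0, 0, 0, 0, 0, 0⟩ : J8) = 1 from rfl, one_mul]; exact hy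
  have hx : x = (⟨x.e, 0, 0, 0, 0, 0, 0, 0⟩ : J8) * ⟨1, 0, 0, 0, 0, 0, 0, 0⟩ +
      (⟨x.a, 0, 0, 0, 0, 0, 0, 0⟩ : J8) * ⟨0, 1, 0, 0, 0, 0, 0, 0⟩ +
      (⟨x.b, 0, 0, 0, 0, 0, 0, 0⟩ : J8) * ⟨0, 0, 1, 0, 0, 0, 0, 0⟩ +
      (⟨x.c, 0, 0, 0, 0, 0, 0, 0⟩ : J8) * ⟨0, 0, 0, 1, 0, 0, 0, 0⟩ +
      (⟨x.p, 0, 0, 0, 0, 0, 0, 0⟩ : J8) * ⟨0, 0, 0, 0, 1, 0, 0, 0⟩ +
      (⟨x.q, 0, 0, 0, 0, 0, 0, 0⟩ : J8) * ⟨0, 0, 0, 0, 0, 1, 0, 0⟩ +
      (⟨x.r, 0, 0, 0, 0, 0, 0, 0⟩ : J8) * ⟨0, 0, 0, 0, 0, 0, 1, 0⟩ +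
      (⟨x.z, 0, 0, 0, 0, 0, 0, 0⟩ : J8) * ⟨0, 0, 0, 0, 0, 0, 0, 1⟩ := by
    ext <;> simp [sc_mul, add_def]
  rw [hx]
  simp only [bas, List.mem_cons, List.not_mem_nil, or_false, forall_eq_or_imp, forall_eq] at hb
  obtain ⟨h1, h2, h3, h4, h5, h6, h7, h8⟩ := hb
  exact hadd _ _ (hadd _ _ (hadd _ _ (hadd _ _ (hadd _ _ (hadd _ _ (hadd _ _ (hs _ _ h1)
    (hs _ _ h2)) (hs _ _ h3)) (hs _ _ h4)) (hs _ _ h5)) (hs _ _ h6)) (hs _ _ h7)) (hs _ _ h8)

theorem jls_bas : ∀ x ∈ bas, ∀ y ∈ bas, ∀ w ∈ bas, ∀ s ∈ bas, JLs x y w s := by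
  decide +kernel

theorem jls_s {x y w s s' : J8} (h : JLs x y w s) (h' : JLs x y w s') : JLs x y w (s + s') := by
  unfold JLs at h h' ⊢
  have H := congrArg₂ (· + ·) h h'
  simp only [mul_add, add_mul] at H ⊢
  convert H using 1 <;> abel

theorem jls_x {x x' y w s : J8} (h : JLs x y w s) (h' : JLs x' y w s) : JLs (x + x') y w s := by
  unfold JLs at h h' ⊢
  have H := congrArg₂ (· + ·) h h'
  simp only [mul_add, add_mul] at H ⊢
  convert H using 1 <;> abel

theorem jls_y {x y y' w s : J8} (h : JLs x y w s) (h' : JLs x y' w s) : JLs x (y + y') w s := by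
  unfold JLs at h h' ⊢
  have H := congrArg₂ (· + ·) h h'
  simp only [mul_add, add_mul] at H ⊢
  convert H using 1 <;> abel

theorem jls_w {x y w w' s : J8} (h : JLs x y w s) (h' : JLs x y w' s) : JLs x y (w + w') s := by
  unfold JLs at h h' ⊢
  have H := congrArg₂ (· + ·) h h'
  simp only [mul_add, add_mul] at H ⊢
  convert H using 1 <;> abel

theorem jls (x y w s : J8) : JLs x y w s := by
  revert s
  refine bas_ind (fun x => ∀ s, JLs x y w s) ?_ ?_ ?_ x
  · intro s; unfold JLs; simp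
  · intro x x' h h' s; exact jls_x (h s) (h' s)
  intro x hx
  refine bas_ind (fun y => ∀ s, JLs x y w s) ?_ ?_ ?_ y
  · intro s; unfold JLs; simp
  · intro y y' h h' s; exact jls_y (h s) (h' s)
  intro y hy
  refine bas_ind (fun w => ∀ s, JLs x y w s) ?_ ?_ ?_ w
  · intro s; unfold JLs; simp
  · intro w w' h h' s; exact jls_w (h s) (h' s)
  intro w hw
  refine bas_ind (fun s => JLs x y w s) ?_ ?_ ?_
  · unfold JLs; simp
  · intro s s' h h'; exact jls_s h h'
  intro s hs
  exact jls_bas x hx y hy w hw s hs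

def bt (n i : ℕ) : ZMod 2 := if n.testBit i then 1 else 0

def dec (n : ℕ) : J8 := ⟨bt n 0, bt n 1, bt n 2, bt n 3, bt n 4, bt n 5, bt n 6, bt n 7⟩

def cd (x : J8) : ℕ := x.e.val + 2 * x.a.val + 4 * x.b.val + 8 * x.c.val + 16 * x.p.val +
  32 * x.q.val + 64 * x.r.val + 128 * x.z.val

theorem dec_cd (x : J8) : dec (cd x) = x := by
  obtain ⟨e, a, b, c, p, q, r, z⟩ := x
  revert e a b c p q r z
  decide +kernel

theorem cd_lt (x : J8) : cd x < 256 := by
  have h : ∀ t : ZMod 2, t.val ≤ 1 := by decide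
  have h1 := h x.e
  have h2 := h x.a
  have h3 := h x.b
  have h4 := h x.c
  have h5 := h x.p
  have h6 := h x.q
  have h7 := h x.r
  have h8 := h x.z
  unfold cd
  omega

def tab : ℕ := 465097352413368952535179726791974046962863903237707219132384760004762846484089093885814713397233411290258619213040623831630498275464492762695998286126739479508500179194367414947769371864483096875946313890672843609314007607784112079145158530539098356643254552744057290146486189813125179684767926619393163946449362663548231928545921091686749100452391097999462146224120053813573009625909228777483678382475583342181312884702841901581241208833538149559880436993984813533083415877188293905177051155594605673639783462164443996403525885133288872791994872846278829965997272951497614596994345413652406684277832225662728862150610331025486825086047385128852681011131392708892138007081931846666850770511071392932482547172492950652636053742987594191975179442040153199069871520435961348653098348165909031889118199334838596919747324437133871634924057699020213263754140343257547563383661047456288818422046072906851678959492037729614457463520898927651347233755339954939160239089766244619723008468872639908828601879575104989470319210188887007069314254219711363666608826952287826658742416831557080854795143510279640183543537182815882279955584213701195295382485610324425245998772473698544895209798172851527796175009434340645657904833250370447655227686912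

/-- the element `t e_1` -/
def kk : J8 := ⟨0, 0, 0, 0, 1, 0, 0, 0⟩

theorem tab_ok : ((List.range 256).all fun n => Nat.beq n 0 ||
    decide ((dec n * dec ((tab >>> (16 * n)) % 256)) * dec ((tab >>> (16 * n + 8)) % 256) = kk))
      = true := by
  decide +kernel

theorem to_kk (x : J8) (hx : x ≠ 0) : ∃ y w : J8, (x * y) * w = kk := by
  have h := List.all_eq_true.1 tab_ok (cd x) (List.mem_range.2 (cd_lt x))
  rw [Bool.or_eq_true] at h
  rcases h with h | h
  · exfalso
    apply hx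
    have h2 := Nat.eq_of_beq_eq_true h
    rw [← dec_cd x, h2]
    decide +kernel
  · have h2 := of_decide_eq_true h
    rw [dec_cd] at h2
    exact ⟨_, _, h2⟩

instance : Finite J8 := by
  refine Finite.of_injective (fun x : J8 => (⟨cd x, cd_lt x⟩ : Fin 256)) ?_
  intro x y h
  have h2 : cd x = cd y := congrArg Fin.val h
  rw [← dec_cd x, h2, dec_cd]

end J8

end Pool.Agent.H2.JR
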