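import Mathlib

set_option autoImplicit false
open scoped Matrix

namespace Pool.Agent.H2.Neu

open Matrix

/-- `M` is a Z-matrix with a positive vector `x` with `M x > 0`. -/
def Good {n : ℕ} (M : Matrix (Fin n) (Fin n) ℝ) : Prop :=
  (∀ i j, i ≠ j → M i j ≤ 0) ∧ ∃ x : Fin n → ℝ, (∀ i, 0 < x i) ∧ ∀ i, 0 < ∑ j, M i j * x j

/-- Hadamard's inequality for nonsingular M-matrices. -/
theorem good_det : ∀ (n : ℕ) (M : Matrix (Fin n) (Fin n) ℝ), Good M →
    0 < M.det ∧ M.det ≤ ∏ i, M i i ∧ ∀ i, 0 < M i i := by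
  intro n
  induction n with
  | zero => intro M _; simp
  | succ n ih =>
    rintro M ⟨hz, x, hx, hMx⟩
    set a := M 0 0 with ha
    have h0 : 0 < a * x 0 + ∑ j : Fin n, M 0 j.succ * x j.succ := by
      have := hMx 0
      rwa [Fin.sum_univ_succ] at this
    have hb : ∑ j : Fin n, M 0 j.succ * x j.succ ≤ 0 :=
      Finset.sum_nonpos fun j _ =>
        mul_nonpos_of_nonpos_of_nonneg (hz _ _ (Fin.succ_ne_zero j).symm) (hx _).le
    have ha0 : 0 < a := by
      have : 0 < a * x 0 := by linarith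
      exact (mul_pos_iff_of_pos_right (hx 0)).1 this
    -- Schur complement
    let S : Matrix (Fin n) (Fin n) ℝ := fun i j => M i.succ j.succ - M i.succ 0 / a * M 0 j.succ
    have hSle : ∀ i j, S i j ≤ M i.succ j.succ := by
      intro i j
      have h1 : 0 ≤ M i.succ 0 / a * M 0 j.succ := by
        have : M i.succ 0 / a ≤ 0 := div_nonpos_of_nonpos_of_nonneg (hz _ _ (Fin.succ_ne_zero i)) ha0.le
        exact mul_nonneg_of_nonpos_of_nonpos this (hz _ _ (Fin.succ_ne_zero j).symm)
      simp only [S]; linarith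
    have hS : Good S := by
      refine ⟨fun i j hij => (hSle i j).trans (hz _ _ (by simpa using hij)), fun i => x i.succ,
        fun i => hx _, fun i => ?_⟩
      have h2 : 0 < M i.succ 0 * x 0 + ∑ j : Fin n, M i.succ j.succ * x j.succ := by
        have := hMx i.succ
        rwa [Fin.sum_univ_succ] at this
      have h3 : ∑ j, S i j * x j.succ = ∑ j : Fin n, M i.succ j.succ * x j.succ -
          M i.succ 0 / a * ∑ j : Fin n, M 0 j.succ * x j.succ := by
        rw [Finset.mul_sum, ← Finset.sum_sub_distrib]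
        exact Finset.sum_congr rfl fun j _ => by simp only [S]; ring
      rw [h3]
      have h4 : -(M i.succ 0 / a) * (∑ j : Fin n, M 0 j.succ * x j.succ) ≥
          -(M i.succ 0 / a) * (-(a * x 0)) := by
        apply mul_le_mul_of_nonneg_left
        · linarith
        · have : M i.succ 0 / a ≤ 0 := div_nonpos_of_nonpos_of_nonneg (hz _ _ (Fin.succ_ne_zero i)) ha0.le
          linarith
      have h5 : -(M i.succ 0 / a) * (-(a * x 0)) = M i.succ 0 * x 0 := by
        field_simp
      rw [h5] at h4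
      nlinarith
    obtain ⟨hS1, hS2, hS3⟩ := ih S hS
    have hdet : M.det = a * S.det := by
      let M' : Matrix (Fin (n+1)) (Fin (n+1)) ℝ := fun i j =>
        if i = 0 then M 0 j else M i j - M i 0 / a * M 0 j
      have h6 : M.det = M'.det := by
        apply Matrix.det_eq_of_forall_row_eq_smul_add_const (fun i => if i = 0 then 0 else M i 0 / a) 0
        · simp
        · intro i j
          by_cases hi : i = 0
          · subst hi; simp [M']
          · simp [M', hi]
      rw [h6, Matrix.det_succ_column_zero, Fin.sum_univ_succ]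
      have h7 : ∀ i : Fin n, M' i.succ 0 = 0 := by
        intro i
        simp only [M', Fin.succ_ne_zero, if_false]
        rw [← ha]; field_simp; ring
      have h8 : M'.submatrix (Fin.succAbove 0) Fin.succ = S := by
        ext i j
        simp [M', S, Matrix.submatrix, Fin.succ_ne_zero]
      simp only [h7, h8, mul_zero, zero_mul, Finset.sum_const_zero, add_zero]
      simp [M', ← ha]
    have hdiag : ∀ i, 0 < M i i := by
      intro i
      refine Fin.cases ha0 (fun i => ?_) i
      exact (hS3 i).trans_le (hSle i i)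
    refine ⟨by rw [hdet]; positivity, ?_, hdiag⟩
    rw [hdet, Fin.prod_univ_succ]
    apply mul_le_mul_of_nonneg_left _ ha0.le
    exact hS2.trans (Finset.prod_le_prod (fun i _ => (hS3 i).le) fun i _ => hSle i i)

theorem good_sub {n : ℕ} (M : Matrix (Fin (n+1)) (Fin (n+1)) ℝ) (hM : Good M) (r : Fin (n+1)) :
    Good (M.submatrix r.succAbove r.succAbove) := by
  obtain ⟨hz, x, hx, hMx⟩ := hM
  refine ⟨fun i j hij => hz _ _ (fun h => hij (Fin.succAbove_right_injective h)),
    fun i => x (r.succAbove i), fun i => hx _, fun i => ?_⟩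
  have h := hMx (r.succAbove i)
  rw [Fin.sum_univ_succAbove _ r] at h
  have h1 : M (r.succAbove i) r * x r ≤ 0 :=
    mul_nonpos_of_nonpos_of_nonneg (hz _ _ (Fin.succAbove_ne r i)) (hx r).le
  simp only [Matrix.submatrix_apply]
  linarith

theorem derivative_charpoly_aux {n : ℕ} (A : Matrix (Fin (n+1)) (Fin (n+1)) ℝ) :
    Polynomial.derivative A.charpoly =
      ∑ r : Fin (n+1), ((charmatrix A).updateCol r (Pi.single r 1)).det := by
  classical
  have h : ∀ r : Fin (n+1), ((charmatrix A).updateCol r (Pi.single r 1)).det =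
      ∑ σ : Equiv.Perm (Fin (n+1)), ((Equiv.Perm.sign σ : ℤ) : Polynomial ℝ) *
        ((∏ j ∈ Finset.univ.erase r, charmatrix A (σ j) j) *
          Polynomial.derivative (charmatrix A (σ r) r)) := by
    intro r
    rw [Matrix.det_apply']
    refine Finset.sum_congr rfl fun σ _ => ?_
    congr 1
    rw [← Finset.prod_erase_mul _ _ (Finset.mem_univ r)]
    congr 1
    · refine Finset.prod_congr rfl fun j hj => ?_
      rw [Matrix.updateCol_ne (Finset.ne_of_mem_erase hj)]
    · rw [Matrix.updateCol_self]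
      by_cases hr : σ r = r
      · rw [hr]; simp [charmatrix_apply]
      · rw [Pi.single_eq_of_ne hr]; simp [charmatrix_apply, hr]
  simp_rw [h]
  rw [Finset.sum_comm, Matrix.charpoly, Matrix.det_apply', Polynomial.derivative_sum]
  refine Finset.sum_congr rfl fun σ _ => ?_
  rw [← Finset.mul_sum, Polynomial.derivative_mul, Polynomial.derivative_intCast, zero_mul, zero_add,
    Polynomial.derivative_prod_finset]

/-- derivative of the characteristic polynomial -/
theorem derivative_charpoly {n : ℕ} (A : Matrix (Fin (n+1)) (Fin (n+1)) ℝ) (t : ℝ) :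
    (Polynomial.derivative A.charpoly).eval t =
      ∑ r : Fin (n+1), ((t • (1 : Matrix (Fin (n+1)) (Fin (n+1)) ℝ) - A).submatrix
        r.succAbove r.succAbove).det := by
  rw [derivative_charpoly_aux, Polynomial.eval_finsetSum]
  refine Finset.sum_congr rfl fun r _ => ?_
  rw [← Polynomial.coe_evalRingHom, RingHom.map_det]
  have h1 : (Polynomial.evalRingHom t).mapMatrix ((charmatrix A).updateCol r (Pi.single r 1)) =
      ((t • (1 : Matrix (Fin (n+1)) (Fin (n+1)) ℝ) - A)ᵀ.updateRow r (Pi.single r 1))ᵀ := by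
    ext i j
    rw [RingHom.mapMatrix_apply, Matrix.map_apply, Matrix.transpose_apply, Matrix.updateRow_apply,
      Matrix.updateCol_apply]
    by_cases hj : j = r
    · subst hj
      by_cases hi : i = j
      · subst hi; simp
      · simp [Pi.single_eq_of_ne hi]
    · simp only [hj, if_false, Matrix.transpose_apply, Matrix.sub_apply, Matrix.smul_apply]
      by_cases hi : i = j
      · subst hi; simp [charmatrix_apply]
      · simp [charmatrix_apply, hi]
  rw [h1, Matrix.det_transpose, ← Matrix.adjugate_apply, ← Matrix.adjugate_transpose,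
    Matrix.transpose_apply, Matrix.adjugate_fin_succ_eq_det_submatrix]
  rw [← two_mul, pow_mul]; simp

attribute [local instance] Matrix.linftyOpNormedRing Matrix.linftyOpNormedAlgebra

theorem exists_pow_lt {n : ℕ} (B : Matrix (Fin n) (Fin n) ℂ)
    (hB : ∀ z ∈ B.charpoly.roots, ‖z‖ ≤ 1) (t : ℝ) (ht : 1 < t) :
    ∃ N : ℕ, 1 ≤ N ∧ ‖B ^ N‖ < t ^ N := by
  have hspec : spectralRadius ℂ B < ENNReal.ofReal t := by
    refine lt_of_le_of_lt (b := 1) ?_ (by simpa using ht)
    refine iSup₂_le fun z hz => ?_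
    have : z ∈ B.charpoly.roots := by
      rw [Polynomial.mem_roots (Matrix.charpoly_monic B).ne_zero]
      exact Matrix.mem_spectrum_iff_isRoot_charpoly.1 hz
    have := hB z this
    rw [← ENNReal.coe_one, ENNReal.coe_le_coe]
    exact_mod_cast this
  have h := spectrum.pow_norm_pow_one_div_tendsto_nhds_spectralRadius B
  have h2 := (h.eventually (gt_mem_nhds hspec)).and (Filter.eventually_ge_atTop 1)
  obtain ⟨N, hN, hN1⟩ := h2.exists
  refine ⟨N, hN1, ?_⟩
  have h3 : ‖B ^ N‖ ^ (1 / (N:ℝ)) < t := (ENNReal.ofReal_lt_ofReal_iff (by linarith)).1 hN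
  have h4 : (‖B ^ N‖ ^ (1 / (N:ℝ))) ^ N < t ^ N :=
    pow_lt_pow_left₀ h3 (by positivity) (by omega)
  rwa [← Real.rpow_natCast, ← Real.rpow_mul (norm_nonneg _), one_div_mul_cancel (by positivity),
    Real.rpow_one] at h4

theorem good_of_spec {n : ℕ} (A : Matrix (Fin n) (Fin n) ℝ) (hA : ∀ i j, 0 ≤ A i j)
    (hB : ∀ z ∈ (A.map (algebraMap ℝ ℂ)).charpoly.roots, ‖z‖ ≤ 1) (t : ℝ) (ht : 1 < t) :
    Good (t • (1 : Matrix (Fin n) (Fin n) ℝ) - A) := by
  refine ⟨fun i j hij => by simp [hij, hA i j], ?_⟩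
  obtain ⟨N, hN1, hN⟩ := exists_pow_lt _ hB t ht
  have hmap : (A.map (algebraMap ℝ ℂ)) ^ N = (A ^ N).map (algebraMap ℝ ℂ) := by
    rw [← RingHom.mapMatrix_apply, ← map_pow, RingHom.mapMatrix_apply]
  rw [hmap] at hN
  have hpow : ∀ k i j, 0 ≤ (A ^ k) i j := by
    intro k
    induction k with
    | zero => intro i j; by_cases h : i = j <;> simp [h]
    | succ k ih =>
      intro i j
      rw [pow_succ, Matrix.mul_apply]
      exact Finset.sum_nonneg fun l _ => mul_nonneg (ih i l) (hA l j)
  have hrow : ∀ i, ∑ j, (A ^ N) i j < t ^ N := by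
    intro i
    refine lt_of_le_of_lt ?_ hN
    rw [Matrix.linfty_opNorm_def]
    have h5 : (∑ j, (A ^ N) i j) = ((∑ j, ‖((A ^ N).map (algebraMap ℝ ℂ)) i j‖₊ : NNReal) : ℝ) := by
      push_cast
      refine Finset.sum_congr rfl fun j _ => ?_
      simp [abs_of_nonneg (hpow N i j)]
    rw [h5, NNReal.coe_le_coe]
    exact Finset.le_sup (f := fun i => ∑ j, ‖((A ^ N).map (algebraMap ℝ ℂ)) i j‖₊) (Finset.mem_univ i)
  -- x = ∑_{k<N} t^(N-1-k) A^k 1
  let X : Matrix (Fin n) (Fin n) ℝ := ∑ k ∈ Finset.range N, (t • (1 : Matrix (Fin n) (Fin n) ℝ)) ^ k * A ^ (N - 1 - k)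
  have hcomm : Commute (t • (1 : Matrix (Fin n) (Fin n) ℝ)) A := by
    simp [Commute, SemiconjBy]
  have hX : (t • (1 : Matrix (Fin n) (Fin n) ℝ) - A) * X = (t • (1 : Matrix (Fin n) (Fin n) ℝ)) ^ N - A ^ N :=
    hcomm.mul_geom_sum₂ N
  have hpow2 : ∀ k, (t • (1 : Matrix (Fin n) (Fin n) ℝ)) ^ k = t ^ k • (1 : Matrix (Fin n) (Fin n) ℝ) := by
    intro k; rw [smul_pow, one_pow]
  refine ⟨fun i => ∑ j, X i j, fun i => ?_, fun i => ?_⟩
  · have h6 : ∀ j, 0 ≤ X i j := by
      intro j
      simp only [X, Matrix.sum_apply]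
      refine Finset.sum_nonneg fun k _ => ?_
      rw [hpow2, smul_mul_assoc, one_mul, Matrix.smul_apply]
      exact mul_nonneg (by positivity) (hpow _ _ _)
    have h7 : 0 < X i i := by
      simp only [X, Matrix.sum_apply]
      refine Finset.sum_pos' (fun k _ => ?_) ⟨N - 1, Finset.mem_range.2 (by omega), ?_⟩
      · rw [hpow2, smul_mul_assoc, one_mul, Matrix.smul_apply]
        exact mul_nonneg (by positivity) (hpow _ _ _)
      · rw [hpow2, smul_mul_assoc, one_mul, Matrix.smul_apply]
        simp; positivity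
    exact Finset.sum_pos' (fun j _ => h6 j) ⟨i, Finset.mem_univ i, h7⟩
  · have h8 : ∑ j, (t • (1 : Matrix (Fin n) (Fin n) ℝ) - A) i j * ∑ k, X j k =
        ∑ k, ((t • (1 : Matrix (Fin n) (Fin n) ℝ) - A) * X) i k := by
      simp_rw [Matrix.mul_apply, Finset.mul_sum]
      rw [Finset.sum_comm]
    rw [h8, hX, hpow2]
    simp only [Matrix.sub_apply, Matrix.smul_apply, Finset.sum_sub_distrib]
    have h9 : ∑ k, t ^ N • (1 : Matrix (Fin n) (Fin n) ℝ) i k = t ^ N := by
      simp [Matrix.one_apply]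
    rw [h9]
    linarith [hrow i]

end Pool.Agent.H2.Neu
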