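import Mathlib

namespace Pool.Agent.H2.PD

open Filter Topology Uniformity

/-- division closure of a subgroup -/
def dv {G : Type} [AddCommGroup G] (W : AddSubgroup G) : AddSubgroup G where
  carrier := {g | ∃ n : ℕ, n ≠ 0 ∧ n • g ∈ W}
  zero_mem' := ⟨1, one_ne_zero, by simp⟩
  add_mem' := by
    rintro a b ⟨n, hn, h⟩ ⟨m, hm, h'⟩
    refine ⟨n * m, mul_ne_zero hn hm, ?_⟩
    rw [smul_add]
    refine add_mem ?_ ?_
    · rw [mul_comm, mul_smul]; exact nsmul_mem h m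
    · rw [mul_smul]; exact nsmul_mem h' n
  neg_mem' := by
    rintro a ⟨n, hn, h⟩
    exact ⟨n, hn, by rw [smul_neg]; exact neg_mem h⟩

theorem le_dv {G : Type} [AddCommGroup G] (W : AddSubgroup G) : W ≤ dv W :=
  fun g hg => ⟨1, one_ne_zero, by rw [one_smul]; exact hg⟩

theorem dv_mono {G : Type} [AddCommGroup G] {W W' : AddSubgroup G} (h : W ≤ W') :
    dv W ≤ dv W' := fun _ ⟨n, hn, hg⟩ => ⟨n, hn, h hg⟩

theorem dv_dv {G : Type} [AddCommGroup G] {W : AddSubgroup G} {g : G} {n : ℕ} (hn : n ≠ 0)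
    (h : n • g ∈ dv W) : g ∈ dv W := by
  obtain ⟨m, hm, h'⟩ := h
  exact ⟨m * n, mul_ne_zero hm hn, by rw [mul_smul]; exact h'⟩

variable {G : Type} [AddCommGroup G] [UniformSpace G] [IsUniformAddGroup G]

theorem fgq {K : Set G} (hK : IsCompact K) (hgen : AddSubgroup.closure K = ⊤)
    (W : AddSubgroup G) (hW : IsOpen (W : Set G)) : Module.Finite ℤ (G ⧸ W) := by
  have hd : DiscreteTopology (G ⧸ W) := QuotientAddGroup.discreteTopology hW
  have hfin : ((QuotientAddGroup.mk' W) '' K).Finite :=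
    (hK.image (QuotientAddGroup.continuous_mk (N := W))).finite_of_discrete
  rw [Module.Finite.iff_addGroup_fg]
  refine ⟨⟨hfin.toFinset, ?_⟩⟩
  rw [Set.Finite.coe_toFinset, ← AddMonoidHom.map_closure, hgen]
  exact AddSubgroup.map_top_of_surjective _ (QuotientAddGroup.mk'_surjective W)

theorem tors {K : Set G} (hK : IsCompact K) (hgen : AddSubgroup.closure K = ⊤)
    (W : AddSubgroup G) (hW : IsOpen (W : Set G)) :
    ∃ S : Set (G ⧸ W), S.Finite ∧ ∀ g ∈ dv W, (QuotientAddGroup.mk g : G ⧸ W) ∈ S := by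
  have := fgq hK hgen W hW
  have h1 : Finite (Submodule.torsion ℤ (G ⧸ W)) :=
    Module.finite_of_fg_torsion _ (Submodule.torsion_isTorsion)
  refine ⟨(Submodule.torsion ℤ (G ⧸ W) : Set (G ⧸ W)), Set.toFinite _, ?_⟩
  rintro g ⟨n, hn, hg⟩
  change (QuotientAddGroup.mk g : G ⧸ W) ∈ Submodule.torsion ℤ (G ⧸ W)
  rw [Submodule.mem_torsion_iff]
  refine ⟨⟨(n : ℤ), mem_nonZeroDivisors_of_ne_zero (by exact_mod_cast hn)⟩, ?_⟩
  change ((n : ℤ)) • (QuotientAddGroup.mk g : G ⧸ W) = 0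
  rw [natCast_zsmul]
  exact (QuotientAddGroup.eq_zero_iff (n • g)).2 hg

variable [CompleteSpace G]

theorem star (hb : ∀ s ∈ nhds (0 : G), ∃ U : AddSubgroup G, IsOpen (U : Set G) ∧ (U : Set G) ⊆ s)
    {K : Set G} (hK : IsCompact K) (hgen : AddSubgroup.closure K = ⊤) (u : Ultrafilter G)
    (h : ∀ W : AddSubgroup G, IsOpen (W : Set G) → (dv W : Set G) ∈ u) :
    ∃ g, (u : Filter G) ≤ 𝓝 g ∧ ∀ W : AddSubgroup G, IsOpen (W : Set G) → g ∈ dv W := by
  have hc : Cauchy (u : Filter G) := by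
    rw [cauchy_iff]
    refine ⟨inferInstance, ?_⟩
    intro s hs
    rw [uniformity_eq_comap_nhds_zero, mem_comap] at hs
    obtain ⟨t, ht, hts⟩ := hs
    obtain ⟨W, hW, hWt⟩ := hb t ht
    obtain ⟨S, hS, hSW⟩ := tors hK hgen W hW
    have h1 : (⋃ q ∈ S, {g : G | (QuotientAddGroup.mk g : G ⧸ W) = q}) ∈ u := by
      refine mem_of_superset (h W hW) ?_
      intro g hg
      simp only [Set.mem_iUnion]
      exact ⟨_, hSW g hg, rfl⟩
    rw [Ultrafilter.finite_biUnion_mem_iff hS] at h1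
    obtain ⟨q, -, hq⟩ := h1
    refine ⟨_, hq, ?_⟩
    rintro ⟨x, y⟩ ⟨hx, hy⟩
    apply hts
    apply hWt
    have h2 : (QuotientAddGroup.mk x : G ⧸ W) = QuotientAddGroup.mk y := by
      rw [Set.mem_ofPred_eq] at hx hy
      rw [hx, hy]
    rw [QuotientAddGroup.eq] at h2
    change y - x ∈ W
    rw [sub_eq_neg_add]
    exact h2
  obtain ⟨g, hg⟩ := CompleteSpace.complete hc
  refine ⟨g, hg, ?_⟩
  intro W hW
  have h2 : IsOpen ((dv W : AddSubgroup G) : Set G) := AddSubgroup.isOpen_mono (le_dv W) hW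
  have h3 : IsClosed ((dv W : AddSubgroup G) : Set G) := AddSubgroup.isClosed_of_isOpen _ h2
  have h4 : g ∈ closure ((dv W : AddSubgroup G) : Set G) :=
    mem_closure_iff_ultrafilter.2 ⟨u, h W hW, hg⟩
  rwa [h3.closure_eq] at h4

theorem pureBasis
    (hb : ∀ s ∈ nhds (0 : G), ∃ U : AddSubgroup G, IsOpen (U : Set G) ∧ (U : Set G) ⊆ s)
    {K : Set G} (hK : IsCompact K) (hgen : AddSubgroup.closure K = ⊤)
    (hc : ∀ H : AddSubgroup G, IsCompact (H : Set G) → H = ⊥)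
    (U : AddSubgroup G) (hU : IsOpen (U : Set G)) :
    ∃ U' : AddSubgroup G, IsOpen (U' : Set G) ∧ dv U' ≤ U := by
  have hH : (⨅ i : {W : AddSubgroup G // IsOpen (W : Set G)}, dv i.1) = ⊥ := by
    apply hc
    rw [isCompact_iff_ultrafilter_le_nhds]
    intro f hf
    rw [le_principal_iff] at hf
    obtain ⟨g, hg, hg'⟩ := star hb hK hgen f (fun W hW => mem_of_superset hf (by
      intro x hx
      exact (AddSubgroup.mem_iInf.1 hx) ⟨W, hW⟩))
    exact ⟨g, AddSubgroup.mem_iInf.2 (fun i => hg' i.1 i.2), hg⟩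
  by_contra hcon
  push Not at hcon
  have hne : ∀ i : {W : AddSubgroup G // IsOpen (W : Set G)},
      ((dv i.1 : Set G) \ U).Nonempty := by
    intro i
    have := hcon i.1 i.2
    rw [SetLike.not_le_iff_exists] at this
    obtain ⟨g, hg, hg'⟩ := this
    exact ⟨g, hg, hg'⟩
  have hn : Nonempty {W : AddSubgroup G // IsOpen (W : Set G)} := ⟨⟨U, hU⟩⟩
  have hF : (⨅ i : {W : AddSubgroup G // IsOpen (W : Set G)},
      𝓟 ((dv i.1 : Set G) \ U)).NeBot := by
    apply iInf_neBot_of_directed'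
    · rintro ⟨W, hW⟩ ⟨W', hW'⟩
      refine ⟨⟨W ⊓ W', hW.inter hW'⟩, ?_, ?_⟩
      · exact principal_mono.2 (Set.sdiff_subset_sdiff_left (dv_mono inf_le_left))
      · exact principal_mono.2 (Set.sdiff_subset_sdiff_left (dv_mono inf_le_right))
    · intro i
      exact principal_neBot_iff.2 (hne i)
  let u : Ultrafilter G := Ultrafilter.of (⨅ i : {W : AddSubgroup G // IsOpen (W : Set G)},
      𝓟 ((dv i.1 : Set G) \ U))
  have hu : ∀ W : AddSubgroup G, IsOpen (W : Set G) → (dv W : Set G) \ U ∈ u := by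
    intro W hW
    exact Ultrafilter.of_le _ (mem_iInf_of_mem ⟨W, hW⟩ (mem_principal_self _))
  obtain ⟨g, hg, hg'⟩ := star hb hK hgen u
    (fun W hW => mem_of_superset (hu W hW) Set.sdiff_subset)
  have hg0 : g = 0 := by
    have : g ∈ (⨅ i : {W : AddSubgroup G // IsOpen (W : Set G)}, dv i.1) :=
      AddSubgroup.mem_iInf.2 (fun i => hg' i.1 i.2)
    rw [hH] at this
    exact this
  subst hg0
  have h1 : (U : Set G) ∈ u := hg (hU.mem_nhds U.zero_mem)
  have h2 : (U : Set G)ᶜ ∈ u := mem_of_superset (hu U hU) (fun x hx => hx.2)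
  exact (Ultrafilter.compl_mem_iff_notMem.1 h2) h1

end Pool.Agent.H2.PD
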