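import Mathlib
import Pool.Agent.H2.PD1

namespace Pool.Agent.H2.PD

open Filter Topology Uniformity

variable {G : Type} [AddCommGroup G]

theorem tf {V : AddSubgroup G} (hV : ∀ (g : G) (n : ℕ), n ≠ 0 → n • g ∈ V → g ∈ V) :
    Module.IsTorsionFree ℤ (G ⧸ V) := by
  refine Module.IsTorsionFree.of_smul_eq_zero ?_
  intro r m h
  obtain ⟨g, rfl⟩ := QuotientAddGroup.mk_surjective m
  by_cases hr : r = 0
  · exact Or.inl hr
  · right
    have h1 : r • g ∈ V := (QuotientAddGroup.eq_zero_iff (r • g)).1 h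
    have h2 : r.natAbs • g ∈ V := by
      rcases Int.natAbs_eq r with h3 | h3
      · rw [← natCast_zsmul, ← h3]; exact h1
      · have : ((r.natAbs : ℕ) : ℤ) = -r := by omega
        rw [← natCast_zsmul, this, neg_smul]; exact neg_mem h1
    exact (QuotientAddGroup.eq_zero_iff g).2 (hV g _ (Int.natAbs_ne_zero.2 hr) h2)

variable [UniformSpace G] [IsUniformAddGroup G]

theorem cont_of_ker {χ : G →+ ℤ} {V : AddSubgroup G} (hV : IsOpen (V : Set G))
    (h : ∀ v ∈ V, χ v = 0) : Continuous χ := by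
  apply continuous_of_continuousAt_zero χ
  have : (fun _ : G => (0 : ℤ)) =ᶠ[𝓝 0] χ := by
    filter_upwards [hV.mem_nhds V.zero_mem] with v hv
    exact (h v hv).symm
  exact continuousAt_const.congr this

/-- restriction to a subset -/
def rho (K : Set G) (χ : G →+ ℤ) (h : Continuous χ) : LocallyConstant K ℤ :=
  ⟨fun k => χ k.1, (IsLocallyConstant.iff_continuous _).2 (h.comp continuous_subtype_val)⟩

theorem rho_apply (K : Set G) (χ : G →+ ℤ) (h : Continuous χ) (k : K) :
    rho K χ h k = χ k.1 := rfl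

theorem bdd {K : Set G} (hK : IsCompact K) (χ : G →+ ℤ) (h : Continuous χ) :
    ∃ M : ℕ, ∀ k ∈ K, |χ k| ≤ M := by
  have hfin : (χ '' K).Finite := (hK.image h).finite_of_discrete
  obtain ⟨B, hB⟩ := (hfin.image (fun z : ℤ => |z|)).bddAbove
  refine ⟨B.toNat, ?_⟩
  intro k hk
  have h1 : |χ k| ≤ B := hB ⟨χ k, ⟨k, hk, rfl⟩, rfl⟩
  exact h1.trans (Int.self_le_toNat B)

omit [UniformSpace G] [IsUniformAddGroup G] in
theorem bddg {K : Set G} {g : G} (hg : g ∈ AddSubgroup.closure K) :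
    ∃ N : ℕ, ∀ (χ : G →+ ℤ) (M : ℕ), (∀ k ∈ K, |χ k| ≤ M) → |χ g| ≤ N * M := by
  induction hg using AddSubgroup.closure_induction with
  | mem x hx => exact ⟨1, fun χ M h => by simpa using h x hx⟩
  | zero => exact ⟨0, fun χ M h => by simp⟩
  | add x y _ _ hx hy =>
    obtain ⟨N, hN⟩ := hx
    obtain ⟨N', hN'⟩ := hy
    refine ⟨N + N', fun χ M h => ?_⟩
    rw [map_add]
    have h1 := hN χ M h
    have h2 := hN' χ M h
    push_cast
    calc |χ x + χ y| ≤ |χ x| + |χ y| := abs_add_le _ _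
      _ ≤ N * M + N' * M := add_le_add h1 h2
      _ = (N + N') * M := by ring
  | neg x _ hx =>
    obtain ⟨N, hN⟩ := hx
    exact ⟨N, fun χ M h => by rw [map_neg, abs_neg]; exact hN χ M h⟩

theorem coords {K : Set G} (hK : IsCompact K) (hgen : AddSubgroup.closure K = ⊤)
    {V : AddSubgroup G} (hVo : IsOpen (V : Set G))
    (hV : ∀ (g : G) (n : ℕ), n ≠ 0 → n • g ∈ V → g ∈ V) :
    ∃ (n : ℕ) (e : Fin n → G) (c : Fin n → (G →+ ℤ)), (∀ i, ∀ v ∈ V, c i v = 0) ∧
      (∀ i, Continuous (c i)) ∧ (∀ g, g - ∑ i, c i g • e i ∈ V) ∧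
      (∀ i j, c i (e j) = if i = j then 1 else 0) := by
  have h1 := fgq hK hgen V hVo
  have h2 := tf hV
  obtain ⟨n, β⟩ := Module.basisOfFiniteTypeTorsionFree' (R := ℤ) (M := G ⧸ V)
  choose e he using fun i => QuotientAddGroup.mk_surjective (β i)
  have hker : ∀ i, ∀ v ∈ V, ((β.coord i).toAddMonoidHom.comp (QuotientAddGroup.mk' V)) v = 0 := by
    intro i v hv
    have : (QuotientAddGroup.mk' V) v = 0 := (QuotientAddGroup.eq_zero_iff v).2 hv
    rw [AddMonoidHom.comp_apply, this, map_zero]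
  refine ⟨n, e, fun i => (β.coord i).toAddMonoidHom.comp (QuotientAddGroup.mk' V), hker,
    fun i => cont_of_ker hVo (hker i), ?_, ?_⟩
  · intro g
    rw [← QuotientAddGroup.eq_zero_iff]
    have h3 : (QuotientAddGroup.mk' V) (g - ∑ i, ((β.coord i).toAddMonoidHom.comp
        (QuotientAddGroup.mk' V)) g • e i) = 0 := by
      rw [map_sub, map_sum, sub_eq_zero]
      conv_lhs => rw [← β.sum_repr ((QuotientAddGroup.mk' V) g)]
      apply Finset.sum_congr rfl
      intro i _
      rw [map_zsmul]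
      change _ = _ • (QuotientAddGroup.mk (e i) : G ⧸ V)
      rw [he]
      rfl
    exact h3
  · intro i j
    change β.coord i (QuotientAddGroup.mk (e j) : G ⧸ V) = _
    rw [he, Module.Basis.coord_apply, Module.Basis.repr_self, Finsupp.single_apply]
    simp only [eq_comm]

theorem realV {K : Set G} (hK : IsCompact K) (hgen : AddSubgroup.closure K = ⊤)
    (φ : LocallyConstant K ℤ →ₗ[ℤ] ℤ) {V : AddSubgroup G} (hVo : IsOpen (V : Set G))
    (hV : ∀ (g : G) (n : ℕ), n ≠ 0 → n • g ∈ V → g ∈ V) :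
    ∃ g : G, ∀ (χ : G →+ ℤ) (h : Continuous χ), (∀ v ∈ V, χ v = 0) → χ g = φ (rho K χ h) := by
  obtain ⟨n, e, c, hc1, hc2, hc3, hc4⟩ := coords hK hgen hVo hV
  refine ⟨∑ i, φ (rho K (c i) (hc2 i)) • e i, ?_⟩
  intro χ h hχ
  have hχg : ∀ g, χ g = ∑ i, c i g * χ (e i) := by
    intro g
    have := hχ _ (hc3 g)
    rw [map_sub, map_sum, sub_eq_zero] at this
    rw [this]
    apply Finset.sum_congr rfl
    intro i _
    rw [map_zsmul, smul_eq_mul]
  have hrho : rho K χ h = ∑ i, χ (e i) • rho K (c i) (hc2 i) := by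
    ext k
    rw [rho_apply, hχg]
    have : (∑ i, χ (e i) • rho K (c i) (hc2 i)) k =
        ∑ i, (χ (e i) • rho K (c i) (hc2 i)) k := by
      have := congrFun (map_sum (LocallyConstant.coeFnAddMonoidHom (X := K) (Y := ℤ))
        (fun i => χ (e i) • rho K (c i) (hc2 i)) Finset.univ) k
      rw [Finset.sum_apply] at this
      exact this
    rw [this]
    apply Finset.sum_congr rfl
    intro i _
    rw [mul_comm]
    rfl
  rw [hrho, map_sum, map_sum]
  apply Finset.sum_congr rfl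
  intro i _
  rw [map_zsmul, map_zsmul, smul_eq_mul, smul_eq_mul, mul_comm]

end Pool.Agent.H2.PD
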