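import Mathlib
import Pool.Agent.H2.PD2

namespace Pool.Agent.H2.PD

open Filter Topology Uniformity

theorem dv_pure {G : Type} [AddCommGroup G] (U : AddSubgroup G) :
    ∀ (g : G) (n : ℕ), n ≠ 0 → n • g ∈ dv U → g ∈ dv U := fun _ _ hn h => dv_dv hn h

variable {G : Type} [AddCommGroup G] [UniformSpace G] [IsUniformAddGroup G] [CompleteSpace G]

theorem real
    (hb : ∀ s ∈ nhds (0 : G), ∃ U : AddSubgroup G, IsOpen (U : Set G) ∧ (U : Set G) ⊆ s)
    {K : Set G} (hK : IsCompact K) (hgen : AddSubgroup.closure K = ⊤)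
    (hc : ∀ H : AddSubgroup G, IsCompact (H : Set G) → H = ⊥)
    (φ : LocallyConstant K ℤ →ₗ[ℤ] ℤ) :
    ∃ g : G, ∀ (χ : G →+ ℤ) (h : Continuous χ), χ g = φ (rho K χ h) := by
  let ι := {V : AddSubgroup G // IsOpen (V : Set G) ∧
    ∀ (g : G) (n : ℕ), n ≠ 0 → n • g ∈ V → g ∈ V}
  let C : ι → Set G := fun V => {g | ∀ (χ : G →+ ℤ) (h : Continuous χ),
    (∀ v ∈ V.1, χ v = 0) → χ g = φ (rho K χ h)}
  have hιn : Nonempty ι := ⟨⟨⊤, isOpen_univ, fun _ _ _ _ => trivial⟩⟩
  have hCn : ∀ V : ι, (C V).Nonempty := by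
    intro V
    obtain ⟨g, hg⟩ := realV hK hgen φ V.2.1 V.2.2
    exact ⟨g, hg⟩
  have hF : (⨅ V : ι, 𝓟 (C V)).NeBot := by
    apply iInf_neBot_of_directed'
    · intro V V'
      refine ⟨⟨V.1 ⊓ V'.1, V.2.1.inter V'.2.1, fun g n hn h =>
        ⟨V.2.2 g n hn h.1, V'.2.2 g n hn h.2⟩⟩, ?_, ?_⟩
      · exact principal_mono.2 (fun g hg χ h hχ => hg χ h (fun v hv => hχ v hv.1))
      · exact principal_mono.2 (fun g hg χ h hχ => hg χ h (fun v hv => hχ v hv.2))
    · intro i
      exact principal_neBot_iff.2 (hCn i)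
  have hdiff : ∀ (V : ι) (x y : G), x ∈ C V → y ∈ C V → y - x ∈ V.1 := by
    intro V x y hx hy
    obtain ⟨n, e, c, hc1, hc2, hc3, hc4⟩ := coords hK hgen V.2.1 V.2.2
    have h1 := hc3 (y - x)
    have h2 : ∑ i, c i (y - x) • e i = 0 := by
      apply Finset.sum_eq_zero
      intro i _
      rw [map_sub, hx (c i) (hc2 i) (hc1 i), hy (c i) (hc2 i) (hc1 i), sub_self, zero_smul]
    rw [h2, sub_zero] at h1
    exact h1
  have hcau : Cauchy (⨅ V : ι, 𝓟 (C V)) := by
    rw [cauchy_iff]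
    refine ⟨hF, ?_⟩
    intro s hs
    rw [uniformity_eq_comap_nhds_zero, mem_comap] at hs
    obtain ⟨t, ht, hts⟩ := hs
    obtain ⟨W, hW, hWt⟩ := hb t ht
    obtain ⟨U', hU', hU'W⟩ := pureBasis hb hK hgen hc W hW
    let V : ι := ⟨dv U', AddSubgroup.isOpen_mono (le_dv U') hU', dv_pure U'⟩
    refine ⟨C V, mem_iInf_of_mem V (mem_principal_self _), ?_⟩
    rintro ⟨x, y⟩ ⟨hx, hy⟩
    apply hts
    apply hWt
    exact hU'W (hdiff V x y hx hy)
  obtain ⟨g, hg⟩ := CompleteSpace.complete hcau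
  refine ⟨g, ?_⟩
  intro χ h
  have hko : IsOpen ((χ.ker : AddSubgroup G) : Set G) := by
    have : ((χ.ker : AddSubgroup G) : Set G) = χ ⁻¹' {0} := by
      ext x; exact Iff.rfl
    rw [this]
    exact (isOpen_discrete _).preimage h
  let V : ι := ⟨χ.ker, hko, by
    intro g n hn hgn
    rw [AddMonoidHom.mem_ker, map_nsmul] at hgn
    rw [AddMonoidHom.mem_ker]
    rcases (smul_eq_zero.1 hgn) with h0 | h0
    · exact absurd h0 hn
    · exact h0⟩
  have h1 : C V ∈ (⨅ V : ι, 𝓟 (C V)) := mem_iInf_of_mem V (mem_principal_self _)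
  have h2 : {x | χ x = χ g} ∈ (⨅ V : ι, 𝓟 (C V)) := by
    apply hg
    exact ((isOpen_discrete {χ g}).preimage h).mem_nhds rfl
  obtain ⟨x, hx1, hx2⟩ := (hF.nonempty_of_mem (inter_mem h1 h2))
  have h3 : χ x = φ (rho K χ h) := hx1 χ h (fun v hv => hv)
  rw [← h3]
  exact hx2.symm

theorem seqex (P : ℕ → (ℕ → ℤ) → ℤ → Prop) (hP : ∀ n f, ∃ c, P n f c)
    (hloc : ∀ n f g c, (∀ m < n, f m = g m) → P n f c → P n g c) :
    ∃ c : ℕ → ℤ, ∀ n, P n c (c n) := by
  classical
  choose ch hch using hP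
  let F : ℕ → (ℕ → ℤ) := fun n => Nat.rec (fun _ => 0) (fun n f => Function.update f n (ch n f)) n
  have hF : ∀ n, F (n + 1) = Function.update (F n) n (ch n (F n)) := fun n => rfl
  let c : ℕ → ℤ := fun n => F (n + 1) n
  have hc : ∀ n, c n = ch n (F n) := by
    intro n
    change F (n + 1) n = _
    rw [hF, Function.update_self]
  have hst : ∀ n, ∀ m < n, F n m = c m := by
    intro n
    induction n with
    | zero => intro m hm; omega
    | succ n ih =>
      intro m hm
      by_cases h : m = n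
      · subst h; rfl
      · rw [hF, Function.update_of_ne h]
        exact ih m (by omega)
  refine ⟨c, fun n => ?_⟩
  rw [hc n]
  exact hloc n (F n) c _ (hst n) (hch n (F n))

theorem big (s a B : ℤ) (ha : a ≠ 0) : ∃ c : ℤ, B < |s + a * c| := by
  refine ⟨(|s| + |B| + 1) * a, ?_⟩
  have h1 : a * ((|s| + |B| + 1) * a) = (|s| + |B| + 1) * (a * a) := by ring
  have h2 : 1 ≤ a * a := by
    have := mul_self_pos.2 ha
    omega
  have h3 : (|s| + |B| + 1) ≤ (|s| + |B| + 1) * (a * a) := by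
    have h4 : 0 ≤ |s| + |B| + 1 := by positivity
    nlinarith
  rw [h1]
  have h5 := neg_abs_le s
  have h6 := le_abs_self B
  have h7 := le_abs_self (s + (|s| + |B| + 1) * (a * a))
  linarith

theorem diag
    (hb : ∀ s ∈ nhds (0 : G), ∃ U : AddSubgroup G, IsOpen (U : Set G) ∧ (U : Set G) ⊆ s)
    {K : Set G} (hK : IsCompact K) (hgen : AddSubgroup.closure K = ⊤)
    (hc : ∀ H : AddSubgroup G, IsCompact (H : Set G) → H = ⊥)
    {I : Type} (b : Module.Basis I ℤ (LocallyConstant K ℤ)) :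
    ∃ F : Finset I, ∀ (χ : G →+ ℤ) (h : Continuous χ), (b.repr (rho K χ h)).support ⊆ F := by
  classical
  by_contra hcon
  push Not at hcon
  have hcon' : ∀ F : Finset I, ∃ (χ : {χ : G →+ ℤ // Continuous χ}) (j : I),
      j ∈ (b.repr (rho K χ.1 χ.2)).support ∧ j ∉ F := by
    intro F
    obtain ⟨χ, h, hχ⟩ := hcon F
    rw [Finset.not_subset] at hχ
    obtain ⟨j, hj, hj'⟩ := hχ
    exact ⟨⟨χ, h⟩, j, hj, hj'⟩
  choose X J hJ1 hJ2 using hcon'
  let Fs : ℕ → Finset I := fun n => Nat.rec ∅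
    (fun _ F => F ∪ (b.repr (rho K (X F).1 (X F).2)).support) n
  have hFs : ∀ n, Fs (n + 1) = Fs n ∪ (b.repr (rho K (X (Fs n)).1 (X (Fs n)).2)).support :=
    fun n => rfl
  have hmono : Monotone Fs := monotone_nat_of_le_succ (fun n => by
    rw [hFs]; exact Finset.subset_union_left)
  let x : ℕ → LocallyConstant K ℤ := fun n => rho K (X (Fs n)).1 (X (Fs n)).2
  let j : ℕ → I := fun n => J (Fs n)
  have hj1 : ∀ n, b.repr (x n) (j n) ≠ 0 := fun n => Finsupp.mem_support_iff.1 (hJ1 (Fs n))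
  have hj2 : ∀ n, j n ∉ Fs n := fun n => hJ2 (Fs n)
  have hsup : ∀ n, (b.repr (x n)).support ⊆ Fs (n + 1) := fun n => by
    rw [hFs]; exact Finset.subset_union_right
  have hjF : ∀ n, j n ∈ Fs (n + 1) := fun n => hsup n (Finsupp.mem_support_iff.2 (hj1 n))
  have hlt : ∀ m n, m < n → j m ≠ j n := by
    intro m n hmn heq
    apply hj2 n
    rw [← heq]
    exact hmono (by omega : m + 1 ≤ n) (hjF m)
  have hinj : Function.Injective j := by
    intro m n heq
    rcases lt_trichotomy m n with h | h | h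
    · exact absurd heq (hlt m n h)
    · exact h
    · exact absurd heq.symm (hlt n m h)
  have hzero : ∀ m n, n < m → b.repr (x n) (j m) = 0 := by
    intro m n hnm
    by_contra h0
    exact hj2 m (hmono (by omega : n + 1 ≤ m) (hsup n (Finsupp.mem_support_iff.2 h0)))
  choose M hM using fun n => bdd hK (X (Fs n)).1 (X (Fs n)).2
  obtain ⟨c, hcn⟩ := seqex (fun n f v => (n : ℤ) * M n <
    |(∑ m ∈ Finset.range n, b.repr (x n) (j m) * f m) + b.repr (x n) (j n) * v|)
    (fun n f => big _ _ _ (hj1 n)) (by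
      intro n f g v hfg h
      have : ∑ m ∈ Finset.range n, b.repr (x n) (j m) * f m =
          ∑ m ∈ Finset.range n, b.repr (x n) (j m) * g m := by
        apply Finset.sum_congr rfl
        intro m hm
        rw [hfg m (Finset.mem_range.1 hm)]
      rw [← this]
      exact h)
  let f : I → ℤ := fun i => if h : ∃ n, j n = i then c h.choose else 0
  have hf : ∀ n, f (j n) = c n := by
    intro n
    have h : ∃ m, j m = j n := ⟨n, rfl⟩
    have h2 : f (j n) = c h.choose := dif_pos h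
    rw [h2, hinj h.choose_spec]
  let φ : LocallyConstant K ℤ →ₗ[ℤ] ℤ := b.constr ℤ f
  have hφ : ∀ n, φ (x n) = (∑ m ∈ Finset.range n, b.repr (x n) (j m) * c m) +
      b.repr (x n) (j n) * c n := by
    intro n
    have h1 : φ (x n) = (b.repr (x n)).sum fun i a => a • f i := b.constr_apply ℤ f (x n)
    rw [h1, Finsupp.sum, ← Finset.sum_range_succ (fun m => b.repr (x n) (j m) * c m) n]
    have h2 : ∑ m ∈ Finset.range (n + 1), b.repr (x n) (j m) * c m =
        ∑ i ∈ (Finset.range (n + 1)).image j, b.repr (x n) i • f i := by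
      rw [Finset.sum_image (fun _ _ _ _ h => hinj h)]
      apply Finset.sum_congr rfl
      intro m _
      rw [hf, smul_eq_mul]
    rw [h2]
    have h3 : ∑ i ∈ (b.repr (x n)).support, b.repr (x n) i • f i =
        ∑ i ∈ (b.repr (x n)).support ∪ (Finset.range (n + 1)).image j, b.repr (x n) i • f i := by
      apply Finset.sum_subset Finset.subset_union_left
      intro i _ hi
      rw [Finsupp.notMem_support_iff.1 hi, zero_smul]
    have h4 : ∑ i ∈ (Finset.range (n + 1)).image j, b.repr (x n) i • f i =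
        ∑ i ∈ (b.repr (x n)).support ∪ (Finset.range (n + 1)).image j, b.repr (x n) i • f i := by
      apply Finset.sum_subset Finset.subset_union_right
      intro i _ hi
      by_cases h : ∃ m, j m = i
      · obtain ⟨m, rfl⟩ := h
        have hm : n < m := by
          by_contra hle
          exact hi (Finset.mem_image.2 ⟨m, Finset.mem_range.2 (by omega), rfl⟩)
        rw [hzero m n hm, zero_smul]
      · have : f i = 0 := dif_neg h
        rw [this, smul_zero]
    rw [h3, h4]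
  obtain ⟨g, hg⟩ := real hb hK hgen hc φ
  have hgK : g ∈ AddSubgroup.closure K := by rw [hgen]; trivial
  obtain ⟨N, hN⟩ := bddg hgK
  have h1 := hN (X (Fs N)).1 (M N) (hM N)
  rw [hg (X (Fs N)).1 (X (Fs N)).2] at h1
  have h2 := hcn N
  rw [← hφ N] at h2
  exact absurd h1 (not_le.2 h2)

end Pool.Agent.H2.PD
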