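import Mathlib

/-! First-order properties of groups (language of groups: multiplication, inverse, identity). -/

open FirstOrder FirstOrder.Language

namespace Pool.Agent.H2.PO

universe u

/-- The function symbols of the language of groups: product, inverse, identity. -/
inductive GrpFn : ℕ → Type
  | mul : GrpFn 2
  | inv : GrpFn 1
  | one : GrpFn 0

/-- The first-order language of groups. -/
def grpL : FirstOrder.Language.{0, 0} := ⟨GrpFn, fun _ => Empty⟩

/-- Every group is a structure for the language of groups. -/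
instance grpStr (G : Type u) [Group G] : grpL.Structure G where
  funMap := fun {_} f =>
    match f with
    | .mul => fun v => v 0 * v 1
    | .inv => fun v => (v 0)⁻¹
    | .one => fun _ => 1
  RelMap := fun {_} r => (r : Empty).elim

/-- definable terms -/
def FOT (t : ∀ (G : Type u) [Group G], (ℕ → G) → G) : Prop :=
  ∃ τ : grpL.Term ℕ, ∀ (G : Type u) [Group G] (v : ℕ → G), τ.realize v = t G v

/-- definable predicates -/
def FO (P : ∀ (G : Type u) [Group G], (ℕ → G) → Prop) : Prop :=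
  ∃ φ : grpL.Formula ℕ, ∀ (G : Type u) [Group G] (v : ℕ → G), φ.Realize v ↔ P G v

theorem FOT.var (i : ℕ) : FOT.{u} (fun _ _ v => v i) := ⟨Term.var i, fun _ _ _ => rfl⟩

theorem FOT.mul {s t : ∀ (G : Type u) [Group G], (ℕ → G) → G} (hs : FOT s) (ht : FOT t) :
    FOT.{u} (fun G _ v => s G v * t G v) := by
  obtain ⟨σ, hσ⟩ := hs
  obtain ⟨τ, hτ⟩ := ht
  refine ⟨Term.func (L := grpL) (GrpFn.mul : grpL.Functions 2) ![σ, τ], fun G _ v => ?_⟩
  rw [Term.realize_func]
  show (![σ, τ] 0).realize v * (![σ, τ] 1).realize v = _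
  simp [hσ, hτ]

theorem FOT.inv {s : ∀ (G : Type u) [Group G], (ℕ → G) → G} (hs : FOT s) :
    FOT.{u} (fun G _ v => (s G v)⁻¹) := by
  obtain ⟨σ, hσ⟩ := hs
  refine ⟨Term.func (L := grpL) (GrpFn.inv : grpL.Functions 1) ![σ], fun G _ v => ?_⟩
  rw [Term.realize_func]
  show ((![σ] 0).realize v)⁻¹ = _
  simp [hσ]

theorem FOT.one : FOT.{u} (fun _ _ _ => 1) := by
  refine ⟨Term.func (L := grpL) (GrpFn.one : grpL.Functions 0) ![], fun G _ v => ?_⟩
  rw [Term.realize_func]
  rfl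

theorem FO.eq {s t : ∀ (G : Type u) [Group G], (ℕ → G) → G} (hs : FOT s) (ht : FOT t) :
    FO.{u} (fun G _ v => s G v = t G v) := by
  obtain ⟨σ, hσ⟩ := hs
  obtain ⟨τ, hτ⟩ := ht
  refine ⟨Term.equal σ τ, fun G _ v => ?_⟩
  rw [Formula.realize_equal, hσ, hτ]

theorem FO.not {P : ∀ (G : Type u) [Group G], (ℕ → G) → Prop} (h : FO P) :
    FO.{u} (fun G _ v => ¬ P G v) := by
  obtain ⟨φ, hφ⟩ := h
  exact ⟨φ.not, fun G _ v => by rw [Formula.realize_not, hφ]⟩

theorem FO.and {P Q : ∀ (G : Type u) [Group G], (ℕ → G) → Prop} (h : FO P) (h' : FO Q) :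
    FO.{u} (fun G _ v => P G v ∧ Q G v) := by
  obtain ⟨φ, hφ⟩ := h
  obtain ⟨ψ, hψ⟩ := h'
  exact ⟨φ ⊓ ψ, fun G _ v => by rw [Formula.realize_inf, hφ, hψ]⟩

theorem FO.imp {P Q : ∀ (G : Type u) [Group G], (ℕ → G) → Prop} (h : FO P) (h' : FO Q) :
    FO.{u} (fun G _ v => P G v → Q G v) := by
  obtain ⟨φ, hφ⟩ := h
  obtain ⟨ψ, hψ⟩ := h'
  exact ⟨φ.imp ψ, fun G _ v => by rw [Formula.realize_imp, hφ, hψ]⟩

/-- relabelling used for quantifiers -/
def shf : ℕ → ℕ ⊕ Fin 1
  | 0 => Sum.inr 0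
  | n + 1 => Sum.inl n

theorem FO.all {Q : ∀ (G : Type u) [Group G], (ℕ → G) → G → Prop}
    (h : FO (fun G _ v => Q G (fun n => v (n + 1)) (v 0))) :
    FO.{u} (fun G _ v => ∀ a, Q G v a) := by
  obtain ⟨φ, hφ⟩ := h
  refine ⟨(BoundedFormula.all (n := 0) (BoundedFormula.relabel (n := 1) (k := 0) shf φ)), ?_⟩
  intro G _ v
  show (∀ a : G, (BoundedFormula.relabel (n := 1) (k := 0) shf φ).Realize v
    (Fin.snoc default a : Fin 1 → G)) ↔ _
  refine forall_congr' fun a => ?_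
  rw [BoundedFormula.realize_relabel]
  have key := hφ G (fun n => Nat.casesOn n a v)
  have e1 : (Sum.elim v ((Fin.snoc default a : Fin 1 → G) ∘ Fin.castAdd 0) ∘ shf)
      = (fun n => (Nat.casesOn n a v : G)) := by
    funext n
    cases n with
    | zero => simp [shf, Fin.snoc]
    | succ m => simp [shf]
  rw [e1]
  unfold Formula.Realize at key
  have e2 : ((Fin.snoc default a : Fin 1 → G) ∘ Fin.natAdd 1 : Fin 0 → G) = default :=
    Subsingleton.elim _ _
  rw [e2]
  exact key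

theorem FO.ex {Q : ∀ (G : Type u) [Group G], (ℕ → G) → G → Prop}
    (h : FO (fun G _ v => Q G (fun n => v (n + 1)) (v 0))) :
    FO.{u} (fun G _ v => ∃ a, Q G v a) := by
  obtain ⟨φ, hφ⟩ := (FO.all (Q := fun G _ v a => ¬ Q G v a) h.not).not
  exact ⟨φ, fun G _ v => (hφ G v).trans (by simp only [not_forall, not_not])⟩

/-- A closed universal property is expressed by a sentence. -/
theorem FO.sentence {P : ∀ (G : Type u) [Group G], G → Prop}
    (h : FO (fun G _ v => P G (v 0))) :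
    ∃ φ : grpL.Sentence, ∀ (G : Type u) [Group G], (G ⊨ φ) ↔ ∀ a, P G a := by
  obtain ⟨φ, hφ⟩ := h
  refine ⟨(BoundedFormula.all (n := 0)
    (BoundedFormula.relabel (n := 1) (k := 0) (fun _ => Sum.inr 0 : ℕ → Empty ⊕ Fin 1) φ)), ?_⟩
  intro G _
  show (∀ a : G, (BoundedFormula.relabel (n := 1) (k := 0)
    (fun _ => Sum.inr 0 : ℕ → Empty ⊕ Fin 1) φ).Realize default
    (Fin.snoc default a : Fin 1 → G)) ↔ _
  refine forall_congr' fun a => ?_
  rw [BoundedFormula.realize_relabel]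
  have key := hφ G (fun _ => a)
  have e1 : (Sum.elim (default : Empty → G) ((Fin.snoc default a : Fin 1 → G) ∘ Fin.castAdd 0) ∘
      (fun _ => Sum.inr 0 : ℕ → Empty ⊕ Fin 1)) = (fun _ => a) := by
    funext n
    simp [Fin.snoc]
  rw [e1]
  unfold Formula.Realize at key
  have e2 : ((Fin.snoc default a : Fin 1 → G) ∘ Fin.natAdd 1 : Fin 0 → G) = default :=
    Subsingleton.elim _ _
  rw [e2]
  exact key

/-- `g` moves every conjugate of `w` up by a conjugate of `w`. -/
def Up {G : Type u} [Group G] (w g : G) : Prop :=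
  ∀ k : G, ∃ k' : G, g * (k * w * k⁻¹) * g⁻¹ * (k * w * k⁻¹)⁻¹ = k' * w * k'⁻¹

/-- The property of groups expressed by our sentence. -/
def Theta {G : Type u} [Group G] (w : G) : Prop :=
  (∀ g h : G, Up w g → Up w h → Up w (g * h)) → ¬ Up w (1 : G) →
    ∀ a x y : G, Up w (a * (x * a * x⁻¹)) → ¬ Up w (a * (y * a * y⁻¹))⁻¹

theorem fo_Theta : FO.{u} (fun _ _ v => Theta (v 0)) := by
  unfold Theta Up
  repeat first
    | exact FOT.var _
    | exact FOT.one
    | refine FOT.mul ?_ ?_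
    | refine FOT.inv ?_
    | refine FO.not ?_
    | refine FO.and ?_ ?_
    | refine FO.ex ?_
    | refine FO.imp ?_ ?_
    | refine FO.all ?_
    | refine FO.eq ?_ ?_

end Pool.Agent.H2.PO
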