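import Pool.Agent.H2.PO1

/-! Pro-orderable groups satisfy the sentence; semidirect products and cones. -/

namespace Pool.Agent.H2.PO

universe u

/-- A partial ordering of a group: a partial order invariant under multiplication on both
sides. -/
structure IsPO {G : Type u} [Group G] (le : G → G → Prop) : Prop where
  refl : ∀ a, le a a
  antisymm : ∀ a b, le a b → le b a → a = b
  trans : ∀ a b c, le a b → le b c → le a c
  mul : ∀ a b x y, le a b → le (x * a * y) (x * b * y)

/-- A linear ordering of a group. -/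
def IsLO {G : Type u} [Group G] (le : G → G → Prop) : Prop :=
  IsPO le ∧ ∀ a b, le a b ∨ le b a

/-- The group admits a linear ordering. -/
def Orderable (G : Type u) [Group G] : Prop := ∃ le : G → G → Prop, IsLO le

/-- Every partial ordering extends to a linear ordering. -/
def ProOrderable (G : Type u) [Group G] : Prop :=
  ∀ le : G → G → Prop, IsPO le → ∃ le' : G → G → Prop, IsLO le' ∧ ∀ a b, le a b → le' a b

section
variable {G : Type u} [Group G]

theorem Up_conj {w g : G} (h : Up w g) (x : G) : Up w (x * g * x⁻¹) := by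
  intro k
  obtain ⟨k', hk'⟩ := h (x⁻¹ * k)
  refine ⟨x * k', ?_⟩
  have : x * g * x⁻¹ * (k * w * k⁻¹) * (x * g * x⁻¹)⁻¹ * (k * w * k⁻¹)⁻¹ =
      x * (g * (x⁻¹ * k * w * (x⁻¹ * k)⁻¹) * g⁻¹ * (x⁻¹ * k * w * (x⁻¹ * k)⁻¹)⁻¹) * x⁻¹ := by
    group
  rw [this, hk']; group

theorem theta_of_pro (h : ProOrderable G) (w : G) : Theta w := by
  intro hmul hone a x y h1 h2
  have hPO : IsPO (fun g k : G => g = k ∨ Up w (g⁻¹ * k)) := by
    refine ⟨fun a => Or.inl rfl, ?_, ?_, ?_⟩
    · rintro a b (h1 | h1) (h2 | h2)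
      · exact h1
      · exact h1
      · exact h2.symm
      · exfalso
        apply hone
        have := hmul _ _ h1 h2
        have e : a⁻¹ * b * (b⁻¹ * a) = 1 := by group
        rwa [e] at this
    · rintro a b c (h1 | h1) (h2 | h2)
      · exact Or.inl (h1.trans h2)
      · rw [h1]; exact Or.inr h2
      · rw [← h2]; exact Or.inr h1
      · right
        have := hmul _ _ h1 h2
        have e : a⁻¹ * b * (b⁻¹ * c) = a⁻¹ * c := by group
        rwa [e] at this
    · rintro a b x y (h1 | h1)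
      · left; rw [h1]
      · right
        have := Up_conj h1 y⁻¹
        have e : (x * a * y)⁻¹ * (x * b * y) = y⁻¹ * (a⁻¹ * b) * y⁻¹⁻¹ := by group
        rwa [e]
  obtain ⟨le, ⟨⟨hr, ha, ht, hm⟩, htot⟩, hext⟩ := h _ hPO
  have e1 : le 1 (a * (x * a * x⁻¹)) := hext _ _ (Or.inr (by rwa [inv_one, one_mul]))
  have e2 : le 1 (a * (y * a * y⁻¹))⁻¹ := hext _ _ (Or.inr (by rwa [inv_one, one_mul]))
  have conj : ∀ b c z : G, le b c → le (z * b * z⁻¹) (z * c * z⁻¹) := fun b c z hbc => hm b c z z⁻¹ hbc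
  rcases htot 1 a with h3 | h3
  · have h4 := conj _ _ y h3
    rw [mul_one, mul_inv_cancel] at h4
    have h5 := hm _ _ a 1 h4
    rw [mul_one, mul_one, mul_one] at h5
    have h6 : le 1 (a * (y * a * y⁻¹)) := ht _ _ _ h3 h5
    have h7 := hm _ _ 1 (a * (y * a * y⁻¹)) e2
    rw [mul_one, one_mul, one_mul, inv_mul_cancel] at h7
    have h8 := ha _ _ h6 h7
    apply hone
    rw [← h8, inv_one] at h2
    exact h2
  · have h4 := conj _ _ x h3
    rw [mul_one, mul_inv_cancel] at h4
    have h5 := hm _ _ a 1 h4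
    rw [mul_one, mul_one, mul_one] at h5
    have h6 : le (a * (x * a * x⁻¹)) 1 := ht _ _ _ h5 h3
    have h8 := ha _ _ e1 h6
    apply hone
    rw [← h8] at h1
    exact h1

/-- positive cone of a linear ordering of a group -/
structure Cone (P : Set G) : Prop where
  mul : ∀ x ∈ P, ∀ y ∈ P, x * y ∈ P
  conj : ∀ x ∈ P, ∀ g, g * x * g⁻¹ ∈ P
  one : (1 : G) ∉ P
  tot : ∀ x, x = 1 ∨ x ∈ P ∨ x⁻¹ ∈ P

theorem Cone.orderable {P : Set G} (h : Cone P) : Orderable G := by
  refine ⟨fun a b => a = b ∨ a⁻¹ * b ∈ P, ⟨fun a => Or.inl rfl, ?_, ?_, ?_⟩, ?_⟩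
  · rintro a b (h1 | h1) (h2 | h2)
    · exact h1
    · exact h1
    · exact h2.symm
    · exfalso
      apply h.one
      have := h.mul _ h1 _ h2
      have e : a⁻¹ * b * (b⁻¹ * a) = 1 := by group
      rwa [e] at this
  · rintro a b c (h1 | h1) (h2 | h2)
    · exact Or.inl (h1.trans h2)
    · rw [h1]; exact Or.inr h2
    · rw [← h2]; exact Or.inr h1
    · right
      have := h.mul _ h1 _ h2
      have e : a⁻¹ * b * (b⁻¹ * c) = a⁻¹ * c := by group
      rwa [e] at this
  · rintro a b x y (h1 | h1)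
    · left; rw [h1]
    · right
      have := h.conj _ h1 y⁻¹
      have e : (x * a * y)⁻¹ * (x * b * y) = y⁻¹ * (a⁻¹ * b) * y⁻¹⁻¹ := by group
      rwa [e]
  · intro a b
    rcases h.tot (a⁻¹ * b) with h1 | h1 | h1
    · left; left
      exact (inv_mul_eq_one.1 h1)
    · exact Or.inl (Or.inr h1)
    · right; right
      have e : (a⁻¹ * b)⁻¹ = b⁻¹ * a := by group
      rwa [e] at h1

end

/-- Semidirect product of an abelian group (written additively) and a group acting on it. -/
@[ext] structure Sd (A Q : Type) where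
  a : A
  q : Q

section sd
variable {A Q : Type} [AddCommGroup A] [Group Q] [DistribMulAction Q A]

instance : Mul (Sd A Q) := ⟨fun x y => ⟨x.a + x.q • y.a, x.q * y.q⟩⟩
instance : One (Sd A Q) := ⟨⟨0, 1⟩⟩
instance : Inv (Sd A Q) := ⟨fun x => ⟨-(x.q⁻¹ • x.a), x.q⁻¹⟩⟩

@[simp] theorem Sd.mul_a (x y : Sd A Q) : (x * y).a = x.a + x.q • y.a := rfl
@[simp] theorem Sd.mul_q (x y : Sd A Q) : (x * y).q = x.q * y.q := rfl
@[simp] theorem Sd.one_a : (1 : Sd A Q).a = 0 := rfl
@[simp] theorem Sd.one_q : (1 : Sd A Q).q = 1 := rfl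
@[simp] theorem Sd.inv_a (x : Sd A Q) : (x⁻¹).a = -(x.q⁻¹ • x.a) := rfl
@[simp] theorem Sd.inv_q (x : Sd A Q) : (x⁻¹).q = x.q⁻¹ := rfl

instance Sd.group : Group (Sd A Q) :=
  Group.ofLeftAxioms
    (fun x y z => by ext <;> simp [mul_smul, add_assoc, mul_assoc])
    (fun x => by ext <;> simp)
    (fun x => by ext <;> simp)

/-- positive cone of an invariant linear ordering of a module -/
structure ACone (Q : Type) {A : Type} [AddCommGroup A] [Group Q] [DistribMulAction Q A]
    (P : Set A) : Prop where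
  add : ∀ x ∈ P, ∀ y ∈ P, x + y ∈ P
  smul : ∀ x ∈ P, ∀ q : Q, q • x ∈ P
  zero : (0 : A) ∉ P
  tot : ∀ x, x = 0 ∨ x ∈ P ∨ -x ∈ P

theorem cone_sd {P : Set A} {R : Set Q} (hP : ACone Q P) (hR : Cone R) :
    Cone {x : Sd A Q | x.q ∈ R ∨ (x.q = 1 ∧ x.a ∈ P)} := by
  refine ⟨?_, ?_, ?_, ?_⟩
  · rintro x (hx | ⟨hx, hx'⟩) y (hy | ⟨hy, hy'⟩)
    · left; exact hR.mul _ hx _ hy
    · left
      show x.q * y.q ∈ R
      rw [hy, mul_one]; exact hx
    · left
      show x.q * y.q ∈ R
      rw [hx, one_mul]; exact hy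
    · right
      refine ⟨?_, ?_⟩
      · show x.q * y.q = 1
        rw [hx, hy, one_mul]
      · show x.a + x.q • y.a ∈ P
        rw [hx, one_smul]
        exact hP.add _ hx' _ hy'
  · rintro x (hx | ⟨hx, hx'⟩) g
    · left; exact hR.conj _ hx g.q
    · right
      refine ⟨?_, ?_⟩
      · show g.q * x.q * g.q⁻¹ = 1
        rw [hx, mul_one, mul_inv_cancel]
      · show g.a + g.q • x.a + (g.q * x.q) • -(g.q⁻¹ • g.a) ∈ P
        rw [hx, mul_one, smul_neg, smul_inv_smul]
        have : g.a + g.q • x.a + -g.a = g.q • x.a := by abel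
        rw [this]
        exact hP.smul _ hx' _
  · rintro (h | ⟨-, h⟩)
    · exact hR.one h
    · exact hP.zero h
  · intro x
    rcases hR.tot x.q with h | h | h
    · rcases hP.tot x.a with h' | h' | h'
      · left; ext
        · exact h'
        · exact h
      · right; left; right; exact ⟨h, h'⟩
      · right; right; right
        refine ⟨?_, ?_⟩
        · show x.q⁻¹ = 1
          rw [h, inv_one]
        · show -(x.q⁻¹ • x.a) ∈ P
          rw [h, inv_one, one_smul]; exact h'
    · right; left; left; exact h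
    · right; right; left; exact h

end sd

end Pool.Agent.H2.PO
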