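import Pool.Agent.H2.PO2

/-! The example: an orderable group violating the sentence. -/

namespace Pool.Agent.H2.PO

/-- finitely supported integer sequences with the lexicographic order -/
def RR : Type := Lex (ℤ →₀ ℤ)

noncomputable instance : AddCommGroup RR := inferInstanceAs (AddCommGroup (ℤ →₀ ℤ))
noncomputable instance : LinearOrder RR := inferInstanceAs (LinearOrder (Lex (ℤ →₀ ℤ)))

/-- coefficient -/
def cf (f : RR) (i : ℤ) : ℤ := (show ℤ →₀ ℤ from f) i

theorem RR.ext {f g : RR} (h : ∀ i, cf f i = cf g i) : f = g :=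
  Finsupp.ext (f := (show ℤ →₀ ℤ from f)) (g := (show ℤ →₀ ℤ from g)) h

@[simp] theorem cf_add (f g : RR) (i : ℤ) : cf (f + g) i = cf f i + cf g i := rfl
@[simp] theorem cf_zero (i : ℤ) : cf 0 i = 0 := rfl

theorem RR.lt_iff {f g : RR} :
    f < g ↔ ∃ i, (∀ j, j < i → cf f j = cf g j) ∧ cf f i < cf g i := Iff.rfl

/-- shift -/
noncomputable def sh (n : ℤ) (f : RR) : RR :=
  (Finsupp.equivMapDomain (Equiv.addRight n) (show ℤ →₀ ℤ from f) : ℤ →₀ ℤ)

@[simp] theorem cf_sh (n : ℤ) (f : RR) (i : ℤ) : cf (sh n f) i = cf f (i - n) := by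
  show (Finsupp.equivMapDomain (Equiv.addRight n) (show ℤ →₀ ℤ from f) : ℤ →₀ ℤ) i = _
  rw [Finsupp.equivMapDomain_apply]
  rfl

noncomputable instance : DistribMulAction (Multiplicative ℤ) RR where
  smul n f := sh (Multiplicative.toAdd n) f
  one_smul f := by
    apply RR.ext; intro i
    show cf (sh _ f) i = _
    simp
  mul_smul m n f := by
    apply RR.ext; intro i
    show cf (sh _ f) i = cf (sh _ (sh _ f)) i
    simp only [cf_sh, toAdd_mul]
    congr 1; ring
  smul_zero n := by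
    apply RR.ext; intro i
    show cf (sh _ 0) i = _
    simp
  smul_add n f g := by
    apply RR.ext; intro i
    show cf (sh _ (f + g)) i = cf (sh _ f + sh _ g) i
    simp

@[simp] theorem cf_smul (n : Multiplicative ℤ) (f : RR) (i : ℤ) :
    cf (n • f) i = cf f (i - Multiplicative.toAdd n) := cf_sh _ _ _

theorem smul_lt (n : Multiplicative ℤ) {f g : RR} (h : f < g) : n • f < n • g := by
  rw [RR.lt_iff] at h ⊢
  obtain ⟨i, h1, h2⟩ := h
  refine ⟨i + Multiplicative.toAdd n, ?_, ?_⟩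
  · intro j hj
    rw [cf_smul, cf_smul]
    exact h1 _ (by omega)
  · rw [cf_smul, cf_smul]
    simpa using h2

theorem add_lt_RR (f : RR) {g k : RR} (h : g < k) : f + g < f + k := by
  rw [RR.lt_iff] at h ⊢
  obtain ⟨i, h1, h2⟩ := h
  refine ⟨i, ?_, ?_⟩
  · intro j hj
    rw [cf_add, cf_add, h1 j hj]
  · rw [cf_add, cf_add]; omega

/-- alternating sum -/
noncomputable def zz : RR →+ ℤ :=
  (Finsupp.liftAddHom (fun i : ℤ => AddMonoidHom.mulRight (((-1 : ℤˣ) ^ i : ℤˣ) : ℤ)) :
    (ℤ →₀ ℤ) →+ ℤ)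

/-- sign -/
def sg (n : Multiplicative ℤ) : ℤ := (((-1 : ℤˣ) ^ (Multiplicative.toAdd n) : ℤˣ) : ℤ)

theorem sg_sq (n : Multiplicative ℤ) : sg n * sg n = 1 := by
  unfold sg
  rw [← Units.val_mul, ← zpow_add, ← two_mul, zpow_mul]
  simp

theorem zz_smul (n : Multiplicative ℤ) (f : RR) : zz (n • f) = sg n * zz f := by
  have key : ∀ g : ℤ →₀ ℤ,
      (Finsupp.liftAddHom (fun i : ℤ => AddMonoidHom.mulRight (((-1 : ℤˣ) ^ i : ℤˣ) : ℤ)) :
        (ℤ →₀ ℤ) →+ ℤ) (Finsupp.equivMapDomain (Equiv.addRight (Multiplicative.toAdd n)) g) =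
      sg n * (Finsupp.liftAddHom
        (fun i : ℤ => AddMonoidHom.mulRight (((-1 : ℤˣ) ^ i : ℤˣ) : ℤ)) : (ℤ →₀ ℤ) →+ ℤ) g := by
    intro g
    induction g using Finsupp.induction_linear with
    | zero => simp
    | add f g hf hg =>
      have : Finsupp.equivMapDomain (Equiv.addRight (Multiplicative.toAdd n)) (f + g) =
          Finsupp.equivMapDomain (Equiv.addRight (Multiplicative.toAdd n)) f +
          Finsupp.equivMapDomain (Equiv.addRight (Multiplicative.toAdd n)) g := by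
        ext i; simp [Finsupp.equivMapDomain_apply]
      rw [this, map_add, map_add, hf, hg]; ring
    | single a b =>
      rw [Finsupp.equivMapDomain_single]
      simp only [Finsupp.liftAddHom_apply_single, AddMonoidHom.coe_mulRight, Equiv.coe_addRight]
      unfold sg
      rw [zpow_add]
      push_cast
      ring
  exact key f

/-- the element with alternating sum one -/
noncomputable def ss : RR := (Finsupp.single 0 1 : ℤ →₀ ℤ)

theorem zz_ss : zz ss = 1 := by
  show (Finsupp.liftAddHom (fun i : ℤ => AddMonoidHom.mulRight (((-1 : ℤˣ) ^ i : ℤˣ) : ℤ)) :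
    (ℤ →₀ ℤ) →+ ℤ) (Finsupp.single 0 1) = 1
  simp

/-- the affine group -/
abbrev HH : Type := Sd RR (Multiplicative ℤ)

/-- action of the affine group on `RR` -/
noncomputable def act (h : HH) (w : RR) : RR := h.a + h.q • w

theorem act_one (w : RR) : act 1 w = w := by simp [act]

theorem act_mul (h k : HH) (w : RR) : act (h * k) w = act h (act k w) := by
  simp [act, mul_smul, add_assoc]

theorem act_inv (h : HH) (w : RR) : act h⁻¹ (act h w) = w := by
  rw [← act_mul, inv_mul_cancel, act_one]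

theorem act_inv' (h : HH) (w : RR) : act h (act h⁻¹ w) = w := by
  rw [← act_mul, mul_inv_cancel, act_one]

theorem act_lt (h : HH) {v w : RR} (hvw : v < w) : act h v < act h w :=
  add_lt_RR _ (smul_lt _ hvw)

theorem act_lt_iff (h : HH) {v w : RR} : act h v < act h w ↔ v < w := by
  constructor
  · intro hh
    have := act_lt h⁻¹ hh
    rwa [act_inv, act_inv] at this
  · exact act_lt h

theorem zz_act (h : HH) (w : RR) : zz (act h w) = zz h.a + sg h.q * zz w := by
  unfold act; rw [map_add, zz_smul]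

/-- the middle module -/
abbrev VV : Type := RR × ℝ

noncomputable instance : DistribMulAction HH VV where
  smul h v := (h.q • v.1, v.2 - (zz h.a : ℝ) * (zz (h.q • v.1) : ℝ))
  one_smul v := by
    show ((1 : Multiplicative ℤ) • v.1, v.2 - (zz (0 : RR) : ℝ) * _) = v
    simp
  mul_smul h k v := by
    show ((h.q * k.q) • v.1, v.2 - (zz (h.a + h.q • k.a) : ℝ) * (zz ((h.q * k.q) • v.1) : ℝ)) =
      (h.q • (k.q • v.1), v.2 - (zz k.a : ℝ) * (zz (k.q • v.1) : ℝ)
        - (zz h.a : ℝ) * (zz (h.q • (k.q • v.1)) : ℝ))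
    rw [mul_smul]
    refine Prod.ext rfl ?_
    show v.2 - (zz (h.a + h.q • k.a) : ℝ) * (zz (h.q • k.q • v.1) : ℝ) = _
    rw [map_add, zz_smul h.q k.a, zz_smul h.q (k.q • v.1)]
    have := congrArg (fun x : ℤ => (x : ℝ)) (sg_sq h.q)
    push_cast at this ⊢
    linear_combination (-(zz k.a : ℝ) * (zz (k.q • v.1) : ℝ)) * this
  smul_zero h := by
    show (h.q • (0 : RR), (0 : ℝ) - (zz h.a : ℝ) * (zz (h.q • (0 : RR)) : ℝ)) = 0
    simp
  smul_add h v w := by
    show (h.q • (v.1 + w.1), v.2 + w.2 - (zz h.a : ℝ) * (zz (h.q • (v.1 + w.1)) : ℝ)) =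
      (h.q • v.1 + h.q • w.1, (v.2 - (zz h.a : ℝ) * (zz (h.q • v.1) : ℝ)) +
        (w.2 - (zz h.a : ℝ) * (zz (h.q • w.1) : ℝ)))
    refine Prod.ext (smul_add _ _ _) ?_
    show v.2 + w.2 - (zz h.a : ℝ) * (zz (h.q • (v.1 + w.1)) : ℝ) = _
    rw [smul_add, map_add]
    push_cast
    ring

theorem VV_smul (h : HH) (v : VV) :
    h • v = (h.q • v.1, v.2 - (zz h.a : ℝ) * (zz (h.q • v.1) : ℝ)) := rfl

/-- the group acting on the top module -/
abbrev QQ : Type := Sd VV HH

/-- the exponent -/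
noncomputable def kap (q : QQ) (w : RR) : ℝ := q.a.2 + (zz q.a.1 : ℝ) * (zz w : ℝ)

theorem kap_one (w : RR) : kap 1 w = 0 := by simp [kap]

theorem kap_mul (q r : QQ) (w : RR) : kap (q * r) w = kap q w + kap r (act q.q⁻¹ w) := by
  unfold kap
  have h1 : (q * r).a.2 = q.a.2 + (r.a.2 - (zz q.q.a : ℝ) * (zz (q.q.q • r.a.1) : ℝ)) := rfl
  have h2 : (q * r).a.1 = q.a.1 + q.q.q • r.a.1 := rfl
  have h3 : zz w = zz q.q.a + sg q.q.q * zz (act q.q⁻¹ w) := by
    rw [← zz_act, act_inv']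
  rw [h1, h2, map_add, zz_smul]
  have h4 : (zz w : ℝ) = (zz q.q.a : ℝ) + (sg q.q.q : ℝ) * (zz (act q.q⁻¹ w) : ℝ) := by
    rw [h3]; push_cast; ring
  have := congrArg (fun x : ℤ => (x : ℝ)) (sg_sq q.q.q)
  push_cast at this ⊢
  rw [h4]
  linear_combination ((zz r.a.1 : ℝ) * (zz (act q.q⁻¹ w) : ℝ)) * this

/-- finitely supported real functions on `RR` -/
def UU : AddSubgroup (RR → ℝ) where
  carrier := {u | {w | u w ≠ 0}.Finite}
  zero_mem' := by simp
  add_mem' := by
    intro u v hu hv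
    refine (hu.union hv).subset ?_
    intro w hw
    by_contra hcon
    simp only [Set.mem_union, Set.mem_ofPred_eq, not_or, not_not] at hcon
    apply hw
    show u w + v w = 0
    rw [hcon.1, hcon.2, add_zero]
  neg_mem' := by
    intro u hu
    simpa using hu

theorem UU.ext {u v : UU} (h : ∀ w, u.1 w = v.1 w) : u = v := Subtype.ext (funext h)

noncomputable instance : DistribMulAction QQ UU where
  smul q u := ⟨fun w => Real.exp (kap q w) * u.1 (act q.q⁻¹ w), by
    have hu : {w | u.1 w ≠ 0}.Finite := u.2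
    refine (hu.image (act q.q)).subset ?_
    intro w hw
    refine ⟨act q.q⁻¹ w, ?_, act_inv' _ _⟩
    intro h0
    apply hw
    show Real.exp _ * u.1 _ = 0
    rw [h0, mul_zero]⟩
  one_smul u := by
    apply UU.ext; intro w
    show Real.exp (kap 1 w) * u.1 (act (1 : HH)⁻¹ w) = _
    rw [kap_one, inv_one, act_one, Real.exp_zero, one_mul]
  mul_smul q r u := by
    apply UU.ext; intro w
    show Real.exp (kap (q * r) w) * u.1 (act (q.q * r.q)⁻¹ w) =
      Real.exp (kap q w) * (Real.exp (kap r (act q.q⁻¹ w)) * u.1 (act r.q⁻¹ (act q.q⁻¹ w)))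
    rw [kap_mul, Real.exp_add, mul_inv_rev, act_mul, mul_assoc]
  smul_zero q := by
    apply UU.ext; intro w
    show Real.exp _ * (0 : ℝ) = 0
    rw [mul_zero]
  smul_add q u v := by
    apply UU.ext; intro w
    show Real.exp _ * (u.1 _ + v.1 _) = Real.exp _ * u.1 _ + Real.exp _ * v.1 _
    rw [mul_add]

theorem UU_smul (q : QQ) (u : UU) (w : RR) :
    (q • u).1 w = Real.exp (kap q w) * u.1 (act q.q⁻¹ w) := rfl

/-- our group -/
abbrev GG : Type := Sd UU QQ

end Pool.Agent.H2.PO
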