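import Pool.Agent.H2.PO3

/-! The example is orderable and violates the sentence. -/

namespace Pool.Agent.H2.PO

theorem cone_Z : Cone {n : Multiplicative ℤ | 0 < Multiplicative.toAdd n} := by
  refine ⟨?_, ?_, ?_, ?_⟩
  · intro x hx y hy
    exact add_pos (α := ℤ) hx hy
  · intro x hx g
    have : g * x * g⁻¹ = x := by rw [mul_comm g x, mul_inv_cancel_right]
    rw [this]; exact hx
  · intro h
    exact lt_irrefl (0 : ℤ) h
  · intro x
    rcases lt_trichotomy (0 : ℤ) (Multiplicative.toAdd x) with h | h | h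
    · exact Or.inr (Or.inl h)
    · exact Or.inl (congrArg Multiplicative.ofAdd h.symm)
    · right; right
      show 0 < -(Multiplicative.toAdd x)
      omega

theorem acone_RR : ACone (Multiplicative ℤ) {f : RR | 0 < f} := by
  refine ⟨?_, ?_, ?_, ?_⟩
  · intro x hx y hy
    have h1 : (0 : RR) < x := hx
    have h2 := add_lt_RR x (show (0 : RR) < y from hy)
    rw [add_zero] at h2
    exact h1.trans h2
  · intro x hx q
    have := smul_lt q (show (0 : RR) < x from hx)
    rwa [smul_zero] at this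
  · exact lt_irrefl (0 : RR)
  · intro x
    rcases lt_trichotomy (0 : RR) x with h | h | h
    · exact Or.inr (Or.inl h)
    · exact Or.inl h.symm
    · right; right
      have := add_lt_RR (-x) h
      rw [neg_add_cancel, add_zero] at this
      exact this

theorem acone_VV : ACone HH {v : VV | 0 < v.1 ∨ (v.1 = 0 ∧ 0 < v.2)} := by
  refine ⟨?_, ?_, ?_, ?_⟩
  · rintro x (hx | ⟨hx, hx'⟩) y (hy | ⟨hy, hy'⟩)
    · exact Or.inl (acone_RR.add _ hx _ hy)
    · left
      show 0 < x.1 + y.1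
      rw [hy, add_zero]; exact hx
    · left
      show 0 < x.1 + y.1
      rw [hx, zero_add]; exact hy
    · right
      exact ⟨by show x.1 + y.1 = 0; rw [hx, hy, add_zero], add_pos hx' hy'⟩
  · rintro x (hx | ⟨hx, hx'⟩) q
    · left
      exact acone_RR.smul _ hx q.q
    · right
      rw [VV_smul]
      refine ⟨?_, ?_⟩
      · show q.q • x.1 = 0
        rw [hx, smul_zero]
      · show 0 < x.2 - (zz q.a : ℝ) * (zz (q.q • x.1) : ℝ)
        rw [hx, smul_zero, map_zero]
        simpa using hx'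
  · rintro (h | ⟨-, h⟩)
    · exact lt_irrefl (0 : RR) h
    · exact lt_irrefl (0 : ℝ) h
  · intro x
    rcases acone_RR.tot x.1 with h | h | h
    · rcases lt_trichotomy (0 : ℝ) x.2 with h' | h' | h'
      · exact Or.inr (Or.inl (Or.inr ⟨h, h'⟩))
      · exact Or.inl (Prod.ext h h'.symm)
      · right; right; right
        refine ⟨by show -x.1 = 0; rw [h, neg_zero], ?_⟩
        show 0 < -x.2
        linarith
    · exact Or.inr (Or.inl (Or.inl h))
    · exact Or.inr (Or.inr (Or.inl h))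

theorem acone_UU : ACone QQ {u : UU | ∃ w, 0 < u.1 w ∧ ∀ w', w' < w → u.1 w' = 0} := by
  refine ⟨?_, ?_, ?_, ?_⟩
  · rintro u ⟨w, hw, hw'⟩ v ⟨x, hx, hx'⟩
    rcases lt_trichotomy w x with h | h | h
    · refine ⟨w, ?_, fun w' h' => ?_⟩
      · show 0 < u.1 w + v.1 w
        rw [hx' w h, add_zero]; exact hw
      · show u.1 w' + v.1 w' = 0
        rw [hw' w' h', hx' w' (h'.trans h), add_zero]
    · subst h
      refine ⟨w, add_pos hw hx, fun w' h' => ?_⟩
      show u.1 w' + v.1 w' = 0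
      rw [hw' w' h', hx' w' h', add_zero]
    · refine ⟨x, ?_, fun w' h' => ?_⟩
      · show 0 < u.1 x + v.1 x
        rw [hw' x h, zero_add]; exact hx
      · show u.1 w' + v.1 w' = 0
        rw [hw' w' (h'.trans h), hx' w' h', add_zero]
  · rintro u ⟨w, hw, hw'⟩ q
    refine ⟨act q.q w, ?_, fun w' h' => ?_⟩
    · rw [UU_smul, act_inv]
      exact mul_pos (Real.exp_pos _) hw
    · rw [UU_smul, hw', mul_zero]
      rw [← act_lt_iff q.q, act_inv']; exact h'
  · rintro ⟨w, hw, -⟩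
    exact lt_irrefl (0 : ℝ) hw
  · intro u
    by_cases hu : ∃ w, u.1 w ≠ 0
    · right
      have hfin : {w | u.1 w ≠ 0}.Finite := u.2
      obtain ⟨w, hw, hmin⟩ := hfin.toFinset.exists_min_image id (by
        obtain ⟨w, hw⟩ := hu
        exact ⟨w, hfin.mem_toFinset.2 hw⟩)
      rw [hfin.mem_toFinset] at hw
      have hmin' : ∀ w', w' < w → u.1 w' = 0 := by
        intro w' h'
        by_contra hne
        have := hmin w' (hfin.mem_toFinset.2 hne)
        exact absurd h' (not_lt.2 this)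
      rcases lt_or_gt_of_ne (show u.1 w ≠ 0 from hw) with h | h
      · right
        refine ⟨w, ?_, fun w' h' => ?_⟩
        · show 0 < -(u.1 w)
          linarith
        · show -(u.1 w') = 0
          rw [hmin' w' h', neg_zero]
      · left
        exact ⟨w, h, hmin'⟩
    · left
      push Not at hu
      exact UU.ext hu

theorem orderable_GG : Orderable GG :=
  (cone_sd acone_UU (cone_sd acone_VV (cone_sd acone_RR cone_Z))).orderable

open Classical in
/-- scaled point mass -/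
noncomputable def dl (c : ℝ) (w : RR) : UU :=
  ⟨fun x => if x = w then c else 0, by
    refine (Set.finite_singleton w).subset ?_
    intro x hx
    by_contra hne
    apply hx
    exact if_neg hne⟩

theorem dl_self (c : ℝ) (w : RR) : (dl c w).1 w = c := if_pos rfl
theorem dl_ne (c : ℝ) {w x : RR} (h : x ≠ w) : (dl c w).1 x = 0 := if_neg h

theorem smul_dl (q : QQ) (c : ℝ) (w : RR) :
    q • dl c w = dl (Real.exp (kap q (act q.q w)) * c) (act q.q w) := by
  apply UU.ext
  intro x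
  rw [UU_smul]
  by_cases hx : x = act q.q w
  · subst hx
    rw [act_inv, dl_self, dl_self]
  · rw [dl_ne _ hx, dl_ne, mul_zero]
    intro h
    apply hx
    rw [← h, act_inv']

/-- the parameter -/
noncomputable def w0 : GG := ⟨dl 1 0, 1⟩

theorem conj_w0 (k : GG) : k * w0 * k⁻¹ = ⟨k.q • dl 1 0, 1⟩ := by
  ext1
  · show k.a + k.q • dl 1 0 + (k.q * 1) • -(k.q⁻¹ • k.a) = k.q • dl 1 0
    rw [mul_one, smul_neg, smul_inv_smul]; abel
  · show k.q * 1 * k.q⁻¹ = 1
    rw [mul_one, mul_inv_cancel]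

/-- every positive point mass is conjugate to the parameter -/
theorem exists_conj {c : ℝ} (hc : 0 < c) (w : RR) :
    ∃ k : GG, k * w0 * k⁻¹ = ⟨dl c w, 1⟩ := by
  refine ⟨⟨0, ⟨(0, Real.log c), ⟨w, 1⟩⟩⟩, ?_⟩
  rw [conj_w0, smul_dl]
  have h1 : act (⟨w, 1⟩ : HH) 0 = w := by simp [act]
  show (⟨dl (Real.exp (kap ⟨(0, Real.log c), ⟨w, 1⟩⟩ (act ⟨w, 1⟩ 0)) * 1) (act ⟨w, 1⟩ 0), 1⟩ : GG) = _
  rw [h1]
  have h2 : kap ⟨(0, Real.log c), ⟨w, 1⟩⟩ w = Real.log c := by simp [kap]
  rw [h2, Real.exp_log hc, mul_one]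

theorem conj_form (k : GG) : ∃ c w, 0 < c ∧ k * w0 * k⁻¹ = ⟨dl c w, 1⟩ := by
  rw [conj_w0, smul_dl]
  exact ⟨_, _, by positivity, rfl⟩

theorem comm_form (g : GG) (u : UU) : g * ⟨u, 1⟩ * g⁻¹ * (⟨u, 1⟩ : GG)⁻¹ = ⟨g.q • u - u, 1⟩ := by
  ext1
  · show g.a + g.q • u + (g.q * 1) • -(g.q⁻¹ • g.a) + (g.q * 1 * g.q⁻¹) • -((1 : QQ)⁻¹ • u) =
      g.q • u - u
    rw [mul_one, smul_neg, smul_inv_smul, mul_inv_cancel, inv_one, one_smul, one_smul]
    abel
  · show g.q * 1 * g.q⁻¹ * (1 : QQ)⁻¹ = 1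
    rw [mul_one, mul_inv_cancel, inv_one, one_mul]

/-- description of `Up` in the example -/
theorem Up_iff (g : GG) : Up w0 g ↔ ∀ w, act g.q.q w = w ∧ 0 < kap g.q w := by
  constructor
  · intro h w
    obtain ⟨k, hk⟩ := exists_conj one_pos w
    obtain ⟨k', hk'⟩ := h k
    rw [hk, comm_form] at hk'
    obtain ⟨c, v, hc, hv⟩ := conj_form k'
    rw [hv, smul_dl] at hk'
    have h1 : dl (Real.exp (kap g.q (act g.q.q w)) * 1) (act g.q.q w) - dl 1 w = dl c v :=
      congrArg Sd.a hk'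
    have hact : act g.q.q w = w := by
      by_contra hne
      have h2 := congrArg (fun u : UU => u.1 w) h1
      have h3 : (dl (Real.exp (kap g.q (act g.q.q w)) * 1) (act g.q.q w)).1 w - (dl 1 w).1 w
        = (dl c v).1 w := h2
      rw [dl_self, dl_ne _ (Ne.symm hne)] at h3
      by_cases hwv : w = v
      · subst hwv
        rw [dl_self] at h3; linarith
      · rw [dl_ne _ hwv] at h3; linarith
    refine ⟨hact, ?_⟩
    have h2 := congrArg (fun u : UU => u.1 w) h1
    rw [hact] at h2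
    have h3 : (dl (Real.exp (kap g.q w) * 1) w).1 w - (dl 1 w).1 w = (dl c v).1 w := h2
    rw [dl_self, dl_self] at h3
    by_cases hwv : w = v
    · subst hwv
      rw [dl_self] at h3
      have : 1 < Real.exp (kap g.q w) := by linarith
      exact Real.one_lt_exp_iff.1 this
    · exfalso
      have h4 := congrArg (fun u : UU => u.1 v) h1
      rw [hact] at h4
      have h5 : (dl (Real.exp (kap g.q w) * 1) w).1 v - (dl 1 w).1 v = (dl c v).1 v := h4
      rw [dl_ne _ (Ne.symm hwv), dl_ne _ (Ne.symm hwv), dl_self] at h5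
      linarith
  · intro h k
    obtain ⟨c, w, hc, hk⟩ := conj_form k
    obtain ⟨hact, hkap⟩ := h w
    have hpos : 0 < Real.exp (kap g.q w) * c - c := by
      have := Real.one_lt_exp_iff.2 hkap
      nlinarith
    obtain ⟨k', hk'⟩ := exists_conj hpos w
    refine ⟨k', ?_⟩
    rw [hk, hk', comm_form, smul_dl, hact]
    ext1
    · apply UU.ext
      intro x
      show (dl (Real.exp (kap g.q w) * c) w).1 x - (dl c w).1 x = _
      by_cases hx : x = w
      · subst hx
        rw [dl_self, dl_self, dl_self]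
      · rw [dl_ne _ hx, dl_ne _ hx, dl_ne _ hx, sub_zero]
    · rfl

theorem not_theta : ¬ Theta w0 := by
  intro h
  have h1 : ∀ g k : GG, Up w0 g → Up w0 k → Up w0 (g * k) := by
    intro g k hg hk
    rw [Up_iff] at *
    intro w
    refine ⟨?_, ?_⟩
    · show act (g.q.q * k.q.q) w = w
      rw [act_mul, (hk w).1, (hg w).1]
    · show 0 < kap (g.q * k.q) w
      rw [kap_mul]
      have : act g.q.q⁻¹ w = w := by
        conv_lhs => rw [← (hg w).1]
        rw [act_inv]
      rw [this]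
      exact add_pos (hg w).2 (hk w).2
  have h2 : ¬ Up w0 (1 : GG) := by
    rw [Up_iff]
    intro h3
    have := (h3 0).2
    have h4 : kap (1 : GG).q 0 = 0 := kap_one 0
    rw [h4] at this
    exact lt_irrefl _ this
  -- the elements
  let a : GG := ⟨0, ⟨(ss, 1 / 4), 1⟩⟩
  let x : GG := ⟨0, ⟨0, ⟨0, Multiplicative.ofAdd 1⟩⟩⟩
  let y : GG := ⟨0, ⟨0, ⟨-ss, Multiplicative.ofAdd 1⟩⟩⟩
  have hsg : sg (Multiplicative.ofAdd 1) = -1 := by simp [sg]
  have hsq : (a * (x * a * x⁻¹)).q.q = 1 := by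
    show (1 : HH) * (x.q.q * 1 * x.q.q⁻¹) = 1
    group
  have hsq' : (a * (y * a * y⁻¹)).q.q = 1 := by
    show (1 : HH) * (y.q.q * 1 * y.q.q⁻¹) = 1
    group
  have hconj : ∀ g : GG, g.q.a = 0 → (a * (g * a * g⁻¹)).q.a =
      (ss, (1 / 4 : ℝ)) + g.q.q • ((ss, (1 / 4 : ℝ)) : VV) := by
    intro g hg
    show (ss, (1 / 4 : ℝ)) + (1 : HH) • ((g.q * a.q * g.q⁻¹).a) = _
    rw [one_smul]
    congr 1
    show (g.q.a + g.q.q • ((ss, (1 / 4 : ℝ)) : VV)) + (g.q.q * 1) • (-(g.q.q⁻¹ • g.q.a)) = _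
    rw [hg, smul_zero, neg_zero, smul_zero, zero_add, add_zero]
  refine h h1 h2 a x y ?_ ?_
  · rw [Up_iff]
    intro w
    rw [hsq]
    refine ⟨act_one w, ?_⟩
    unfold kap
    rw [hconj x rfl, VV_smul]
    have e1 : zz (x.q.q.q • ss) = -1 := by
      rw [zz_smul, zz_ss]
      show sg (Multiplicative.ofAdd 1) * 1 = -1
      rw [hsg]; rfl
    have e2 : (zz x.q.q.a : ℝ) = 0 := by
      show ((zz 0 : ℤ) : ℝ) = 0
      simp
    show 0 < ((1 / 4 : ℝ) + (1 / 4 - (zz x.q.q.a : ℝ) * (zz (x.q.q.q • ss) : ℝ))) +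
      ((zz (ss + x.q.q.q • ss) : ℤ) : ℝ) * (zz w : ℝ)
    rw [map_add, e1, zz_ss, e2]
    norm_num
  · rw [Up_iff]
    intro w
    have hinv : ((a * (y * a * y⁻¹))⁻¹).q.q = 1 := by
      show ((a * (y * a * y⁻¹)).q.q)⁻¹ = 1
      rw [hsq', inv_one]
    rw [hinv]
    refine ⟨act_one w, ?_⟩
    have hka : kap (a * (y * a * y⁻¹)).q w = -1 / 2 := by
      unfold kap
      rw [hconj y rfl, VV_smul]
      have e1 : zz (y.q.q.q • ss) = -1 := by
        rw [zz_smul, zz_ss]
        show sg (Multiplicative.ofAdd 1) * 1 = -1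
        rw [hsg]; rfl
      have e2 : (zz y.q.q.a : ℝ) = -1 := by
        show ((zz (-ss) : ℤ) : ℝ) = -1
        rw [map_neg, zz_ss]; norm_num
      show ((1 / 4 : ℝ) + (1 / 4 - (zz y.q.q.a : ℝ) * (zz (y.q.q.q • ss) : ℝ))) +
        ((zz (ss + y.q.q.q • ss) : ℤ) : ℝ) * (zz w : ℝ) = -1 / 2
      rw [map_add, e1, zz_ss, e2]
      norm_num
    have hsum : kap ((a * (y * a * y⁻¹)) * (a * (y * a * y⁻¹))⁻¹).q w = 0 := by
      rw [mul_inv_cancel]; exact kap_one w
    have hk := kap_mul (a * (y * a * y⁻¹)).q ((a * (y * a * y⁻¹))⁻¹).q w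
    have hk2 : kap ((a * (y * a * y⁻¹)).q * ((a * (y * a * y⁻¹))⁻¹).q) w = 0 := hsum
    rw [hk2, hka, hsq', inv_one, act_one] at hk
    linarith

end Pool.Agent.H2.PO
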