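import Mathlib

set_option autoImplicit false

set_option linter.unusedSectionVars false

namespace Pool.Agent.H2.QM

open Finsupp

variable {G : Type} [Group G] {φ : G → ℝ} {D : ℝ}

structure HQ (φ : G → ℝ) (D : ℝ) : Prop where
  defect : ∀ g h, |φ (g * h) - φ g - φ h| ≤ D
  hom : ∀ (g : G) (n : ℕ), φ (g ^ n) = n * φ g

theorem eq_zero_of {x C : ℝ} (h : ∀ n : ℕ, |(n : ℝ) * x| ≤ C) : x = 0 := by
  by_contra hx
  obtain ⟨n, hn⟩ := exists_nat_gt (C / |x|)
  have hx' : 0 < |x| := abs_pos.2 hx
  have := h n
  rw [abs_mul, Nat.abs_cast] at this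
  rw [div_lt_iff₀ hx'] at hn
  linarith

namespace HQ

theorem nonneg (h : HQ φ D) : 0 ≤ D := (abs_nonneg _).trans (h.defect 1 1)

theorem map_one (h : HQ φ D) : φ 1 = 0 := by
  have := h.hom 1 0
  simpa using this

theorem map_inv (h : HQ φ D) (g : G) : φ g⁻¹ = - φ g := by
  have : φ g⁻¹ + φ g = 0 := by
    apply eq_zero_of (C := D)
    intro n
    have h1 := h.defect (g⁻¹ ^ n) (g ^ n)
    have h2 : g⁻¹ ^ n * g ^ n = 1 := by rw [inv_pow]; simp
    rw [h2, h.map_one, h.hom, h.hom] at h1
    rw [← abs_neg]
    convert h1 using 2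
    ring
  linarith

theorem map_conj (h : HQ φ D) (x g : G) : φ (x * g * x⁻¹) = φ g := by
  have : φ (x * g * x⁻¹) - φ g = 0 := by
    apply eq_zero_of (C := 2 * D)
    intro n
    have h1 := h.defect (x * g ^ n) x⁻¹
    have h2 := h.defect x (g ^ n)
    rw [← conj_pow, h.hom, h.map_inv] at h1
    rw [h.hom] at h2
    rw [abs_le] at *
    constructor <;> nlinarith
  linarith

theorem map_comm (h : HQ φ D) (a b : G) : φ (a * b) = φ (b * a) := by
  have := h.map_conj b (a * b)
  rw [← this]; congr 1; group

end HQ

/-- letters -/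
abbrev Lam (G : Type) := G × Bool

def val (l : Lam G) : G := if l.2 then l.1 else l.1⁻¹
def linv (l : Lam G) : Lam G := (l.1, !l.2)
noncomputable def c (l : Lam G) : G →₀ ℝ := if l.2 then single l.1 1 else -single l.1 1

theorem val_linv (l : Lam G) : val (linv l) = (val l)⁻¹ := by
  rcases l with ⟨x, _ | _⟩ <;> simp [val, linv]

theorem c_linv (l : Lam G) : c (linv l) = - c l := by
  rcases l with ⟨x, _ | _⟩ <;> simp [c, linv]

theorem linv_linv (l : Lam G) : linv (linv l) = l := by
  rcases l with ⟨x, _ | _⟩ <;> simp [linv]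

/-- linear extension of `φ` -/
noncomputable def lin (φ : G → ℝ) : (G →₀ ℝ) →ₗ[ℝ] ℝ := Finsupp.linearCombination ℝ φ

theorem lin_single (φ : G → ℝ) (x : G) (a : ℝ) : lin φ (single x a) = a * φ x := by
  simp [lin]

theorem lin_c (h : HQ φ D) (l : Lam G) : lin φ (c l) = φ (val l) := by
  rcases l with ⟨x, _ | _⟩ <;> simp [c, val, lin_single, h.map_inv]

def pr (w : List (Lam G)) : G := (w.map val).prod
noncomputable def cw (w : List (Lam G)) : G →₀ ℝ := (w.map c).sum

@[simp] theorem pr_nil : pr ([] : List (Lam G)) = 1 := rfl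
@[simp] theorem cw_nil : cw ([] : List (Lam G)) = 0 := rfl
@[simp] theorem pr_cons (l : Lam G) (w : List (Lam G)) : pr (l :: w) = val l * pr w := by simp [pr]
@[simp] theorem cw_cons (l : Lam G) (w : List (Lam G)) : cw (l :: w) = c l + cw w := by simp [cw]
@[simp] theorem pr_append (w w' : List (Lam G)) : pr (w ++ w') = pr w * pr w' := by simp [pr]
@[simp] theorem cw_append (w w' : List (Lam G)) : cw (w ++ w') = cw w + cw w' := by simp [cw]

theorem word_bound (h : HQ φ D) : ∀ (w : List (Lam G)), w ≠ [] →
    |lin φ (cw w) - φ (pr w)| ≤ D * ((w.length : ℝ) - 1) := by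
  intro w
  induction w with
  | nil => intro h; exact absurd rfl h
  | cons l w ih =>
    intro _
    rcases eq_or_ne w [] with rfl | hw
    · simp [lin_c h]
    · have h1 := ih hw
      have h2 := h.defect (val l) (pr w)
      rw [cw_cons, pr_cons, map_add, lin_c h, List.length_cons]
      push_cast
      rw [abs_le] at *
      constructor <;> nlinarith

theorem split_same (h : HQ φ D) (w : List (Lam G)) (l : Lam G) (h1 : l ∈ w) (h2 : linv l ∈ w) :
    ∃ u v : List (Lam G), cw w = cw u + cw v ∧ w.length = u.length + v.length + 2 ∧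
      |φ (pr w) - φ (pr u) - φ (pr v)| ≤ D ∧ (pr w = 1 → φ (pr u) + φ (pr v) = 0) := by
  -- the two orders
  have key : ∀ (m : Lam G) (A B E : List (Lam G)), w = A ++ m :: B ++ linv m :: E →
      ∃ u v : List (Lam G), cw w = cw u + cw v ∧ w.length = u.length + v.length + 2 ∧
      |φ (pr w) - φ (pr u) - φ (pr v)| ≤ D ∧ (pr w = 1 → φ (pr u) + φ (pr v) = 0) := by
    rintro m A B E rfl
    refine ⟨B, E ++ A, ?_, ?_, ?_, ?_⟩
    · simp [c_linv]; abel
    · simp; ring
    · have e1 : φ (pr (A ++ m :: B ++ linv m :: E)) =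
          φ ((val m * pr B * (val m)⁻¹) * (pr E * pr A)) := by
        rw [← h.map_conj (pr A)⁻¹]
        congr 1
        simp [val_linv]
        group
      rw [e1]
      have h3 := h.defect (val m * pr B * (val m)⁻¹) (pr E * pr A)
      rw [h.map_conj] at h3
      simpa using h3
    · intro h4
      have h5 : pr (E ++ A) = val m * (pr B)⁻¹ * (val m)⁻¹ := by
        simp only [pr_append, pr_cons, val_linv] at h4 ⊢
        have : pr A * (val m * pr B) * ((val m)⁻¹ * pr E) = 1 := h4
        have h6 : pr E * pr A * (val m * pr B * (val m)⁻¹) = 1 := by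
          have h7 := congrArg (fun x => pr E * x * (pr E)⁻¹) this
          rw [mul_one, mul_inv_cancel] at h7
          rw [← h7]; group
        rw [mul_eq_one_iff_eq_inv.1 h6]
        group
      rw [h5, h.map_conj, h.map_inv]; ring
  obtain ⟨A, B, rfl⟩ := List.append_of_mem h1
  rw [List.mem_append, List.mem_cons] at h2
  rcases h2 with h2 | h2 | h2
  · obtain ⟨A1, A2, rfl⟩ := List.append_of_mem h2
    apply key (linv l) A1 A2 B
    rw [linv_linv]
  · exfalso
    have := congrArg Prod.snd h2
    simp [linv] at this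
  · obtain ⟨B1, B2, rfl⟩ := List.append_of_mem h2
    apply key l A B1 B2
    simp

theorem merge_diff (h : HQ φ D) (w w' : List (Lam G)) (l : Lam G) (h1 : l ∈ w) (h2 : linv l ∈ w') :
    ∃ u : List (Lam G), cw u = cw w + cw w' ∧ u.length + 2 = w.length + w'.length ∧
      |φ (pr u) - φ (pr w) - φ (pr w')| ≤ D ∧ (pr w = 1 → φ (pr u) = φ (pr w')) ∧
      (pr w' = 1 → φ (pr u) = φ (pr w)) ∧ (pr w = 1 → pr w' = 1 → pr u = 1) := by
  obtain ⟨A, B, rfl⟩ := List.append_of_mem h1
  obtain ⟨A', B', rfl⟩ := List.append_of_mem h2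
  have e0 : pr ((B ++ A) ++ (B' ++ A')) = ((pr A * val l)⁻¹ * pr (A ++ l :: B) * (pr A * val l)) *
      ((pr A')⁻¹ * pr (A' ++ linv l :: B') * pr A') := by
    simp [val_linv]
    group
  have c1 : φ ((pr A * val l)⁻¹ * pr (A ++ l :: B) * (pr A * val l)) = φ (pr (A ++ l :: B)) := by
    have := h.map_conj (pr A * val l)⁻¹ (pr (A ++ l :: B))
    rwa [inv_inv] at this
  have c2 : φ ((pr A')⁻¹ * pr (A' ++ linv l :: B') * pr A') = φ (pr (A' ++ linv l :: B')) := by
    have := h.map_conj (pr A')⁻¹ (pr (A' ++ linv l :: B'))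
    rwa [inv_inv] at this
  refine ⟨(B ++ A) ++ (B' ++ A'), ?_, ?_, ?_, ?_, ?_, ?_⟩
  · simp [c_linv]; abel
  · simp; ring
  · rw [e0, ← c1, ← c2]
    exact h.defect _ _
  · intro h3
    rw [e0, ← c2, h3]; simp
  · intro h3
    rw [e0, ← c1, h3]; simp
  · intro h3 h4
    rw [e0, h3, h4]; simp

/-- `ℓ¹` norm -/
noncomputable def N {S : Type} (x : S →₀ ℝ) : ℝ := x.sum fun _ a => |a|

theorem N_ge (x : G →₀ ℝ) (η : G → ℝ) (hη : ∀ g, |η g| ≤ 1) : lin η x ≤ N x := by
  rw [lin, Finsupp.linearCombination_apply, N]
  apply Finset.sum_le_sum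
  intro g _
  simp only [smul_eq_mul]
  calc x g * η g ≤ |x g * η g| := le_abs_self _
    _ = |x g| * |η g| := abs_mul _ _
    _ ≤ |x g| := mul_le_of_le_one_right (abs_nonneg _) (hη g)

theorem lin_cw_eq (η : G → ℝ) (w : List (Lam G)) (h : ∀ l ∈ w, lin η (c l) = 1) :
    lin η (cw w) = w.length := by
  induction w with
  | nil => simp
  | cons l w ih =>
    rw [cw_cons, map_add, h l (by simp), ih (fun l' hl' => h l' (by simp [hl'])), List.length_cons]
    push_cast; ring

/-- sums over a collection of (flagged) words -/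
noncomputable def CC (L : Multiset (List (Lam G) × Bool)) : G →₀ ℝ := (L.map fun e => cw e.1).sum
noncomputable def FF (φ : G → ℝ) (L : Multiset (List (Lam G) × Bool)) : ℝ :=
  (L.map fun e => φ (pr e.1)).sum
def len (L : Multiset (List (Lam G) × Bool)) : ℕ := (L.map fun e => e.1.length).sum
noncomputable def bon (L : Multiset (List (Lam G) × Bool)) : ℝ :=
  (L.map fun e => if e.2 then (1 : ℝ) else 0).sum

@[simp] theorem CC_cons (e : List (Lam G) × Bool) (L : Multiset (List (Lam G) × Bool)) :
    CC (e ::ₘ L) = cw e.1 + CC L := by simp [CC]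
@[simp] theorem FF_cons (e : List (Lam G) × Bool) (L : Multiset (List (Lam G) × Bool)) :
    FF φ (e ::ₘ L) = φ (pr e.1) + FF φ L := by simp [FF]
@[simp] theorem len_cons (e : List (Lam G) × Bool) (L : Multiset (List (Lam G) × Bool)) :
    len (e ::ₘ L) = e.1.length + len L := by simp [len]
@[simp] theorem bon_cons (e : List (Lam G) × Bool) (L : Multiset (List (Lam G) × Bool)) :
    bon (e ::ₘ L) = (if e.2 then (1 : ℝ) else 0) + bon L := by simp [bon]

theorem main_ineq (h : HQ φ D) : ∀ (n : ℕ) (L : Multiset (List (Lam G) × Bool)),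
    (∀ e ∈ L, e.2 = true → pr e.1 = 1 ∧ 2 ≤ e.1.length) → len L = n →
    |lin φ (CC L) - FF φ L| ≤ D * ((n + N (CC L)) / 2 - bon L) := by
  classical
  intro n
  induction n using Nat.strong_induction_on with
  | _ n ih =>
    intro L hL hn
    have hD := h.nonneg
    by_cases hex : ∃ l : Lam G, ∃ e ∈ L, ∃ e' ∈ L, l ∈ e.1 ∧ linv l ∈ e'.1
    · obtain ⟨l, e, he, e', he', h1, h2⟩ := hex
      by_cases hs : linv l ∈ e.1
      · obtain ⟨u, v, hc, hlen, hd, hone⟩ := split_same h e.1 l h1 hs
        obtain ⟨L', rfl⟩ := Multiset.exists_cons_of_mem he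
        have hL' := ih (n - 2) (by rw [len_cons] at hn; omega) ((u, false) ::ₘ (v, false) ::ₘ L')
          (by
            intro e'' he'' ht
            rw [Multiset.mem_cons, Multiset.mem_cons] at he''
            rcases he'' with rfl | rfl | he''
            · simp at ht
            · simp at ht
            · exact hL e'' (by simp [he'']) ht)
          (by
            simp only [len_cons] at hn ⊢
            omega)
        have hCC : CC ((u, false) ::ₘ (v, false) ::ₘ L') = CC (e ::ₘ L') := by
          simp only [CC_cons, hc]; abel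
        rw [hCC] at hL'
        have hn2 : ((n - 2 : ℕ) : ℝ) = n - 2 := by
          rw [Nat.cast_sub]; · simp
          rw [len_cons] at hn; omega
        rw [hn2] at hL'
        simp only [FF_cons, bon_cons] at hL' ⊢
        generalize lin φ (CC (e ::ₘ L')) = X at *
        generalize N (CC (e ::ₘ L')) = Y at *
        simp only [Bool.false_eq_true, if_false, zero_add] at hL'
        cases hf : e.2 with
        | false =>
          simp only [Bool.false_eq_true, if_false, zero_add]
          rw [abs_le] at *
          constructor <;> nlinarith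
        | true =>
          obtain ⟨hp, _⟩ := hL e (by simp) hf
          have h0 := hone hp
          rw [hp, h.map_one]
          simp only [if_true]
          rw [abs_le] at *
          constructor <;> nlinarith
      · have hne : e' ≠ e := by
          rintro rfl; exact hs h2
        obtain ⟨u, hc, hlen, hd, ho1, ho2, ho3⟩ := merge_diff h e.1 e'.1 l h1 h2
        obtain ⟨L1, rfl⟩ := Multiset.exists_cons_of_mem he
        have he'1 : e' ∈ L1 := by
          rw [Multiset.mem_cons] at he'
          exact he'.resolve_left hne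
        obtain ⟨L', rfl⟩ := Multiset.exists_cons_of_mem he'1
        have hL' := ih (n - 2) (by simp only [len_cons] at hn; omega) ((u, e.2 && e'.2) ::ₘ L')
          (by
            intro e'' he'' ht
            rw [Multiset.mem_cons] at he''
            rcases he'' with rfl | he''
            · simp only [Bool.and_eq_true] at ht
              obtain ⟨hp, hp2⟩ := hL e (by simp) ht.1
              obtain ⟨hp', hp2'⟩ := hL e' (by simp) ht.2
              exact ⟨ho3 hp hp', by simp only; omega⟩
            · exact hL e'' (by simp [he'']) ht)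
          (by
            simp only [len_cons] at hn ⊢
            omega)
        have hCC : CC ((u, e.2 && e'.2) ::ₘ L') = CC (e ::ₘ e' ::ₘ L') := by
          simp only [CC_cons, hc]; abel
        rw [hCC] at hL'
        have hn2 : ((n - 2 : ℕ) : ℝ) = n - 2 := by
          rw [Nat.cast_sub]; · simp
          simp only [len_cons] at hn; omega
        rw [hn2] at hL'
        simp only [FF_cons, bon_cons] at hL' ⊢
        generalize lin φ (CC (e ::ₘ e' ::ₘ L')) = X at *
        generalize N (CC (e ::ₘ e' ::ₘ L')) = Y at *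
        cases hf : e.2 with
        | false =>
          cases hf' : e'.2 with
          | false =>
            simp only [hf, hf', Bool.and_false, Bool.false_eq_true, if_false, zero_add] at hL' ⊢
            rw [abs_le] at *
            constructor <;> nlinarith
          | true =>
            simp only [hf, hf', Bool.and_true, Bool.false_eq_true, if_false, if_true, zero_add] at hL' ⊢
            obtain ⟨hp, _⟩ := hL e' (by simp) hf'
            have h0 := ho2 hp
            rw [hp, h.map_one]
            rw [h0] at hL'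
            rw [abs_le] at *
            constructor <;> nlinarith
        | true =>
          obtain ⟨hp, _⟩ := hL e (by simp) hf
          have h0 := ho1 hp
          cases hf' : e'.2 with
          | false =>
            simp only [hf, hf', Bool.and_false, Bool.false_eq_true, if_false, if_true, zero_add] at hL' ⊢
            rw [hp, h.map_one]
            rw [h0] at hL'
            rw [abs_le] at *
            constructor <;> nlinarith
          | true =>
            simp only [hf, hf', Bool.and_true, if_true] at hL' ⊢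
            rw [hp, h.map_one]
            rw [h0] at hL'
            rw [abs_le] at *
            constructor <;> nlinarith
    · push Not at hex
      -- no cancelling pair
      have hN : (n : ℝ) ≤ N (CC L) := by
        let η : G → ℝ := fun x => if ∃ e ∈ L, (x, true) ∈ e.1 then 1 else -1
        have hη : ∀ g, |η g| ≤ 1 := by
          intro g; simp only [η]; split_ifs <;> simp
        refine le_trans (le_of_eq ?_) (N_ge (CC L) η hη)
        have h3 : ∀ e ∈ L, lin η (cw e.1) = (e.1.length : ℝ) := by
          intro e he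
          apply lin_cw_eq
          rintro ⟨x, b⟩ hl
          cases b with
          | true =>
            simp only [c, if_true, lin_single, one_mul, η]
            rw [if_pos ⟨e, he, hl⟩]
          | false =>
            simp only [c, Bool.false_eq_true, if_false, map_neg, lin_single, one_mul, η]
            rw [if_neg]
            · simp
            · rintro ⟨e', he', h4⟩
              exact hex (x, false) e he e' he' hl (by simpa [linv] using h4)
        rw [CC, map_multiset_sum, Multiset.map_map, ← hn, len, Nat.cast_multiset_sum, Multiset.map_map]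
        refine congrArg Multiset.sum (Multiset.map_congr rfl fun e he => ?_)
        exact (h3 e he).symm
      have hmain : |lin φ (CC L) - FF φ L| ≤ D * (n - bon L) := by
        have h5 : ∀ L' : Multiset (List (Lam G) × Bool), L' ≤ L →
            |lin φ (CC L') - FF φ L'| ≤ D * (len L' - bon L') := by
          intro L'
          induction L' using Multiset.induction_on with
          | empty => intro _; simp [CC, FF, len, bon]
          | cons e L' ih' =>
            intro hle
            have h6 := ih' ((Multiset.le_cons_self _ _).trans hle)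
            have he : e ∈ L := Multiset.mem_of_le hle (by simp)
            have h7 : |lin φ (cw e.1) - φ (pr e.1)| ≤ D * (e.1.length - (if e.2 then (1:ℝ) else 0)) := by
              rcases eq_or_ne e.1 [] with h8 | h8
              · rw [h8]
                have : e.2 = false := by
                  by_contra h9
                  have := (hL e he (by simpa using h9)).2
                  rw [h8] at this
                  simp at this
                simp [this, h.map_one]
              · refine (word_bound h e.1 h8).trans ?_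
                apply mul_le_mul_of_nonneg_left _ hD
                split_ifs <;> linarith
            simp only [CC_cons, FF_cons, len_cons, bon_cons, map_add]
            push_cast
            rw [abs_le] at *
            constructor <;> nlinarith
        have := h5 L le_rfl
        rwa [hn] at this
      refine hmain.trans ?_
      apply mul_le_mul_of_nonneg_left _ hD
      linarith

section Norm

variable {S : Type}

theorem N_eq (x : S →₀ ℝ) (F : Finset S) (hF : x.support ⊆ F) : N x = ∑ s ∈ F, |x s| :=
  Finsupp.sum_of_support_subset x hF _ (by simp)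

theorem N_add (x y : S →₀ ℝ) : N (x + y) ≤ N x + N y := by
  classical
  rw [N_eq x (x.support ∪ y.support) Finset.subset_union_left,
    N_eq y (x.support ∪ y.support) Finset.subset_union_right,
    N_eq (x + y) (x.support ∪ y.support) Finsupp.support_add, ← Finset.sum_add_distrib]
  exact Finset.sum_le_sum fun s _ => abs_add_le _ _

theorem N_smul (t : ℝ) (x : S →₀ ℝ) : N (t • x) = |t| * N x := by
  rw [N_eq (t • x) x.support Finsupp.support_smul, N, Finsupp.sum, Finset.mul_sum]
  exact Finset.sum_congr rfl fun s _ => by simp [abs_mul]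

theorem N_zero : N (0 : S →₀ ℝ) = 0 := by simp [N]

theorem N_neg (x : S →₀ ℝ) : N (-x) = N x := by
  have := N_smul (-1) x
  simpa using this

theorem N_single (s : S) (a : ℝ) : N (single s a) = |a| := by
  simp [N]

theorem N_nonneg (x : S →₀ ℝ) : 0 ≤ N x := Finset.sum_nonneg fun _ _ => abs_nonneg _

end Norm

/-- boundary -/
noncomputable def bd : (G × G →₀ ℝ) →ₗ[ℝ] (G →₀ ℝ) :=
  Finsupp.linearCombination ℝ fun p : G × G => single (p.1 * p.2) 1 - single p.1 1 - single p.2 1

theorem bd_single (p : G × G) (a : ℝ) :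
    bd (single p a) = a • (single (p.1 * p.2) 1 - single p.1 1 - single p.2 1) := by
  simp [bd]

/-- signed triangles -/
noncomputable def ch (τ : Multiset ((G × G) × Bool)) : (G × G →₀ ℝ) :=
  (τ.map fun t => if t.2 then single t.1 1 else -single t.1 (1 : ℝ)).sum

def tw (t : (G × G) × Bool) : List (Lam G) :=
  if t.2 then [(t.1.1 * t.1.2, true), (t.1.2, false), (t.1.1, false)]
  else [(t.1.1, true), (t.1.2, true), (t.1.1 * t.1.2, false)]

theorem cw_tw (t : (G × G) × Bool) : cw (tw t) = bd (if t.2 then single t.1 1 else -single t.1 (1 : ℝ)) := by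
  rcases t with ⟨⟨x, y⟩, _ | _⟩
  · simp only [tw, Bool.false_eq_true, if_false, cw_cons, cw_nil, c, if_true, map_neg, bd_single]
    simp; abel
  · simp only [tw, Bool.false_eq_true, if_false, cw_cons, cw_nil, c, if_true, bd_single]
    simp; abel

theorem pr_tw (t : (G × G) × Bool) : pr (tw t) = 1 := by
  rcases t with ⟨⟨x, y⟩, _ | _⟩ <;> simp [tw, val]

theorem len_tw (t : (G × G) × Bool) : (tw t).length = 3 := by
  rcases t with ⟨⟨x, y⟩, _ | _⟩ <;> simp [tw]

theorem tri (h : HQ φ D) (τ : Multiset ((G × G) × Bool)) :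
    lin φ (bd (ch τ)) ≤ D / 2 * (N (bd (ch τ)) + τ.card) := by
  let L : Multiset (List (Lam G) × Bool) := τ.map fun t => (tw t, true)
  have h1 := main_ineq h (len L) L (by
    intro e he _
    obtain ⟨t, _, rfl⟩ := Multiset.mem_map.1 he
    exact ⟨pr_tw t, by simp [len_tw]⟩) rfl
  have h2 : CC L = bd (ch τ) := by
    rw [CC, ch, map_multiset_sum, Multiset.map_map, Multiset.map_map]
    exact congrArg Multiset.sum (Multiset.map_congr rfl fun t _ => cw_tw t)
  have h3 : FF φ L = 0 := by
    rw [FF, Multiset.map_map]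
    apply Multiset.sum_eq_zero
    intro x hx
    obtain ⟨t, _, rfl⟩ := Multiset.mem_map.1 hx
    simp [pr_tw, h.map_one]
  have h4 : len L = 3 * τ.card := by
    rw [len, Multiset.map_map]
    have : (τ.map ((fun e : List (Lam G) × Bool => e.1.length) ∘ fun t => (tw t, true))) =
        τ.map fun _ => 3 := Multiset.map_congr rfl fun t _ => len_tw t
    rw [this]; simp [mul_comm]
  have h5 : bon L = τ.card := by
    rw [bon, Multiset.map_map]
    have : (τ.map ((fun e : List (Lam G) × Bool => if e.2 then (1:ℝ) else 0) ∘ fun t => (tw t, true))) =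
        τ.map fun _ => (1 : ℝ) := Multiset.map_congr rfl fun t _ => by simp
    rw [this]; simp
  rw [h2, h3, h5, h4, sub_zero] at h1
  have := (abs_le.1 h1).2
  push_cast at this
  linarith

theorem int_chain (a : G × G →₀ ℤ) : ∃ τ : Multiset ((G × G) × Bool),
    ch τ = a.mapRange (fun x : ℤ => (x : ℝ)) (by simp) ∧ (τ.card : ℝ) = N (ch τ) := by
  classical
  let τ : Multiset ((G × G) × Bool) :=
    ∑ s ∈ a.support, Multiset.replicate (a s).natAbs (s, decide (0 ≤ a s))
  have h1 : ch τ = a.mapRange (fun x : ℤ => (x : ℝ)) (by simp) := by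
    let F : Multiset ((G × G) × Bool) →+ (G × G →₀ ℝ) :=
      (Multiset.sumAddMonoidHom).comp (Multiset.mapAddMonoidHom
        fun t => if t.2 then single t.1 1 else -single t.1 (1 : ℝ))
    change F τ = _
    rw [map_sum]
    have h2 : ∀ s ∈ a.support, F (Multiset.replicate (a s).natAbs (s, decide (0 ≤ a s))) =
        single s ((a s : ℤ) : ℝ) := by
      intro s _
      change ((Multiset.replicate (a s).natAbs (s, decide (0 ≤ a s))).map _).sum = _
      rw [Multiset.map_replicate, Multiset.sum_replicate]
      by_cases h0 : 0 ≤ a s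
      · simp only [h0, decide_true, if_true, Finsupp.smul_single, nsmul_eq_mul, mul_one]
        congr 1
        rw [Nat.cast_natAbs, abs_of_nonneg h0]
      · simp only [h0, decide_false, Bool.false_eq_true, if_false, smul_neg, Finsupp.smul_single,
          nsmul_eq_mul, mul_one]
        rw [← Finsupp.single_neg]
        congr 1
        rw [Nat.cast_natAbs, abs_of_neg (by omega)]
        simp
    rw [Finset.sum_congr rfl h2]
    ext s
    rw [Finsupp.finsetSum_apply, Finsupp.mapRange_apply]
    simp only [Finsupp.single_apply]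
    rw [Finset.sum_ite_eq']
    split_ifs with h3
    · rfl
    · rw [Finsupp.notMem_support_iff.1 h3]; simp
  refine ⟨τ, h1, ?_⟩
  rw [h1]
  have h4 : τ.card = ∑ s ∈ a.support, (a s).natAbs := by
    simp only [τ, Multiset.card_replicate, Multiset.card_sum]
  rw [h4, N_eq _ a.support Finsupp.support_mapRange]
  push_cast
  refine Finset.sum_congr rfl fun s _ => ?_
  rw [Finsupp.mapRange_apply, Nat.cast_natAbs]
  simp

theorem N_sum_le {S T : Type} (F : Finset T) (x : T → (S →₀ ℝ)) : N (∑ t ∈ F, x t) ≤ ∑ t ∈ F, N (x t) := by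
  classical
  induction F using Finset.induction_on with
  | empty => simp [N_zero]
  | insert t F ht ih =>
    rw [Finset.sum_insert ht, Finset.sum_insert ht]
    exact (N_add _ _).trans (by linarith)

theorem N_bd_le (A : G × G →₀ ℝ) : N (bd A) ≤ 3 * N A := by
  rw [bd, Finsupp.linearCombination_apply, Finsupp.sum]
  refine (N_sum_le _ _).trans ?_
  rw [N, Finsupp.sum, Finset.mul_sum]
  refine Finset.sum_le_sum fun s _ => ?_
  rw [N_smul, mul_comm]
  apply mul_le_mul_of_nonneg_right _ (abs_nonneg _)
  have h1 : N (single (s.1 * s.2) (1:ℝ) - single s.1 1 - single s.2 1) ≤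
      N (single (s.1 * s.2) (1:ℝ)) + N (-single s.1 (1:ℝ)) + N (-single s.2 (1:ℝ)) := by
    rw [sub_eq_add_neg, sub_eq_add_neg]
    refine (N_add _ _).trans ?_
    have := N_add (single (s.1 * s.2) (1:ℝ)) (-single s.1 (1:ℝ))
    linarith
  rw [N_neg, N_neg, N_single, N_single, N_single] at h1
  simp at h1
  linarith

theorem lin_bd_le (h : HQ φ D) (A : G × G →₀ ℝ) : |lin φ (bd A)| ≤ D * N A := by
  rw [bd, Finsupp.linearCombination_apply, Finsupp.sum, map_sum]
  refine (Finset.abs_sum_le_sum_abs _ _).trans ?_
  rw [N, Finsupp.sum, Finset.mul_sum]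
  refine Finset.sum_le_sum fun s _ => ?_
  rw [map_smul, map_sub, map_sub, lin_single, lin_single, lin_single, smul_eq_mul, abs_mul, mul_comm]
  apply mul_le_mul_of_nonneg_right _ (abs_nonneg _)
  simpa using h.defect s.1 s.2

/-- the sublinear functional -/
noncomputable def H (φ : G → ℝ) (D : ℝ) (A : G × G →₀ ℝ) : ℝ :=
  D / 2 * (N (bd A) + N A) - lin φ (bd A)

theorem H_add (h : HQ φ D) (A B : G × G →₀ ℝ) : H φ D (A + B) ≤ H φ D A + H φ D B := by
  unfold H
  have hD := h.nonneg
  rw [map_add, map_add]
  have h1 := N_add (bd A) (bd B)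
  have h2 := N_add A B
  have h3 : D / 2 * (N (bd A + bd B) + N (A + B)) ≤ D / 2 * ((N (bd A) + N (bd B)) + (N A + N B)) :=
    mul_le_mul_of_nonneg_left (by linarith) (by linarith)
  linarith

theorem H_smul (t : ℝ) (ht : 0 ≤ t) (A : G × G →₀ ℝ) : H φ D (t • A) = t * H φ D A := by
  unfold H
  rw [map_smul, map_smul, N_smul, N_smul, abs_of_nonneg ht, smul_eq_mul]
  ring

theorem H_le (h : HQ φ D) (A : G × G →₀ ℝ) : H φ D A ≤ 3 * D * N A := by
  unfold H
  have hD := h.nonneg
  have h1 := N_bd_le A
  have h2 := (abs_le.1 (lin_bd_le h A)).1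
  have h3 : D / 2 * (N (bd A) + N A) ≤ D / 2 * (3 * N A + N A) :=
    mul_le_mul_of_nonneg_left (by linarith) (by linarith)
  linarith

theorem H_nonneg (h : HQ φ D) (A : G × G →₀ ℝ) : 0 ≤ H φ D A := by
  have hD := h.nonneg
  have key : ∀ k : ℕ, -(3 * D * A.support.card) ≤ k * H φ D A := by
    intro k
    let a : G × G →₀ ℤ := A.mapRange (fun x => ⌊(k : ℝ) * x⌋) (by simp)
    obtain ⟨τ, h1, h2⟩ := int_chain a
    have h3 := tri h τ
    rw [h2] at h3
    have h4 : 0 ≤ H φ D (ch τ) := by unfold H; linarith
    let B := ch τ - (k : ℝ) • A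
    have h5 : ch τ = (k : ℝ) • A + B := by simp [B]
    rw [h5] at h4
    have h6 := h4.trans (H_add h _ _)
    rw [H_smul _ (Nat.cast_nonneg k)] at h6
    have h7 := H_le h B
    have h8 : N B ≤ A.support.card := by
      have hsup : B.support ⊆ A.support := by
        intro s hs
        rw [Finsupp.mem_support_iff] at hs ⊢
        intro h0
        apply hs
        simp [B, h1, a, h0]
      rw [N_eq B A.support hsup, Finset.card_eq_sum_ones, Nat.cast_sum]
      refine Finset.sum_le_sum fun s _ => ?_
      simp only [B, h1, a, Finsupp.sub_apply, Finsupp.mapRange_apply, Finsupp.smul_apply, smul_eq_mul,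
        Nat.cast_one]
      rw [abs_le]
      constructor
      · linarith [Int.lt_floor_add_one ((k:ℝ) * A s)]
      · linarith [Int.floor_le ((k:ℝ) * A s)]
    have h9 : 3 * D * N B ≤ 3 * D * A.support.card := mul_le_mul_of_nonneg_left h8 (by linarith)
    linarith
  by_contra hneg
  push Not at hneg
  obtain ⟨k, hk⟩ := exists_nat_gt ((3 * D * A.support.card) / (-(H φ D A)))
  have hpos : 0 < -(H φ D A) := by linarith
  rw [div_lt_iff₀ hpos] at hk
  have := key k
  linarith

/-- the main theorem -/
theorem main (h : HQ φ D) : ∃ ψ : G → ℝ, (∃ C : ℝ, ∀ g, |ψ g - φ g| ≤ C) ∧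
    ∀ g k, |ψ (g * k) - ψ g - ψ k| ≤ D / 2 := by
  have hD := h.nonneg
  let E := (G →₀ ℝ) × (G × G →₀ ℝ)
  let j : (G × G →₀ ℝ) →ₗ[ℝ] E := LinearMap.prod (-bd) LinearMap.id
  let ell : E →ₗ[ℝ] ℝ := ((lin φ).comp bd).comp (LinearMap.snd ℝ _ _)
  let f : E →ₗ.[ℝ] ℝ := ⟨LinearMap.range j, ell.comp (LinearMap.range j).subtype⟩
  obtain ⟨g, hg1, hg2⟩ := exists_extension_of_le_sublinear f (fun x => D / 2 * (N x.1 + N x.2))
    (by
      intro t ht x
      rw [Prod.smul_fst, Prod.smul_snd, N_smul, N_smul, abs_of_pos ht]
      ring)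
    (by
      intro x y
      have h1 := N_add x.1 y.1
      have h2 := N_add x.2 y.2
      rw [Prod.fst_add, Prod.snd_add, ← mul_add]
      apply mul_le_mul_of_nonneg_left _ (by linarith)
      linarith)
    (by
      rintro ⟨x, ⟨A, rfl⟩⟩
      change lin φ (bd A) ≤ D / 2 * (N (-bd A) + N A)
      have := H_nonneg h A
      unfold H at this
      rw [N_neg]
      linarith)
  have hg3 : ∀ A, g (-bd A, A) = lin φ (bd A) := fun A => hg1 ⟨j A, ⟨A, rfl⟩⟩
  let g1 : (G →₀ ℝ) →ₗ[ℝ] ℝ := g.comp (LinearMap.inl ℝ (G →₀ ℝ) (G × G →₀ ℝ))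
  let g2 : (G × G →₀ ℝ) →ₗ[ℝ] ℝ := g.comp (LinearMap.inr ℝ (G →₀ ℝ) (G × G →₀ ℝ))
  have hg4 : ∀ x A, g (x, A) = g1 x + g2 A := by
    intro x A
    change g (x, A) = g ((x, 0) : (G →₀ ℝ) × (G × G →₀ ℝ)) + g ((0, A) : (G →₀ ℝ) × (G × G →₀ ℝ))
    rw [← map_add, Prod.mk_add_mk, add_zero, zero_add]
  have hb : ∀ x : G →₀ ℝ, |g1 x| ≤ D / 2 * N x := by
    intro x
    have h1 := hg2 (x, 0)
    have h2 := hg2 (-x, 0)
    rw [hg4] at h1 h2
    simp only [N_neg, N_zero, add_zero, map_zero, map_neg] at h1 h2
    rw [abs_le]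
    constructor <;> linarith
  have hA : ∀ A : G × G →₀ ℝ, |lin φ (bd A) + g1 (bd A)| ≤ D / 2 * N A := by
    have h4 : ∀ A : G × G →₀ ℝ, g2 A = lin φ (bd A) + g1 (bd A) := by
      intro A
      rw [← hg3, hg4, map_neg]; ring
    intro A
    rw [← h4]
    have h1 := hg2 (0, A)
    have h2 := hg2 (0, -A)
    rw [hg4] at h1 h2
    simp only [N_neg, N_zero, zero_add, map_zero, map_neg] at h1 h2
    rw [abs_le]
    constructor <;> linarith
  refine ⟨fun x => φ x + g1 (single x 1), ⟨D / 2, fun x => ?_⟩, fun x y => ?_⟩
  · have := hb (single x 1)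
    rw [N_single, abs_one, mul_one] at this
    simpa using this
  · have := hA (single (x, y) 1)
    rw [N_single, abs_one, mul_one, bd_single, one_smul, map_sub, map_sub, lin_single, lin_single,
      lin_single, map_sub, map_sub] at this
    convert this using 2
    ring

end Pool.Agent.H2.QM
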