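import Mathlib

namespace Pool.Agent.H2.WN

open MvPolynomial

theorem pow_le {B ι : Type*} [CommRing B] [DecidableEq ι] (y : ι → B) (hy : ∀ i, y i * y i = 0)
    (T : Finset ι) (n : ℕ) :
    (Ideal.span (y '' T)) ^ n ≤ Ideal.span {b | ∃ S ⊆ T, S.card = n ∧ b = ∏ i ∈ S, y i} := by
  induction n with
  | zero =>
    rw [pow_zero, Ideal.one_eq_top, top_le_iff, Ideal.eq_top_iff_one]
    exact Ideal.subset_span ⟨∅, Finset.empty_subset _, rfl, by simp⟩
  | succ n ih =>
    rw [pow_succ]
    refine (Ideal.mul_mono_left ih).trans ?_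
    rw [Ideal.span_mul_span', Ideal.span_le]
    rintro _ ⟨_, ⟨S, hS, hc, rfl⟩, _, ⟨i, hi, rfl⟩, rfl⟩
    by_cases his : i ∈ S
    · have : (fun x1 x2 => x1 * x2) (∏ i ∈ S, y i) (y i) = 0 := by
        simp only
        rw [← Finset.mul_prod_erase S y his, mul_comm, ← mul_assoc, hy, zero_mul]
      rw [this]
      exact zero_mem _
    · refine Ideal.subset_span ⟨insert i S, ?_, ?_, ?_⟩
      · exact Finset.insert_subset hi hS
      · rw [Finset.card_insert_of_notMem his, hc]
      · rw [Finset.prod_insert his, mul_comm]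

noncomputable section

variable (K : Type) [Field K]

def sqI (k : ℕ) : Ideal (MvPolynomial (Fin k) K) :=
  Ideal.span (Set.range fun i => (X i : MvPolynomial (Fin k) K) ^ 2)

abbrev C (k : ℕ) : Type := MvPolynomial (Fin k) K ⧸ sqI K k

variable {k : ℕ}

def x (i : Fin k) : C K k := Ideal.Quotient.mk _ (X i)

theorem x_sq (i : Fin k) : x K i * x K i = 0 := by
  rw [x, ← map_mul, Ideal.Quotient.eq_zero_iff_mem, ← pow_two]
  exact Ideal.subset_span ⟨i, rfl⟩

def hom {B : Type} [CommRing B] [Algebra K B] (a : Fin k → B)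
    (ha : ∀ i, a i * a i = 0) : C K k →ₐ[K] B :=
  Ideal.Quotient.liftₐ (sqI K k) (aeval a) (by
    intro p hp
    have : sqI K k ≤ RingHom.ker (aeval a : MvPolynomial (Fin k) K →ₐ[K] B) := by
      rw [sqI, Ideal.span_le]
      rintro _ ⟨i, rfl⟩
      rw [SetLike.mem_coe, RingHom.mem_ker]
      rw [map_pow, aeval_X, pow_two, ha]
    exact this hp)

theorem hom_x {B : Type} [CommRing B] [Algebra K B] (a : Fin k → B)
    (ha : ∀ i, a i * a i = 0) (i : Fin k) : hom K a ha (x K i) = a i := by
  have : hom K a ha (x K i) = aeval a (X i) := Ideal.Quotient.lift_mk _ _ _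
  rw [this, aeval_X]

/-- the maximal ideal -/
def m (k : ℕ) : Ideal (C K k) := Ideal.span (x K '' (Finset.univ : Finset (Fin k)))

theorem x_mem (i : Fin k) : x K i ∈ m K k := Ideal.subset_span ⟨i, by simp, rfl⟩

theorem m_pow_le (n : ℕ) : m K k ^ n ≤
    Ideal.span {b | ∃ S : Finset (Fin k), S.card = n ∧ b = ∏ i ∈ S, x K i} := by
  refine (pow_le (x K) (x_sq K) Finset.univ n).trans (Ideal.span_mono ?_)
  rintro b ⟨S, _, h1, h2⟩
  exact ⟨S, h1, h2⟩

theorem prod_mem (S : Finset (Fin k)) : ∏ i ∈ S, x K i ∈ m K k ^ S.card := by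
  classical
  induction S using Finset.induction_on with
  | empty => simp
  | insert i S hi ih =>
    rw [Finset.prod_insert hi, Finset.card_insert_of_notMem hi, mul_comm]
    rw [pow_succ (m K k) S.card]
    exact Ideal.mul_mem_mul ih (x_mem K i)

theorem m_pow_zero : m K k ^ (k + 1) = ⊥ := by
  rw [eq_bot_iff]
  refine (m_pow_le K (k + 1)).trans ?_
  rw [Ideal.span_le]
  rintro b ⟨S, hS, -⟩
  have := S.card_le_univ
  rw [Fintype.card_fin] at this
  omega

theorem hom_m {l : ℕ} (a : Fin k → C K l) (ha : ∀ i, a i * a i = 0) (J : Ideal (C K l))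
    (hJ : ∀ i, a i ∈ J) (n : ℕ) (f : C K k) (hf : f ∈ m K k ^ n) : hom K a ha f ∈ J ^ n := by
  have h1 : Ideal.map (hom K a ha) (m K k) ≤ J := by
    rw [m, Ideal.map_span, Ideal.span_le]
    rintro _ ⟨_, ⟨i, -, rfl⟩, rfl⟩
    rw [hom_x]; exact hJ i
  have h2 : hom K a ha f ∈ Ideal.map (hom K a ha) (m K k ^ n) := Ideal.mem_map_of_mem _ hf
  rw [Ideal.map_pow] at h2
  exact Ideal.pow_right_mono h1 n h2

theorem sub_mem_m (r : C K k) : ∃ c : K, r - algebraMap K (C K k) c ∈ m K k := by
  obtain ⟨p, rfl⟩ := Ideal.Quotient.mk_surjective r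
  induction p using MvPolynomial.induction_on with
  | C a =>
    refine ⟨a, ?_⟩
    have : (Ideal.Quotient.mk (sqI K k)) (MvPolynomial.C a) = algebraMap K (C K k) a := rfl
    rw [this, sub_self]
    exact zero_mem _
  | add p q hp hq =>
    obtain ⟨c, hc⟩ := hp
    obtain ⟨d, hd⟩ := hq
    refine ⟨c + d, ?_⟩
    rw [map_add, map_add, add_sub_add_comm]
    exact add_mem hc hd
  | mul_X p i _ =>
    refine ⟨0, ?_⟩
    rw [map_zero, sub_zero, map_mul]
    exact Ideal.mul_mem_left _ _ (x_mem K i)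

theorem decomp (n : ℕ) (f : C K k) (hf : f ∈ m K k ^ n) :
    ∃ c : Finset (Fin k) → K,
      f - ∑ T ∈ Finset.powersetCard n Finset.univ, c T • ∏ i ∈ T, x K i ∈ m K k ^ (n + 1) := by
  classical
  have hf' := m_pow_le K n hf
  induction hf' using Submodule.span_induction with
  | mem b hb =>
    obtain ⟨S, hS, rfl⟩ := hb
    refine ⟨fun T => if T = S then 1 else 0, ?_⟩
    have : ∑ T ∈ Finset.powersetCard n Finset.univ,
        (if T = S then (1 : K) else 0) • ∏ i ∈ T, x K i = ∏ i ∈ S, x K i := by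
      rw [Finset.sum_eq_single S]
      · simp
      · intro T _ hT; simp [hT]
      · intro hT
        exact absurd (Finset.mem_powersetCard.2 ⟨Finset.subset_univ _, hS⟩) hT
    rw [this, sub_self]
    exact zero_mem _
  | zero => exact ⟨0, by simp⟩
  | add p q hp hq ihp ihq =>
    have hle : Ideal.span {b | ∃ S : Finset (Fin k), S.card = n ∧ b = ∏ i ∈ S, x K i} ≤
        m K k ^ n := by
      rw [Ideal.span_le]
      rintro _ ⟨S, hS, rfl⟩
      rw [← hS]; exact prod_mem K S
    obtain ⟨c, hc⟩ := ihp (hle hp)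
    obtain ⟨d, hd⟩ := ihq (hle hq)
    refine ⟨c + d, ?_⟩
    simp only [Pi.add_apply, add_smul, Finset.sum_add_distrib]
    rw [add_sub_add_comm]
    exact add_mem hc hd
  | smul r p hp ihp =>
    have hle : Ideal.span {b | ∃ S : Finset (Fin k), S.card = n ∧ b = ∏ i ∈ S, x K i} ≤
        m K k ^ n := by
      rw [Ideal.span_le]
      rintro _ ⟨S, hS, rfl⟩
      rw [← hS]; exact prod_mem K S
    obtain ⟨c, hc⟩ := ihp (hle hp)
    obtain ⟨a, ha⟩ := sub_mem_m K r
    refine ⟨a • c, ?_⟩
    have : r • p - ∑ T ∈ Finset.powersetCard n Finset.univ, (a • c) T • ∏ i ∈ T, x K i =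
        (r - algebraMap K (C K k) a) * p + algebraMap K (C K k) a *
          (p - ∑ T ∈ Finset.powersetCard n Finset.univ, c T • ∏ i ∈ T, x K i) := by
      have h5 : ∑ T ∈ Finset.powersetCard n Finset.univ, (a • c) T • ∏ i ∈ T, x K i =
          a • ∑ T ∈ Finset.powersetCard n Finset.univ, c T • ∏ i ∈ T, x K i := by
        rw [Finset.smul_sum]
        apply Finset.sum_congr rfl
        intro T _
        rw [Pi.smul_apply, smul_assoc]
      have h6 : ∀ z : C K k, a • z = algebraMap K (C K k) a * z := fun z => Algebra.smul_def a z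
      rw [h5, h6, smul_eq_mul]
      ring
    rw [this]
    refine add_mem ?_ (Ideal.mul_mem_left _ _ hc)
    rw [mul_comm, pow_succ (m K k) n]
    exact Ideal.mul_mem_mul (hle hp) ha

/-- the index set of substitutions -/
abbrev E (k : ℕ) : Type := Fin k → Option (Fin (k + 1))

def sub (e : E k) (i : Fin k) : C K (k + 1) :=
  match e i with
  | none => 0
  | some j => x K j

theorem sub_sq (e : E k) (i : Fin k) : sub K e i * sub K e i = 0 := by
  unfold sub
  cases e i with
  | none => simp
  | some j => exact x_sq K j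

def φ (e : E k) : C K k →ₐ[K] C K (k + 1) := hom K (sub K e) (sub_sq K e)

theorem φ_m (e : E k) (n : ℕ) (f : C K k) (hf : f ∈ m K k ^ n) : φ K e f ∈ m K (k + 1) ^ n := by
  apply hom_m K _ _ _ _ _ _ hf
  intro i
  unfold sub
  cases e i with
  | none => exact zero_mem _
  | some j => exact x_mem K j

theorem key (n : ℕ) (f : C K k) (hf : f ∈ m K k ^ n) (hf' : f ∉ m K k ^ (n + 1))
    (T : Finset (Fin (k + 1))) (hT : T.card = n) :
    ∃ (e : E k) (c : K), c ≠ 0 ∧ φ K e f = c • ∏ i ∈ T, x K i := by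
  classical
  obtain ⟨c, hc⟩ := decomp K n f hf
  have hex : ∃ T0 ∈ Finset.powersetCard n (Finset.univ : Finset (Fin k)), c T0 ≠ 0 := by
    by_contra hcon
    push Not at hcon
    rw [Finset.sum_eq_zero (fun T hT => by rw [hcon T hT, zero_smul]), sub_zero] at hc
    exact hf' hc
  obtain ⟨T0, hT0, hc0⟩ := hex
  have hcard : T0.card = T.card := by rw [hT]; exact (Finset.mem_powersetCard.1 hT0).2
  let eq := Finset.equivOfCardEq hcard
  let e : E k := fun i => if h : i ∈ T0 then some (eq ⟨i, h⟩).1 else none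
  refine ⟨e, c T0, hc0, ?_⟩
  have he1 : ∀ i (h : i ∈ T0), sub K e i = x K (eq ⟨i, h⟩).1 := by
    intro i h
    have : e i = some (eq ⟨i, h⟩).1 := by simp only [e, dif_pos h]
    unfold sub
    rw [this]
  have he0 : ∀ i, i ∉ T0 → sub K e i = 0 := by
    intro i h
    have : e i = none := by simp only [e, dif_neg h]
    unfold sub
    rw [this]
  have h1 : φ K e (f - ∑ T ∈ Finset.powersetCard n Finset.univ, c T • ∏ i ∈ T, x K i) = 0 := by
    have h2 := hom_m K (sub K e) (sub_sq K e) (Ideal.span (x K '' T)) (by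
      intro i
      by_cases h : i ∈ T0
      · rw [he1 i h]
        exact Ideal.subset_span ⟨_, (eq ⟨i, h⟩).2, rfl⟩
      · rw [he0 i h]; exact zero_mem _) (n + 1) _ hc
    have h3 := pow_le (x K) (x_sq K) T (n + 1) h2
    have h4 : {b | ∃ S ⊆ T, S.card = n + 1 ∧ b = ∏ i ∈ S, x K i} = (∅ : Set (C K (k + 1))) := by
      rw [Set.eq_empty_iff_forall_notMem]
      rintro b ⟨S, hS, hSc, -⟩
      have := Finset.card_le_card hS
      omega
    rw [h4, Ideal.span_empty] at h3
    exact h3
  rw [map_sub, sub_eq_zero] at h1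
  rw [h1, map_sum, Finset.sum_eq_single T0]
  · rw [map_smul, map_prod]
    congr 1
    calc ∏ i ∈ T0, φ K e (x K i) = ∏ i ∈ T0.attach, x K (eq i).1 := by
          rw [← Finset.prod_attach]
          apply Finset.prod_congr rfl
          intro i _
          rw [φ, hom_x, he1 i.1 i.2]
      _ = ∏ i ∈ T.attach, x K i.1 := by
          apply Fintype.prod_equiv eq (fun i => x K (eq i).1) (fun i => x K i.1)
          intro i; rfl
      _ = ∏ i ∈ T, x K i := Finset.prod_attach T (x K)
  · intro S hS hne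
    rw [map_smul, map_prod]
    have : ∃ i ∈ S, i ∉ T0 := by
      by_contra hcon
      push Not at hcon
      apply hne
      apply Finset.eq_of_subset_of_card_le hcon
      rw [(Finset.mem_powersetCard.1 hS).2, (Finset.mem_powersetCard.1 hT0).2]
    obtain ⟨i, hi, hi'⟩ := this
    rw [Finset.prod_eq_zero hi (by rw [φ, hom_x, he0 i hi']), smul_zero]
  · intro h; exact absurd hT0 h

/-- the inclusion substitution -/
def incl : E k := fun i => some i.castSucc

/-- the retraction -/
def retr (j : Fin (k + 1)) : C K k :=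
  if h : (j : ℕ) < k then x K ⟨j, h⟩ else 0

theorem retr_sq (j : Fin (k + 1)) : retr K j * retr K j = 0 := by
  unfold retr
  split_ifs
  · exact x_sq K _
  · simp

theorem retr_incl (f : C K k) : hom K (retr K) (retr_sq K) (φ K incl f) = f := by
  obtain ⟨p, rfl⟩ := Ideal.Quotient.mk_surjective f
  induction p using MvPolynomial.induction_on with
  | C a =>
    have : (Ideal.Quotient.mk (sqI K k)) (MvPolynomial.C a) = algebraMap K (C K k) a := rfl
    rw [this, AlgHom.commutes, AlgHom.commutes]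
  | add p q hp hq => rw [map_add, map_add, map_add, hp, hq]
  | mul_X p i hp =>
    rw [map_mul, map_mul, map_mul, hp]
    congr 1
    change hom K (retr K) (retr_sq K) (φ K incl (x K i)) = x K i
    rw [φ, hom_x]
    change hom K (retr K) (retr_sq K) (x K i.castSucc) = x K i
    rw [hom_x]
    unfold retr
    rw [dif_pos (by simp)]
    rfl

theorem incl_m (n : ℕ) (f : C K k) (hf : φ K incl f ∈ m K (k + 1) ^ n) : f ∈ m K k ^ n := by
  rw [← retr_incl K f]
  apply hom_m K _ _ _ _ _ _ hf
  intro i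
  unfold retr
  split_ifs
  · exact x_mem K _
  · exact zero_mem _

theorem prod_ne_zero : ∏ i : Fin k, x K i ≠ 0 := by
  classical
  intro h
  have h1 : Ideal.Quotient.mk (sqI K k) (∏ i : Fin k, (X i : MvPolynomial (Fin k) K)) = 0 := by
    rw [map_prod]; exact h
  rw [Ideal.Quotient.eq_zero_iff_mem] at h1
  have h2 : (∏ i : Fin k, (X i : MvPolynomial (Fin k) K)) =
      monomial (∑ i : Fin k, Finsupp.single i 1) 1 := by
    rw [MvPolynomial.monomial_sum_one]
    rfl
  have h3 : sqI K k = Ideal.span ((fun s => (monomial s 1 : MvPolynomial (Fin k) K)) ''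
      (Set.range fun i : Fin k => Finsupp.single i 2)) := by
    rw [sqI, ← Set.range_comp]
    congr 1
    ext p
    simp only [Set.mem_range, Function.comp_apply, X_pow_eq_monomial]
  rw [h2, h3, mem_ideal_span_monomial_image] at h1
  obtain ⟨_, ⟨i, rfl⟩, hi⟩ := h1 (∑ i : Fin k, Finsupp.single i 1) (by
    rw [support_monomial, if_neg one_ne_zero]; simp)
  have h4 := hi i
  rw [Finsupp.single_eq_same, Finsupp.finsetSum_apply] at h4
  simp [Finsupp.single_apply] at h4

end

end Pool.Agent.H2.WN
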