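import Mathlib
import Pool.Agent.H2.WN1

namespace Pool.Agent.H2.WN

open MvPolynomial

noncomputable section

variable (K : Type) [Field K]

def W : ℕ → Type
  | 0 => Unit
  | k + 1 => W k × E k

instance instFintypeW : ∀ k, Fintype (W k)
  | 0 => inferInstanceAs (Fintype Unit)
  | k + 1 => by
    have := instFintypeW k
    exact inferInstanceAs (Fintype (W k × E k))

instance instDecW : ∀ k, DecidableEq (W k)
  | 0 => inferInstanceAs (DecidableEq Unit)
  | k + 1 => by
    have := instDecW k
    exact inferInstanceAs (DecidableEq (W k × E k))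

instance instNeW : ∀ k, Nonempty (W k)
  | 0 => inferInstanceAs (Nonempty Unit)
  | k + 1 => by
    have := instNeW k
    exact inferInstanceAs (Nonempty (W k × E k))

abbrev G (k : ℕ) : Type := Matrix (W k) (W k) (C K k)

def step (k : ℕ) : G K k →ₐ[K] G K (k + 1) where
  toFun f := Matrix.blockDiagonal (fun e : E k => f.map (φ K e))
  map_one' := by
    have : (fun e : E k => (1 : G K k).map (φ K e)) = 1 := by
      funext e
      rw [Matrix.map_one _ (map_zero _) (map_one _)]; rfl
    rw [this]
    exact Matrix.blockDiagonal_one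
  map_mul' f g := by
    have : (fun e : E k => (f * g).map (φ K e)) =
        fun e : E k => f.map (φ K e) * g.map (φ K e) := by
      funext e
      exact Matrix.map_mul (f := (φ K e).toRingHom)
    rw [this]
    exact Matrix.blockDiagonal_mul _ _
  map_zero' := by
    have : (fun e : E k => (0 : G K k).map (φ K e)) = 0 := by
      funext e
      rw [Matrix.map_zero _ (map_zero _)]; rfl
    rw [this]
    exact Matrix.blockDiagonal_zero
  map_add' f g := by
    have : (fun e : E k => (f + g).map (φ K e)) =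
        (fun e : E k => f.map (φ K e)) + fun e : E k => g.map (φ K e) := by
      funext e
      rw [Matrix.map_add _ (map_add _)]; rfl
    rw [this]
    exact Matrix.blockDiagonal_add _ _
  commutes' c := by
    ext ⟨w, e⟩ ⟨w', e'⟩
    rw [Matrix.blockDiagonal_apply, Matrix.map_apply, Matrix.algebraMap_matrix_apply]
    by_cases h1 : w = w'
    · by_cases h2 : e = e'
      · subst h1 h2
        refine Eq.trans ?_ ((Matrix.algebraMap_matrix_apply).trans (if_pos rfl)).symm
        simp
      · have : ¬ ((w, e) : W (k + 1)) = (w', e') := fun h => h2 (congrArg Prod.snd h)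
        refine Eq.trans ?_ ((Matrix.algebraMap_matrix_apply).trans (if_neg this)).symm
        simp [h2]
    · have : ¬ ((w, e) : W (k + 1)) = (w', e') := fun h => h1 (congrArg Prod.fst h)
      refine Eq.trans ?_ ((Matrix.algebraMap_matrix_apply).trans (if_neg this)).symm
      simp [h1]

theorem step_apply (k : ℕ) (f : G K k) (w w' : W k) (e e' : E k) :
    step K k f (w, e) (w', e') = if e = e' then φ K e (f w w') else 0 := by
  change Matrix.blockDiagonal (fun e : E k => f.map (φ K e)) (w, e) (w', e') = _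
  rw [Matrix.blockDiagonal_apply]; rfl

/-- entries in `m^n` -/
def P (n k : ℕ) (f : G K k) : Prop := ∀ u v, f u v ∈ m K k ^ n

theorem P_step (n k : ℕ) (f : G K k) : P K n (k + 1) (step K k f) ↔ P K n k f := by
  constructor
  · intro h u v
    have := h (u, incl) (v, incl)
    rw [step_apply, if_pos rfl] at this
    exact incl_m K n _ this
  · rintro h ⟨w, e⟩ ⟨w', e'⟩
    rw [step_apply]
    split_ifs
    · exact φ_m K e n _ (h _ _)
    · exact zero_mem _

def tr (i : ℕ) : ∀ j, i ≤ j → (G K i →ₐ[K] G K j) := fun _ h =>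
  Nat.leRec (motive := fun j _ => G K i →ₐ[K] G K j) (AlgHom.id K (G K i))
    (fun {j} _ g => (step K j).comp g) h

theorem tr_self (i : ℕ) (h : i ≤ i) : tr K i i h = AlgHom.id K (G K i) := by
  unfold tr
  rw [Nat.leRec_self]

theorem tr_succ (i j : ℕ) (h : i ≤ j) (h' : i ≤ j + 1) :
    tr K i (j + 1) h' = (step K j).comp (tr K i j h) := by
  unfold tr
  rw [Nat.leRec_succ]

instance : DirectedSystem (G K) (tr K · · ·) where
  map_self i x := by rw [tr_self]; rfl
  map_map k j i hij hjk x := by
    induction hjk with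
    | refl => rw [tr_self]; rfl
    | step h ih =>
      rename_i l
      rw [tr_succ K j l h, tr_succ K i l (hij.trans h)]
      simp only [AlgHom.comp_apply]
      rw [ih]

theorem P_tr (n i j : ℕ) (h : i ≤ j) (f : G K i) : P K n j (tr K i j h f) ↔ P K n i f := by
  induction h with
  | refl => rw [tr_self]; rfl
  | step h ih =>
    rename_i l
    rw [tr_succ K i l h, AlgHom.comp_apply, P_step]
    exact ih

abbrev A : Type := DirectLimit (G K) (tr K)

def o (k : ℕ) : G K k →ₐ[K] A K := DirectLimit.Algebra.of (G K) (tr K) k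

theorem o_tr (i j : ℕ) (h : i ≤ j) (f : G K i) : o K j (tr K i j h f) = o K i f :=
  DirectLimit.Algebra.of_f (G := G K) (f := tr K) h f

theorem o_step (k : ℕ) (f : G K k) : o K (k + 1) (step K k f) = o K k f := by
  have := o_tr K k (k + 1) (Nat.le_succ k) f
  rw [tr_succ K k k le_rfl, tr_self] at this
  exact this

theorem exists_rep (a : A K) : ∃ k f, a = o K k f := by
  obtain ⟨i, x, h⟩ := DirectLimit.exists_eq_mk (f := tr K) a
  exact ⟨i, x, h⟩

theorem exists_rep_ge (a : A K) (N : ℕ) : ∃ k f, N ≤ k ∧ a = o K k f := by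
  obtain ⟨k, f, rfl⟩ := exists_rep K a
  exact ⟨max N k, tr K k (max N k) (le_max_right _ _) f, le_max_left _ _, (o_tr K _ _ _ _).symm⟩

theorem o_eq {i j : ℕ} {f : G K i} {g : G K j} (h : o K i f = o K j g) :
    ∃ (l : ℕ) (hi : i ≤ l) (hj : j ≤ l), tr K i l hi f = tr K j l hj g := by
  obtain ⟨l, hi, hj, h⟩ := Quotient.eq.1 h
  exact ⟨l, hi, hj, h⟩

/-- the ideals -/
def LL (n : ℕ) : Set (A K) := {a | ∃ k f, a = o K k f ∧ P K n k f}

theorem mem_LL {n k : ℕ} {f : G K k} : o K k f ∈ LL K n ↔ P K n k f := by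
  constructor
  · rintro ⟨j, g, h, hg⟩
    obtain ⟨l, hi, hj, h⟩ := o_eq K h
    rw [← P_tr K n k l hi, h, P_tr]
    exact hg
  · intro h
    exact ⟨k, f, rfl, h⟩

theorem mem_LL_zero (a : A K) : a ∈ LL K 0 := by
  obtain ⟨k, f, rfl⟩ := exists_rep K a
  rw [mem_LL]
  intro u v
  simp

theorem P_top {k : ℕ} {f : G K k} (h : P K (k + 1) k f) : f = 0 := by
  ext u v
  have := h u v
  rw [m_pow_zero] at this
  exact this

theorem zero_mem_LL (n : ℕ) : (0 : A K) ∈ LL K n := by
  rw [← map_zero (o K 0), mem_LL]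
  intro u v
  exact zero_mem _

theorem eq_zero_of_o {k : ℕ} {f : G K k} (h : o K k f = 0) : f = 0 := by
  apply P_top K
  rw [← mem_LL, h]
  exact zero_mem_LL K _

theorem P_add {n k : ℕ} {f g : G K k} (hf : P K n k f) (hg : P K n k g) : P K n k (f + g) :=
  fun u v => add_mem (hf u v) (hg u v)

theorem P_smul {n k : ℕ} {f : G K k} (c : K) (hf : P K n k f) : P K n k (c • f) := by
  intro u v
  have : (c • f) u v = algebraMap K (C K k) c * f u v := Algebra.smul_def c (f u v)
  rw [this]
  exact Ideal.mul_mem_left _ _ (hf u v)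

theorem P_mul {a b k : ℕ} {f g : G K k} (hf : P K a k f) (hg : P K b k g) :
    P K (a + b) k (f * g) := by
  intro u v
  rw [Matrix.mul_apply]
  apply sum_mem
  intro w _
  rw [pow_add (m K k) a b]
  exact Ideal.mul_mem_mul (hf u w) (hg w v)

theorem P_mono {a b k : ℕ} (h : a ≤ b) {f : G K k} (hf : P K b k f) : P K a k f :=
  fun u v => Ideal.pow_le_pow_right h (hf u v)

theorem exists_rep₂ (a b : A K) : ∃ k f g, a = o K k f ∧ b = o K k g := by
  obtain ⟨k, f, rfl⟩ := exists_rep K a
  obtain ⟨l, g, hl, rfl⟩ := exists_rep_ge K b k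
  exact ⟨l, tr K k l hl f, g, (o_tr K _ _ _ _).symm, rfl⟩

/-- `LL n` as a subspace -/
def L (n : ℕ) : Submodule K (A K) where
  carrier := LL K n
  zero_mem' := zero_mem_LL K n
  add_mem' := by
    intro a b ha hb
    obtain ⟨k, f, g, rfl, rfl⟩ := exists_rep₂ K a b
    rw [mem_LL] at ha hb
    rw [← map_add, mem_LL]
    exact P_add K ha hb
  smul_mem' := by
    intro c a ha
    obtain ⟨k, f, rfl⟩ := exists_rep K a
    rw [mem_LL] at ha
    rw [← map_smul, mem_LL]
    exact P_smul K c ha

theorem mem_L {n k : ℕ} {f : G K k} : o K k f ∈ L K n ↔ P K n k f := mem_LL K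

/-- the closure property of ideals -/
def Cl (I : Submodule K (A K)) : Prop :=
  ∀ k f, o K k f ∈ I → ∀ (u v w z : W k) (s : C K k),
    o K k (Matrix.single w z (s * f u v)) ∈ I

theorem main {I : Submodule K (A K)} (hI : Cl K I) {n : ℕ} {a : A K} (ha : a ∈ I)
    (ha1 : a ∈ L K n) (ha2 : a ∉ L K (n + 1)) : L K n ≤ I := by
  classical
  intro b hb
  obtain ⟨k, f, g, rfl, rfl⟩ := exists_rep₂ K a b
  rw [mem_L] at ha1 ha2 hb
  -- a bad entry
  have : ∃ u v, f u v ∉ m K k ^ (n + 1) := by
    by_contra hcon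
    push Not at hcon
    exact ha2 hcon
  obtain ⟨u, v, huv⟩ := this
  rw [← o_step] at ha ⊢
  have h1 : ∀ (T : Finset (Fin (k + 1))), T.card = n → ∀ (w z : W (k + 1)) (s : C K (k + 1)),
      o K (k + 1) (Matrix.single w z (s * ∏ i ∈ T, x K i)) ∈ I := by
    intro T hT w z s
    obtain ⟨e, c, hc, he⟩ := key K n (f u v) (ha1 u v) huv T hT
    have h2 := hI (k + 1) (step K k f) ha (u, e) (v, e) w z (s * algebraMap K _ c⁻¹)
    rw [step_apply, if_pos rfl, he] at h2
    have h3 : s * algebraMap K _ c⁻¹ * c • ∏ i ∈ T, x K i = s * ∏ i ∈ T, x K i := by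
      have h6 : ∀ z : C K (k + 1), c • z = algebraMap K (C K (k + 1)) c * z :=
        fun z => Algebra.smul_def c z
      rw [h6, mul_assoc, ← mul_assoc (algebraMap K _ c⁻¹), ← map_mul, inv_mul_cancel₀ hc,
        map_one, one_mul]
    rw [h3] at h2
    exact h2
  have h4 : ∀ r ∈ m K (k + 1) ^ n, ∀ (w z : W (k + 1)) (s : C K (k + 1)),
      o K (k + 1) (Matrix.single w z (s * r)) ∈ I := by
    intro r hr
    have hr' := m_pow_le K n hr
    clear hr
    induction hr' using Submodule.span_induction with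
    | mem b hb =>
      obtain ⟨T, hT, rfl⟩ := hb
      exact h1 T hT
    | zero =>
      intro w z s
      rw [mul_zero, Matrix.single_zero, map_zero]
      exact zero_mem _
    | add p q _ _ hp hq =>
      intro w z s
      rw [mul_add, Matrix.single_add, map_add]
      exact add_mem (hp w z s) (hq w z s)
    | smul a p _ hp =>
      intro w z s
      rw [smul_eq_mul, ← mul_assoc]
      exact hp w z _
  rw [Matrix.matrix_eq_sum_single (step K k g), map_sum]
  apply sum_mem
  intro w _
  rw [map_sum]
  apply sum_mem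
  intro z _
  have h5 := h4 (step K k g w z) ((P_step K n k g).2 hb w z) w z 1
  rw [one_mul] at h5
  exact h5

end

end Pool.Agent.H2.WN
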